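import Pool.Agent.H922R3.CL.Defs

set_option autoImplicit false

open Set Filter Topology Function

namespace Pool.Agent.H922R3.CL

variable {d e m : ℕ}

/-- `z` and `w` have the same coordinates up to integers, up to level `i`. -/
def Eq' (i : ℕ) (z w : V d e m) : Prop :=
  z.1 - w.1 ∈ Zn d ∧ z.2.1 - w.2.1 ∈ Zn e ∧ ∀ j : Fin m, (j : ℕ) < i → ∃ k : ℤ, z.2.2 j - w.2.2 j = k

theorem Eq'.trans {i : ℕ} {z w v : V d e m} (h : Eq' i z w) (h' : Eq' i w v) : Eq' i z v := by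
  refine ⟨?_, ?_, fun j hj => ?_⟩
  · have := (Zn d).add_mem h.1 h'.1
    rwa [sub_add_sub_cancel] at this
  · have := (Zn e).add_mem h.2.1 h'.2.1
    rwa [sub_add_sub_cancel] at this
  · obtain ⟨k, hk⟩ := h.2.2 j hj
    obtain ⟨l, hl⟩ := h'.2.2 j hj
    exact ⟨k + l, by push_cast; linarith⟩

theorem Eq'.refl' {i : ℕ} (z : V d e m) : Eq' i z z := by
  refine ⟨?_, ?_, fun j hj => ⟨0, by simp⟩⟩
  · rw [sub_self]; exact (Zn d).zero_mem
  · rw [sub_self]; exact (Zn e).zero_mem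

variable {H : (Fin d → ℝ) → (Fin d → ℝ)} {F : V d e m → V d e m}
  {g : Fin e → (Fin d → ℝ) → ℝ → ℝ} {φ : Fin m → V d e m → ℝ}

/-- the perturbed map -/
def Fc (F : V d e m → V d e m) (c : Fin m → ℝ) (z : V d e m) : V d e m := F z + (0, 0, c)

theorem step_eq (hA : ∀ u ∈ ZV d e m, ∃ v ∈ ZV d e m, ∀ z, F (z + u) = F z + v)
    (hF : ∀ b x y, F (b, x, y) = (H b, fun i => g i b (x i), fun i => y i + φ i (b, x, y)))
    (hφ : ∀ i b x y y', (∀ j < i, y j = y' j) → φ i (b, x, y) = φ i (b, x, y')) (c : Fin m → ℝ)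
    (i : ℕ) {z w : V d e m} (h : Eq' i z w) :
    Eq' i (Fc F c z) (Fc F c w) ∧ ∀ hi : i < m, ∃ k : ℤ,
      ((Fc F c z).2.2 ⟨i, hi⟩ - z.2.2 ⟨i, hi⟩) - ((Fc F c w).2.2 ⟨i, hi⟩ - w.2.2 ⟨i, hi⟩) = k := by
  obtain ⟨b, x, y⟩ := z
  obtain ⟨b', x', y'⟩ := w
  obtain ⟨h1, h2, h3⟩ := h
  simp only at h1 h2 h3
  classical
  let l : V d e m := (b - b', x - x', fun j => if (j : ℕ) < i then y j - y' j else 0)
  have hl : l ∈ ZV d e m := by
    refine ⟨h1, h2, fun j => ?_⟩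
    show ∃ k : ℤ, (if (j : ℕ) < i then y j - y' j else 0) = k
    split_ifs with hj
    · exact h3 j hj
    · exact ⟨0, by simp⟩
  obtain ⟨v, hv, hFv⟩ := hA l hl
  have e1 : F ((b', x', y') + l) = F (b', x', y') + v := hFv _
  have e2 : ((b', x', y') + l : V d e m) = (b, x, y' + l.2.2) := by
    refine Prod.ext ?_ (Prod.ext ?_ rfl)
    · show b' + (b - b') = b
      abel
    · show x' + (x - x') = x
      abel
  have e3 : ∀ j : Fin m, (j : ℕ) < i → (y' + l.2.2) j = y j := fun j hj => by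
    show y' j + (if (j : ℕ) < i then y j - y' j else 0) = y j
    rw [if_pos hj]; ring
  have e4 : ∀ j : Fin m, (j : ℕ) ≤ i → φ j (b, x, y' + l.2.2) = φ j (b, x, y) := fun j hj =>
    hφ j b x _ _ fun j' hj' => e3 j' (lt_of_lt_of_le hj' hj)
  rw [e2, hF, hF] at e1
  have f1 : H b = H b' + v.1 := congrArg Prod.fst e1
  have f2 : (fun i => g i b (x i)) = (fun i => g i b' (x' i)) + v.2.1 :=
    congrArg (fun z => z.2.1) e1
  have f3 : ∀ j, (y' + l.2.2) j + φ j (b, x, y' + l.2.2) = y' j + φ j (b', x', y') + v.2.2 j :=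
    fun j => congrFun (congrArg (fun z => z.2.2) e1) j
  have g1 : (Fc F c (b, x, y)).1 = H b := by
    show (F (b, x, y)).1 + 0 = _
    rw [hF, add_zero]
  have g1' : (Fc F c (b', x', y')).1 = H b' := by
    show (F (b', x', y')).1 + 0 = _
    rw [hF, add_zero]
  have g2 : (Fc F c (b, x, y)).2.1 = fun i => g i b (x i) := by
    show (F (b, x, y)).2.1 + 0 = _
    rw [hF, add_zero]
  have g2' : (Fc F c (b', x', y')).2.1 = fun i => g i b' (x' i) := by
    show (F (b', x', y')).2.1 + 0 = _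
    rw [hF, add_zero]
  have g3 : ∀ j, (Fc F c (b, x, y)).2.2 j = y j + φ j (b, x, y) + c j := fun j => by
    show ((F (b, x, y)).2.2 + c) j = _
    rw [hF]; rfl
  have g3' : ∀ j, (Fc F c (b', x', y')).2.2 j = y' j + φ j (b', x', y') + c j := fun j => by
    show ((F (b', x', y')).2.2 + c) j = _
    rw [hF]; rfl
  refine ⟨⟨?_, ?_, fun j hj => ?_⟩, fun hi => ?_⟩
  · rw [g1, g1', f1, add_sub_cancel_left]
    exact hv.1
  · rw [g2, g2', f2, add_sub_cancel_left]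
    exact hv.2.1
  · obtain ⟨k, hk⟩ := hv.2.2 j
    refine ⟨k, ?_⟩
    rw [g3, g3', ← hk]
    have := f3 j
    rw [e3 j hj, e4 j hj.le] at this
    linarith
  · obtain ⟨k, hk⟩ := hv.2.2 ⟨i, hi⟩
    refine ⟨k, ?_⟩
    rw [g3, g3', ← hk]
    have h5 := f3 ⟨i, hi⟩
    rw [e4 ⟨i, hi⟩ le_rfl] at h5
    have h6 : (y' + l.2.2) ⟨i, hi⟩ = y' ⟨i, hi⟩ := by
      show y' ⟨i, hi⟩ + (if i < i then _ else (0 : ℝ)) = _
      rw [if_neg (lt_irrefl i), add_zero]
    rw [h6] at h5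
    linarith

theorem iter_eq (hA : ∀ u ∈ ZV d e m, ∃ v ∈ ZV d e m, ∀ z, F (z + u) = F z + v)
    (hF : ∀ b x y, F (b, x, y) = (H b, fun i => g i b (x i), fun i => y i + φ i (b, x, y)))
    (hφ : ∀ i b x y y', (∀ j < i, y j = y' j) → φ i (b, x, y) = φ i (b, x, y')) (c : Fin m → ℝ)
    (i : ℕ) {z w : V d e m} (h : Eq' i z w) (t : ℕ) :
    Eq' i ((Fc F c)^[t] z) ((Fc F c)^[t] w) ∧ ∀ hi : i < m, ∃ k : ℤ,
      (((Fc F c)^[t] z).2.2 ⟨i, hi⟩ - z.2.2 ⟨i, hi⟩) -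
        (((Fc F c)^[t] w).2.2 ⟨i, hi⟩ - w.2.2 ⟨i, hi⟩) = k := by
  induction t with
  | zero => exact ⟨h, fun hi => ⟨0, by simp⟩⟩
  | succ t ih =>
    rw [Function.iterate_succ_apply', Function.iterate_succ_apply']
    obtain ⟨h1, h2⟩ := step_eq hA hF hφ c i ih.1
    refine ⟨h1, fun hi => ?_⟩
    obtain ⟨k, hk⟩ := ih.2 hi
    obtain ⟨l, hl⟩ := h2 hi
    exact ⟨k + l, by push_cast; linarith⟩

theorem mul_eq (hA : ∀ u ∈ ZV d e m, ∃ v ∈ ZV d e m, ∀ z, F (z + u) = F z + v)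
    (hF : ∀ b x y, F (b, x, y) = (H b, fun i => g i b (x i), fun i => y i + φ i (b, x, y)))
    (hφ : ∀ i b x y y', (∀ j < i, y j = y' j) → φ i (b, x, y) = φ i (b, x, y')) (c : Fin m → ℝ)
    (i : ℕ) {z : V d e m} {N : ℕ} (h : Eq' i ((Fc F c)^[N] z) z) (q : ℕ) :
    Eq' i ((Fc F c)^[N * q] z) z ∧ ∀ hi : i < m, ∃ k : ℤ,
      ((Fc F c)^[N * q] z).2.2 ⟨i, hi⟩ - z.2.2 ⟨i, hi⟩ =
        q * (((Fc F c)^[N] z).2.2 ⟨i, hi⟩ - z.2.2 ⟨i, hi⟩) + k := by
  induction q with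
  | zero => exact ⟨Eq'.refl' z, fun hi => ⟨0, by simp⟩⟩
  | succ q ih =>
    have e : (Fc F c)^[N * (q + 1)] z = (Fc F c)^[N] ((Fc F c)^[N * q] z) := by
      rw [← Function.iterate_add_apply]
      congr 1
      ring_nf
    rw [e]
    obtain ⟨h1, h2⟩ := iter_eq hA hF hφ c i ih.1 N
    refine ⟨h1.trans h, fun hi => ?_⟩
    obtain ⟨k, hk⟩ := ih.2 hi
    obtain ⟨l, hl⟩ := h2 hi
    refine ⟨k + l, ?_⟩
    push_cast
    linarith

theorem change_eq
    (hF : ∀ b x y, F (b, x, y) = (H b, fun i => g i b (x i), fun i => y i + φ i (b, x, y)))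
    (hφ : ∀ i b x y y', (∀ j < i, y j = y' j) → φ i (b, x, y) = φ i (b, x, y')) (c c' : Fin m → ℝ)
    (i : ℕ) (hi : i < m) (s : ℝ) (hc : ∀ j : Fin m, (j : ℕ) < i → c' j = c j)
    (hci : c' ⟨i, hi⟩ = c ⟨i, hi⟩ + s) (z : V d e m) (t : ℕ) :
    ((Fc F c')^[t] z).1 = ((Fc F c)^[t] z).1 ∧ ((Fc F c')^[t] z).2.1 = ((Fc F c)^[t] z).2.1 ∧
      (∀ j : Fin m, (j : ℕ) < i → ((Fc F c')^[t] z).2.2 j = ((Fc F c)^[t] z).2.2 j) ∧
      ((Fc F c')^[t] z).2.2 ⟨i, hi⟩ = ((Fc F c)^[t] z).2.2 ⟨i, hi⟩ + t * s := by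
  induction t with
  | zero => exact ⟨rfl, rfl, fun j hj => rfl, by simp⟩
  | succ t ih =>
    rw [Function.iterate_succ_apply', Function.iterate_succ_apply']
    obtain ⟨h1, h2, h3, h4⟩ := ih
    generalize (Fc F c')^[t] z = u at h1 h2 h3 h4
    generalize (Fc F c)^[t] z = w at h1 h2 h3 h4
    obtain ⟨b, x, y⟩ := u
    obtain ⟨b', x', y'⟩ := w
    simp only at h1 h2 h3 h4
    subst h1 h2
    have g3 : ∀ (c : Fin m → ℝ) (y : Fin m → ℝ) (j : Fin m),
        (Fc F c (b, x, y)).2.2 j = y j + φ j (b, x, y) + c j := fun c y j => by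
      show ((F (b, x, y)).2.2 + c) j = _
      rw [hF]; rfl
    refine ⟨?_, ?_, fun j hj => ?_, ?_⟩
    · show (F (b, x, y)).1 + 0 = (F (b, x, y')).1 + 0
      rw [hF, hF]
    · show (F (b, x, y)).2.1 + 0 = (F (b, x, y')).2.1 + 0
      rw [hF, hF]
    · rw [g3, g3, h3 j hj, hc j hj, hφ j b x y y' (fun j' hj' => h3 j' (lt_trans hj' hj))]
    · rw [g3, g3, h4, hci, hφ ⟨i, hi⟩ b x y y' (fun j' hj' => h3 j' hj')]
      push_cast
      ring

theorem levels (hA : ∀ u ∈ ZV d e m, ∃ v ∈ ZV d e m, ∀ z, F (z + u) = F z + v)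
    (hF : ∀ b x y, F (b, x, y) = (H b, fun i => g i b (x i), fun i => y i + φ i (b, x, y)))
    (hφ : ∀ i b x y y', (∀ j < i, y j = y' j) → φ i (b, x, y) = φ i (b, x, y')) (z : V d e m)
    {n : ℕ} (hn : 1 ≤ n) (h1 : (F^[n] z).1 - z.1 ∈ Zn d) (h2 : (F^[n] z).2.1 - z.2.1 ∈ Zn e)
    {η : ℝ} (hη : 0 < η) :
    ∃ c : Fin m → ℝ, (∀ j, |c j| < η) ∧ ∃ N : ℕ, 1 ≤ N ∧ (Fc F c)^[N] z - z ∈ ZV d e m := by
  have key : ∀ i ≤ m, ∃ c : Fin m → ℝ, (∀ j, |c j| < η) ∧ (∀ j : Fin m, i ≤ (j : ℕ) → c j = 0) ∧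
      ∃ N : ℕ, 1 ≤ N ∧ Eq' i ((Fc F c)^[N] z) z := by
    intro i
    induction i with
    | zero =>
      intro _
      refine ⟨0, fun j => by simpa using hη, fun j _ => rfl, n, hn, ?_⟩
      have : Fc F (0 : Fin m → ℝ) = F := by
        funext x
        show F x + (0, 0, 0) = F x
        have : ((0, 0, 0) : V d e m) = 0 := rfl
        rw [this, add_zero]
      rw [this]
      exact ⟨h1, h2, fun j hj => absurd hj (Nat.not_lt_zero _)⟩
    | succ i ih =>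
      intro hi
      have hi' : i < m := hi
      obtain ⟨c, hc, hc0, N, hN, hE⟩ := ih hi'.le
      set S := ((Fc F c)^[N] z).2.2 ⟨i, hi'⟩ - z.2.2 ⟨i, hi'⟩ with hS
      have hN0 : (0 : ℝ) < N := by exact_mod_cast hN
      obtain ⟨q, hq1, hq2⟩ := exists_rat_btwn (show S < S + N * η by nlinarith)
      classical
      set s : ℝ := (q - S) / N with hs
      have hs0 : 0 < s := div_pos (by linarith) hN0
      have hs1 : s < η := by
        rw [hs, div_lt_iff₀ hN0]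
        linarith
      set c' : Fin m → ℝ := Function.update c ⟨i, hi'⟩ s with hc'
      have hc'i : c' ⟨i, hi'⟩ = c ⟨i, hi'⟩ + s := by
        rw [hc', Function.update_self, hc0 ⟨i, hi'⟩ le_rfl, zero_add]
      have hc'j : ∀ j : Fin m, (j : ℕ) < i → c' j = c j := fun j hj => by
        rw [hc', Function.update_of_ne]
        intro h
        rw [h] at hj
        exact lt_irrefl _ hj
      obtain ⟨k1, k2, k3, k4⟩ := change_eq hF hφ c c' i hi' s hc'j hc'i z N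
      have hE' : Eq' i ((Fc F c')^[N] z) z := by
        refine ⟨?_, ?_, fun j hj => ?_⟩
        · rw [k1]; exact hE.1
        · rw [k2]; exact hE.2.1
        · rw [k3 j hj]; exact hE.2.2 j hj
      obtain ⟨m1, m2⟩ := mul_eq hA hF hφ c' i hE' q.den
      obtain ⟨k, hk⟩ := m2 hi'
      refine ⟨c', fun j => ?_, fun j hj => ?_, N * q.den, Nat.mul_pos hN q.den_pos, m1.1, m1.2.1,
        fun j hj => ?_⟩
      · by_cases h : j = ⟨i, hi'⟩
        · rw [h, hc', Function.update_self, abs_of_pos hs0]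
          exact hs1
        · rw [hc', Function.update_of_ne h]
          exact hc j
      · rw [hc', Function.update_of_ne]
        · exact hc0 j (by omega)
        · intro h
          rw [h] at hj
          simp at hj
      · rcases Nat.lt_succ_iff_lt_or_eq.mp hj with h | h
        · exact m1.2.2 j h
        · have : j = ⟨i, hi'⟩ := Fin.ext h
          rw [this, hk, k4]
          refine ⟨q.num + k, ?_⟩
          have e1 : ((Fc F c)^[N] z).2.2 ⟨i, hi'⟩ + N * s - z.2.2 ⟨i, hi'⟩ = q := by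
            have : N * s = q - S := by
              rw [hs]; field_simp
            rw [this, hS]; ring
          rw [e1]
          have e2 : (q.den : ℝ) * (q : ℝ) = q.num := by
            have := Rat.den_mul_eq_num q
            exact_mod_cast this
          rw [e2]
          push_cast
          ring
  obtain ⟨c, hc, -, N, hN, hE⟩ := key m le_rfl
  exact ⟨c, hc, N, hN, hE.1, hE.2.1, fun j => hE.2.2 j j.2⟩

end Pool.Agent.H922R3.CL
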