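import Pool.Agent.H922R3.CL.Uc
import Pool.Agent.H922R3.CL.Lv

set_option autoImplicit false

open Set Filter Topology Function

namespace Pool.Agent.H922R3.CL

/-- the orbit of `x` under the maps `γ j + a` -/
def XO (γ : ℕ → ℝ → ℝ) (x a : ℝ) : ℕ → ℝ
  | 0 => x
  | j + 1 => γ j (XO γ x a j) + a

theorem XO_cont {γ : ℕ → ℝ → ℝ} (hγ : ∀ j, Continuous (γ j)) (x : ℝ) (j : ℕ) :
    Continuous fun a => XO γ x a j := by
  induction j with
  | zero => exact continuous_const
  | succ j ih => exact ((hγ j).comp ih).add continuous_id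

/-- closing by a constant -/
theorem XO_close {γ : ℕ → ℝ → ℝ} (hγ : ∀ j, Continuous (γ j)) (hm : ∀ j, Monotone (γ j)) {η : ℝ}
    (hη : 0 ≤ η) (n : ℕ) (c : ℕ → ℝ) (hc : ∀ j < n, |γ j (c j) - c (j + 1)| ≤ η) :
    ∃ a : ℝ, |a| ≤ η ∧ XO γ (c 0) a n = c n := by
  have hup : ∀ j ≤ n, c j ≤ XO γ (c 0) η j := by
    intro j
    induction j with
    | zero => intro _; exact le_rfl
    | succ j ih =>
      intro hj
      have h1 := hm j (ih (by omega))
      have h2 := abs_le.mp (hc j (by omega))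
      show c (j + 1) ≤ γ j (XO γ (c 0) η j) + η
      linarith [h2.1]
  have hdown : ∀ j ≤ n, XO γ (c 0) (-η) j ≤ c j := by
    intro j
    induction j with
    | zero => intro _; exact le_rfl
    | succ j ih =>
      intro hj
      have h1 := hm j (ih (by omega))
      have h2 := abs_le.mp (hc j (by omega))
      show γ j (XO γ (c 0) (-η) j) + -η ≤ c (j + 1)
      linarith [h2.2]
  obtain ⟨a, ha, h1⟩ := intermediate_value_Icc (by linarith : -η ≤ η)
    (XO_cont hγ (c 0) n).continuousOn ⟨hdown n le_rfl, hup n le_rfl⟩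
  exact ⟨a, abs_le.mpr ha, h1⟩

variable {d e m : ℕ}

/-- Towers are stable under composition with translations. -/
theorem IsTower.transl {r : ℕ∞} {H : (Fin d → ℝ) → (Fin d → ℝ)} {F : V d e m ≃ V d e m}
    (hF : IsTower r H F) (u w : V d e m) :
    IsTower r (fun b => H (b - w.1) + u.1)
      (((Equiv.subRight w).trans F).trans (Equiv.addRight u)) := by
  obtain ⟨g, φ, h1, h2, h3⟩ := hF.tower
  refine ⟨hF.diffeo.transl u w, fun i b t => g i (b - w.1) (t - w.2.1 i) + u.2.1 i,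
    fun i z => -w.2.2 i + φ i (z - w) + u.2.2 i, ?_, ?_, ?_⟩
  · intro b x y
    show F ((b, x, y) - w) + u = _
    have e1 : ((b, x, y) - w : V d e m) = (b - w.1, x - w.2.1, y - w.2.2) := rfl
    rw [e1, h1]
    refine Prod.ext rfl (Prod.ext ?_ ?_)
    · rfl
    · funext i
      show (y i - w.2.2 i + φ i (b - w.1, x - w.2.1, y - w.2.2)) + u.2.2 i =
        y i + (-w.2.2 i + φ i (b - w.1, x - w.2.1, y - w.2.2) + u.2.2 i)
      ring
  · intro i b s t hst
    have := h2 i (b - w.1) (show s - w.2.1 i < t - w.2.1 i by linarith)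
    show g i (b - w.1) (s - w.2.1 i) + u.2.1 i < g i (b - w.1) (t - w.2.1 i) + u.2.1 i
    linarith
  · intro i b x y y' hy
    show -w.2.2 i + φ i (b - w.1, x - w.2.1, y - w.2.2) + u.2.2 i =
      -w.2.2 i + φ i (b - w.1, x - w.2.1, y' - w.2.2) + u.2.2 i
    rw [h3 i (b - w.1) (x - w.2.1) (y - w.2.2) (y' - w.2.2)]
    intro j hj
    show y j - w.2.2 j = y' j - w.2.2 j
    rw [hy j hj]

theorem IsDiffeoLift.latt {W : Type*} [NormedAddCommGroup W] [NormedSpace ℝ W] {Λ : AddSubgroup W}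
    {r : ℕ∞} {F : W ≃ W} (hF : IsDiffeoLift Λ r F) :
    ∀ u ∈ Λ, ∃ v ∈ Λ, ∀ z, F (z + u) = F z + v := by
  obtain ⟨A, hA⟩ := hF.equiv
  exact fun u hu => ⟨A ⟨u, hu⟩, (A ⟨u, hu⟩).2, fun z => hA z ⟨u, hu⟩⟩

/-- **Closing.** -/
theorem closing {r : ℕ∞} {H : (Fin d → ℝ) → (Fin d → ℝ)} {F : V d e m ≃ V d e m}
    (hH : PerShadow (Zn d) H) (hF : IsTower r H F) (z : V d e m)
    (hz : IsChainRec (ZV d e m) F z) {ρ : ℝ} (hρ : 0 < ρ) :
    ∃ u w : V d e m, ‖u‖ < ρ ∧ ‖w‖ < ρ ∧
      IsPer (ZV d e m) (((Equiv.subRight w).trans F).trans (Equiv.addRight u)) z := by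
  obtain ⟨g, φ, h1, h2, h3⟩ := hF.tower
  have hu := hF.diffeo.unif (ZV_near d e m)
  rw [Metric.uniformContinuous_iff] at hu
  obtain ⟨δ₂, hδ₂, hu2⟩ := hu (ρ / 4) (by linarith)
  obtain ⟨δ₃, hδ₃, hsh⟩ := hH (min δ₂ ρ) (lt_min hδ₂ hρ)
  obtain ⟨n, c, hn, hc0, hcn, hc⟩ := hz (min δ₃ (ρ / 4)) (lt_min hδ₃ (by linarith))
  -- the base
  obtain ⟨p, hp1, hp2⟩ := hsh n (fun j => (c j).1) hn (by
    show (c n).1 - (c 0).1 ∈ Zn d
    rw [hc0]; exact hcn.1) (fun j hj => by
    have e1 : (F (c j)).1 = H (c j).1 := by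
      have := h1 (c j).1 (c j).2.1 (c j).2.2
      exact congrArg Prod.fst this
    rw [← e1]
    exact (le_max_left _ _).trans_lt ((hc j hj).trans_le (min_le_left _ _)))
  simp only [hc0] at hp1
  set v : Fin d → ℝ := z.1 - p with hv
  have hvρ : ‖v‖ < ρ := by
    have := hp2 0 (Nat.zero_le _)
    simp only [Function.iterate_zero, id, hc0] at this
    rw [hv, ← dist_eq_norm, dist_comm]
    exact this.trans_le (min_le_right _ _)
  -- the circles
  have hgc : ∀ i b, Continuous (g i b) := by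
    intro i b
    have hFc : Continuous F := hF.diffeo.smooth.continuous
    have e1 : g i b = fun t => (F (b, (fun _ => t), 0)).2.1 i := by
      funext t
      rw [h1]
    rw [e1]
    have e2 : Continuous fun t : ℝ => F (b, (fun _ => t), 0) := hFc.comp
      (continuous_const.prodMk ((continuous_pi fun _ => continuous_id).prodMk continuous_const))
    exact (continuous_apply i).comp (continuous_fst.comp (continuous_snd.comp e2))
  have hcirc : ∀ i : Fin e, ∃ a : ℝ, |a| ≤ ρ / 2 ∧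
      XO (fun j => g i (H^[j] p)) (z.2.1 i) a n = (c n).2.1 i := by
    intro i
    have := XO_close (γ := fun j => g i (H^[j] p)) (fun j => hgc i _)
      (fun j => (h2 i _).monotone) (by linarith : 0 ≤ ρ / 2) n (fun j => (c j).2.1 i) (by
        intro j hj
        have a1 : dist (F (H^[j] p, (c j).2.1, (c j).2.2)) (F (c j)) < ρ / 4 := by
          apply hu2
          have a2 : dist ((H^[j] p, (c j).2.1, (c j).2.2) : V d e m) (c j) =
              max (dist (H^[j] p) (c j).1) (dist (c j).2 (c j).2) := rfl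
          rw [a2, dist_self, max_eq_left dist_nonneg]
          exact (hp2 j hj.le).trans_le (min_le_left _ _)
        have a3 : dist (F (c j)) (c (j + 1)) < ρ / 4 := (hc j hj).trans_le (min_le_right _ _)
        have a4 : dist (F (H^[j] p, (c j).2.1, (c j).2.2)) (c (j + 1)) < ρ / 2 := by
          have := dist_triangle (F (H^[j] p, (c j).2.1, (c j).2.2)) (F (c j)) (c (j + 1))
          linarith
        have a5 : dist ((F (H^[j] p, (c j).2.1, (c j).2.2)).2.1 i) ((c (j + 1)).2.1 i) ≤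
            dist (F (H^[j] p, (c j).2.1, (c j).2.2)) (c (j + 1)) :=
          (dist_le_pi_dist _ _ i).trans ((le_max_left _ _).trans (le_max_right _ _))
        rw [h1] at a5
        rw [h1] at a4
        rw [Real.dist_eq] at a5
        exact a5.trans a4.le)
    rwa [hc0] at this
  choose a ha1 ha2 using hcirc
  -- the map with closed circle levels
  let w : V d e m := (v, 0, 0)
  let u : V d e m := (v, a, 0)
  let G := ((Equiv.subRight w).trans F).trans (Equiv.addRight u)
  have hG : IsTower r (fun b => H (b - w.1) + u.1) G := hF.transl u w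
  have hG1 : ∀ x, (G x).1 = H (x.1 - v) + v := by
    intro x
    show (F (x - w)).1 + v = _
    have e1 : (x - w : V d e m) = (x.1 - v, x.2.1 - 0, x.2.2 - 0) := rfl
    rw [e1, h1]
  have hG2 : ∀ x i, (G x).2.1 i = g i (x.1 - v) (x.2.1 i) + a i := by
    intro x i
    show (F (x - w)).2.1 i + a i = _
    have e1 : (x - w : V d e m) = (x.1 - v, x.2.1 - 0, x.2.2 - 0) := rfl
    rw [e1, h1, sub_zero]
  have hit : ∀ j, (G^[j] z).1 = H^[j] p + v ∧
      ∀ i, (G^[j] z).2.1 i = XO (fun j => g i (H^[j] p)) (z.2.1 i) (a i) j := by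
    intro j
    induction j with
    | zero => exact ⟨by simp [hv], fun i => rfl⟩
    | succ j ih =>
      rw [Function.iterate_succ_apply', Function.iterate_succ_apply']
      refine ⟨?_, fun i => ?_⟩
      · rw [hG1, ih.1, add_sub_cancel_right]
      · rw [hG2, ih.1, ih.2 i, add_sub_cancel_right]
        rfl
  have hb1 : (G^[n] z).1 - z.1 ∈ Zn d := by
    rw [(hit n).1, hp1]
    have e1 : p + ((c n).1 - z.1) + v - z.1 = (c n).1 - z.1 := by rw [hv]; abel
    rw [e1]
    exact hcn.1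
  have hb2 : (G^[n] z).2.1 - z.2.1 ∈ Zn e := by
    have e1 : (G^[n] z).2.1 = (c n).2.1 := by
      funext i
      rw [(hit n).2 i, ha2 i]
    rw [e1]
    exact hcn.2.1
  obtain ⟨g', φ', k1, k2, k3⟩ := hG.tower
  obtain ⟨c', hc', N, hN, hper⟩ := levels hG.diffeo.latt k1 k3 z hn hb1 hb2 hρ
  refine ⟨(v, a, c'), w, ?_, ?_, N, hN, ?_⟩
  · rw [Prod.norm_def, Prod.norm_def]
    refine max_lt hvρ (max_lt ?_ ?_)
    · rw [pi_norm_lt_iff hρ]
      intro i
      exact (ha1 i).trans_lt (by linarith)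
    · rw [pi_norm_lt_iff hρ]
      exact hc'
  · rw [Prod.norm_def, Prod.norm_def]
    refine max_lt hvρ (max_lt ?_ ?_)
    · show ‖(0 : Fin e → ℝ)‖ < ρ
      rw [norm_zero]; exact hρ
    · show ‖(0 : Fin m → ℝ)‖ < ρ
      rw [norm_zero]; exact hρ
  · have e1 : ⇑(((Equiv.subRight w).trans F).trans (Equiv.addRight ((v, a, c') : V d e m))) =
        Fc G c' := by
      funext x
      show F (x - w) + (v, a, c') = (F (x - w) + (v, a, 0)) + (0, 0, c')
      rw [add_assoc]
      congr 1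
      refine Prod.ext ?_ (Prod.ext ?_ ?_)
      · show v = v + 0
        rw [add_zero]
      · show a = a + 0
        rw [add_zero]
      · show c' = 0 + c'
        rw [zero_add]
    rw [e1]
    exact hper

/-- The main statement. -/
theorem main {r : ℕ∞} {H : (Fin d → ℝ) → (Fin d → ℝ)} {F : V d e m ≃ V d e m}
    (hH : PerShadow (Zn d) H) (hF : IsTower r H F) (z : V d e m)
    (hz : IsChainRec (ZV d e m) F z) {k : ℕ} (hk : (k : ℕ∞) ≤ r) {ε : ℝ} (hε : 0 < ε) :
    ∃ (u w : V d e m) (G : V d e m ≃ V d e m), ‖u‖ < ε ∧ ‖w‖ < ε ∧ (∀ x, G x = F (x - w) + u) ∧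
      IsTower r (fun b => H (b - w.1) + u.1) G ∧
      (∀ j ≤ k, ∀ x, ‖iteratedFDeriv ℝ j (fun x => G x - F x) x‖ < ε) ∧
      IsPer (ZV d e m) G z := by
  obtain ⟨ρ, hρ, h1⟩ := hF.diffeo.close (ZV_near d e m) hk hε
  obtain ⟨u, w, hu, hw, hper⟩ := closing hH hF z hz (lt_min hρ hε)
  exact ⟨u, w, _, hu.trans_le (min_le_right _ _), hw.trans_le (min_le_right _ _), fun _ => rfl,
    hF.transl u w, fun j hj x => h1 u w (hu.trans_le (min_le_left _ _))
      (hw.trans_le (min_le_left _ _)) j hj x, hper⟩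

end Pool.Agent.H922R3.CL
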