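import Pool.Agent.H922R3.CL.Circ
import Pool.Agent.H922R3.CL.LvB

set_option autoImplicit false
set_option linter.unusedSectionVars false

open Set Filter Topology Function

namespace Pool.Agent.H922R3.CL.B

variable {B : Type*} [NormedAddCommGroup B] [NormedSpace ℝ B] {Λ : AddSubgroup B} {e m : ℕ}

/-- Uniform closing: nearly closed orbit segments are shadowed by periodic orbits of the map
perturbed by a small constant. -/
def UClos {W : Type*} [NormedAddCommGroup W] (Λ : AddSubgroup W) (H : W → W) : Prop :=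
  ∀ ε : ℝ, 0 < ε → ∃ δ : ℝ, 0 < δ ∧ ∀ (n : ℕ) (w k : W), 1 ≤ n → k ∈ Λ →
    dist (H^[n] w) (w + k) < δ → ∃ β p : W, ‖β‖ < ε ∧ (fun x => H x + β)^[n] p = p + k ∧
      ∀ j ≤ n, dist ((fun x => H x + β)^[j] p) (H^[j] w) < ε

/-- Towers are stable under composition with translations. -/
theorem IsTowerB.transl {r : ℕ∞} {H : B → B} {F : VB B e m ≃ VB B e m}
    (hF : IsTowerB Λ r H F) (u w : VB B e m) :
    IsTowerB Λ r (fun b => H (b - w.1) + u.1)
      (((Equiv.subRight w).trans F).trans (Equiv.addRight u)) := by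
  obtain ⟨g, φ, h1, h2, h3⟩ := hF.tower
  refine ⟨hF.diffeo.transl u w, fun i b t => g i (b - w.1) (t - w.2.1 i) + u.2.1 i,
    fun i z => -w.2.2 i + φ i (z - w) + u.2.2 i, ?_, ?_, ?_⟩
  · intro b x y
    show F ((b, x, y) - w) + u = _
    have e1 : ((b, x, y) - w : VB B e m) = (b - w.1, x - w.2.1, y - w.2.2) := rfl
    rw [e1, h1]
    refine Prod.ext rfl (Prod.ext ?_ ?_)
    · rfl
    · funext i
      show (y i - w.2.2 i + φ i (b - w.1, x - w.2.1, y - w.2.2)) + u.2.2 i =
        y i + (-w.2.2 i + φ i (b - w.1, x - w.2.1, y - w.2.2) + u.2.2 i)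
      ring
  · intro i b s t hst
    have := h2 i (b - w.1) (show s - w.2.1 i < t - w.2.1 i by linarith)
    show g i (b - w.1) (s - w.2.1 i) + u.2.1 i < g i (b - w.1) (t - w.2.1 i) + u.2.1 i
    linarith
  · intro i b x y y' hy
    show -w.2.2 i + φ i (b - w.1, x - w.2.1, y - w.2.2) + u.2.2 i =
      -w.2.2 i + φ i (b - w.1, x - w.2.1, y' - w.2.2) + u.2.2 i
    rw [h3 i (b - w.1) (x - w.2.1) (y - w.2.2) (y' - w.2.2)]
    intro j hj
    show y j - w.2.2 j = y' j - w.2.2 j
    rw [hy j hj]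

theorem ZB_near (hΛ : ∀ z : B, ∃ u ∈ Λ, ‖z - u‖ ≤ 1) (z : VB B e m) :
    ∃ u ∈ ZB Λ e m, ‖z - u‖ ≤ 1 := by
  obtain ⟨u1, h1, h1'⟩ := hΛ z.1
  obtain ⟨u2, h2, h2'⟩ := Zn_near e z.2.1
  obtain ⟨u3, h3, h3'⟩ := Zn_near m z.2.2
  refine ⟨(u1, u2, u3), ⟨h1, h2, h3⟩, ?_⟩
  rw [Prod.norm_def, Prod.norm_def]
  exact max_le h1' (max_le h2' h3')

/-- **Closing.** -/
theorem closing [ProperSpace B] (hΛ : ∀ z : B, ∃ u ∈ Λ, ‖z - u‖ ≤ 1) {r : ℕ∞} {H : B → B}
    {F : VB B e m ≃ VB B e m} (hH : UClos Λ H) (hF : IsTowerB Λ r H F) (z : VB B e m)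
    (hz : IsNonwand (ZB Λ e m) F z) {ρ : ℝ} (hρ : 0 < ρ) :
    ∃ u w : VB B e m, ‖u‖ < ρ ∧ ‖w‖ < ρ ∧
      IsPer (ZB Λ e m) (((Equiv.subRight w).trans F).trans (Equiv.addRight u)) z := by
  obtain ⟨g, φ, h1, h2, h3⟩ := hF.tower
  have hu := hF.diffeo.unif (ZB_near hΛ)
  rw [Metric.uniformContinuous_iff] at hu
  obtain ⟨δ₂, hδ₂, hu2⟩ := hu (ρ / 4) (by linarith)
  obtain ⟨δ₃, hδ₃, hsh⟩ := hH (min δ₂ (ρ / 4)) (lt_min hδ₂ (by linarith))
  obtain ⟨n, w₀, l, hn, hl, hw₀, hw₀n⟩ := hz (min (min (δ₃ / 2) δ₂) (ρ / 4))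
    (lt_min (lt_min (half_pos hδ₃) hδ₂) (by linarith))
  have q1 : dist w₀ z < δ₃ / 2 := hw₀.trans_le ((min_le_left _ _).trans (min_le_left _ _))
  have q2 : dist w₀ z < δ₂ := hw₀.trans_le ((min_le_left _ _).trans (min_le_right _ _))
  have q3 : dist w₀ z < ρ / 4 := hw₀.trans_le (min_le_right _ _)
  have q4 : dist (F^[n] w₀) (z + l) < δ₃ / 2 :=
    hw₀n.trans_le ((min_le_left _ _).trans (min_le_left _ _))
  have q5 : dist (F^[n] w₀) (z + l) < ρ / 4 := hw₀n.trans_le (min_le_right _ _)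
  have hF1 : ∀ x, (F x).1 = H x.1 := fun x => congrArg Prod.fst (h1 x.1 x.2.1 x.2.2)
  have hFit : ∀ j, (F^[j] w₀).1 = H^[j] w₀.1 := by
    intro j
    induction j with
    | zero => rfl
    | succ j ih => rw [Function.iterate_succ_apply', Function.iterate_succ_apply', hF1, ih]
  -- the base
  obtain ⟨β, p, hβ, hp1, hp2⟩ := hsh n w₀.1 l.1 hn hl.1 (by
    have a1 : dist (F^[n] w₀).1 (z + l).1 ≤ dist (F^[n] w₀) (z + l) := le_max_left _ _
    have a2 : dist w₀.1 z.1 ≤ dist w₀ z := le_max_left _ _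
    rw [hFit] at a1
    have a3 : dist (z.1 + l.1) (w₀.1 + l.1) = dist w₀.1 z.1 := by
      rw [dist_add_right, dist_comm]
    have a4 := dist_triangle (H^[n] w₀.1) (z.1 + l.1) (w₀.1 + l.1)
    have a5 : dist (H^[n] w₀.1) (z.1 + l.1) ≤ dist (F^[n] w₀) (z + l) := a1
    linarith)
  set P : ℕ → B := fun j => (fun x => H x + β)^[j] p with hP
  set v : B := z.1 - p with hv
  have hvρ : ‖v‖ < ρ / 2 := by
    have a1 := hp2 0 (Nat.zero_le _)
    simp only [Function.iterate_zero, id] at a1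
    have a2 : dist w₀.1 z.1 ≤ dist w₀ z := le_max_left _ _
    have a3 := a1.trans_le (min_le_right _ _)
    rw [hv, ← dist_eq_norm, dist_comm]
    have a4 := dist_triangle p w₀.1 z.1
    linarith
  have hβρ : ‖β‖ < ρ / 4 := hβ.trans_le (min_le_right _ _)
  -- the circles
  have hgc : ∀ i b, Continuous (g i b) := by
    intro i b
    have hFc : Continuous F := hF.diffeo.smooth.continuous
    have e1 : g i b = fun t => (F (b, (fun _ => t), 0)).2.1 i := by
      funext t
      rw [h1]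
    rw [e1]
    have e2 : Continuous fun t : ℝ => F (b, (fun _ => t), 0) := hFc.comp
      (continuous_const.prodMk ((continuous_pi fun _ => continuous_id).prodMk continuous_const))
    exact (continuous_apply i).comp (continuous_fst.comp (continuous_snd.comp e2))
  have hcirc : ∀ i : Fin e, ∃ a : ℝ, |a| ≤ ρ / 2 ∧
      XO (fun j => g i (P j)) (z.2.1 i) a n = z.2.1 i + l.2.1 i := by
    intro i
    -- the chain
    let c : ℕ → ℝ := fun j => if j = 0 then z.2.1 i else
      if j < n then (F^[j] w₀).2.1 i else z.2.1 i + l.2.1 i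
    have hc0 : c 0 = z.2.1 i := rfl
    have hcn : c n = z.2.1 i + l.2.1 i := by
      show (if n = 0 then _ else if n < n then _ else _) = _
      rw [if_neg (by omega), if_neg (lt_irrefl _)]
    have hk1 : ∀ j < n, |g i (P j) (c j) - (F^[j + 1] w₀).2.1 i| ≤ ρ / 4 := by
      intro j hj
      obtain ⟨x', hx', hx'c⟩ : ∃ x' : Fin e → ℝ, dist x' (F^[j] w₀).2.1 < δ₂ ∧ x' i = c j := by
        rcases Nat.eq_zero_or_pos j with h0 | h0
        · subst h0
          refine ⟨z.2.1, ?_, rfl⟩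
          have a2 : dist w₀.2.1 z.2.1 ≤ dist w₀ z := (le_max_left _ _).trans (le_max_right _ _)
          rw [dist_comm]
          exact a2.trans_lt q2
        · refine ⟨(F^[j] w₀).2.1, by rw [dist_self]; exact hδ₂, ?_⟩
          show _ = (if j = 0 then _ else if j < n then _ else _)
          rw [if_neg (by omega), if_pos hj]
      have a1 : dist (F (P j, x', (F^[j] w₀).2.2)) (F (F^[j] w₀)) < ρ / 4 := by
        apply hu2
        have a2 : dist ((P j, x', (F^[j] w₀).2.2) : VB B e m) (F^[j] w₀) =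
            max (dist (P j) (F^[j] w₀).1) (max (dist x' (F^[j] w₀).2.1)
              (dist (F^[j] w₀).2.2 (F^[j] w₀).2.2)) := rfl
        rw [a2, dist_self, max_eq_left (dist_nonneg : 0 ≤ dist x' (F^[j] w₀).2.1)]
        refine max_lt ?_ hx'
        rw [hFit]
        exact (hp2 j hj.le).trans_le (min_le_left _ _)
      have a5 : dist ((F (P j, x', (F^[j] w₀).2.2)).2.1 i) ((F (F^[j] w₀)).2.1 i) ≤
          dist (F (P j, x', (F^[j] w₀).2.2)) (F (F^[j] w₀)) :=
        (dist_le_pi_dist _ _ i).trans ((le_max_left _ _).trans (le_max_right _ _))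
      rw [Function.iterate_succ_apply']
      rw [Real.dist_eq] at a5
      have a6 : (F (P j, x', (F^[j] w₀).2.2)).2.1 i = g i (P j) (c j) := by
        rw [h1, ← hx'c]
      rw [a6] at a5
      exact a5.trans a1.le
    have hk2 : ∀ j < n, |(F^[j + 1] w₀).2.1 i - c (j + 1)| ≤ ρ / 4 := by
      intro j hj
      show |_ - (if j + 1 = 0 then _ else if j + 1 < n then _ else _)| ≤ _
      rw [if_neg (by omega)]
      split_ifs with h
      · rw [sub_self, abs_zero]; linarith
      · have : j + 1 = n := by omega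
        rw [this]
        have a5 : dist ((F^[n] w₀).2.1 i) ((z + l).2.1 i) ≤ dist (F^[n] w₀) (z + l) :=
          (dist_le_pi_dist _ _ i).trans ((le_max_left _ _).trans (le_max_right _ _))
        rw [Real.dist_eq] at a5
        exact a5.trans q5.le
    obtain ⟨a, ha1, ha2⟩ := XO_close (γ := fun j => g i (P j)) (fun j => hgc i _)
      (fun j => (h2 i _).monotone) (by linarith : 0 ≤ ρ / 2) n c (fun j hj => by
        have a1 := hk1 j hj
        have a2 := hk2 j hj
        have a3 := abs_add_le (g i (P j) (c j) - (F^[j + 1] w₀).2.1 i)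
          ((F^[j + 1] w₀).2.1 i - c (j + 1))
        rw [sub_add_sub_cancel] at a3
        linarith)
    exact ⟨a, ha1, by rw [← hc0, ha2, hcn, hc0]⟩
  choose a ha1 ha2 using hcirc
  -- the map with closed circle levels
  let w : VB B e m := (v, 0, 0)
  let u : VB B e m := (v + β, a, 0)
  let G := ((Equiv.subRight w).trans F).trans (Equiv.addRight u)
  have hG : IsTowerB Λ r (fun b => H (b - w.1) + u.1) G := IsTowerB.transl hF u w
  have hG1 : ∀ x, (G x).1 = H (x.1 - v) + (v + β) := by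
    intro x
    show (F (x - w)).1 + (v + β) = _
    have e1 : (x - w : VB B e m) = (x.1 - v, x.2.1 - 0, x.2.2 - 0) := rfl
    rw [e1, h1]
  have hG2 : ∀ x i, (G x).2.1 i = g i (x.1 - v) (x.2.1 i) + a i := by
    intro x i
    show (F (x - w)).2.1 i + a i = _
    have e1 : (x - w : VB B e m) = (x.1 - v, x.2.1 - 0, x.2.2 - 0) := rfl
    rw [e1, h1, sub_zero]
  have hit : ∀ j, (G^[j] z).1 = P j + v ∧
      ∀ i, (G^[j] z).2.1 i = XO (fun j => g i (P j)) (z.2.1 i) (a i) j := by
    intro j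
    induction j with
    | zero => exact ⟨by simp [hv, hP], fun i => rfl⟩
    | succ j ih =>
      rw [Function.iterate_succ_apply']
      refine ⟨?_, fun i => ?_⟩
      · rw [hG1, ih.1, add_sub_cancel_right]
        show _ = (fun x => H x + β)^[j + 1] p + v
        rw [Function.iterate_succ_apply']
        show H (P j) + (v + β) = H (P j) + β + v
        abel
      · rw [hG2, ih.1, ih.2 i, add_sub_cancel_right]
        rfl
  have hb1 : (G^[n] z).1 - z.1 ∈ Λ := by
    have e0 : P n = p + l.1 := hp1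
    rw [(hit n).1, e0]
    have e1 : p + l.1 + v - z.1 = l.1 := by rw [hv]; abel
    rw [e1]
    exact hl.1
  have hb2 : (G^[n] z).2.1 - z.2.1 ∈ Zn e := by
    have e1 : (G^[n] z).2.1 = z.2.1 + l.2.1 := by
      funext i
      rw [(hit n).2 i, ha2 i]
      rfl
    rw [e1, add_sub_cancel_left]
    exact hl.2.1
  obtain ⟨g', φ', k1, k2, k3⟩ := hG.tower
  obtain ⟨c', hc', N, hN, hper⟩ := levels hG.diffeo.latt k1 k3 z hn hb1 hb2 hρ
  refine ⟨(v + β, a, c'), w, ?_, ?_, N, hN, ?_⟩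
  · rw [Prod.norm_def, Prod.norm_def]
    refine max_lt ?_ (max_lt ?_ ?_)
    · show ‖v + β‖ < ρ
      have := norm_add_le v β
      linarith
    · rw [pi_norm_lt_iff hρ]
      intro i
      exact (ha1 i).trans_lt (by linarith)
    · rw [pi_norm_lt_iff hρ]
      exact hc'
  · rw [Prod.norm_def, Prod.norm_def]
    refine max_lt (by show ‖v‖ < ρ; linarith) (max_lt ?_ ?_)
    · show ‖(0 : Fin e → ℝ)‖ < ρ
      rw [norm_zero]; exact hρ
    · show ‖(0 : Fin m → ℝ)‖ < ρ
      rw [norm_zero]; exact hρ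
  · have e1 : ⇑(((Equiv.subRight w).trans F).trans (Equiv.addRight ((v + β, a, c') : VB B e m))) =
        Fc G c' := by
      funext x
      show F (x - w) + (v + β, a, c') = (F (x - w) + (v + β, a, 0)) + (0, 0, c')
      rw [add_assoc]
      congr 1
      refine Prod.ext ?_ (Prod.ext ?_ ?_)
      · show v + β = v + β + 0
        rw [add_zero]
      · show a = a + 0
        rw [add_zero]
      · show c' = 0 + c'
        rw [zero_add]
    rw [e1]
    exact hper

/-- The main statement. -/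
theorem main [ProperSpace B] (hΛ : ∀ z : B, ∃ u ∈ Λ, ‖z - u‖ ≤ 1) {r : ℕ∞} {H : B → B}
    {F : VB B e m ≃ VB B e m} (hH : UClos Λ H) (hF : IsTowerB Λ r H F) (z : VB B e m)
    (hz : IsNonwand (ZB Λ e m) F z) {k : ℕ} (hk : (k : ℕ∞) ≤ r) {ε : ℝ} (hε : 0 < ε) :
    ClosableB Λ r H F z k ε := by
  obtain ⟨ρ, hρ, h1⟩ := hF.diffeo.close (ZB_near hΛ) hk hε
  obtain ⟨u, w, hu, hw, hper⟩ := closing hΛ hH hF z hz (lt_min hρ hε)
  exact ⟨u, w, _, hu.trans_le (min_le_right _ _), hw.trans_le (min_le_right _ _), fun _ => rfl,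
    IsTowerB.transl hF u w, fun j hj x => h1 u w (hu.trans_le (min_le_left _ _))
      (hw.trans_le (min_le_left _ _)) j hj x, hper⟩

end Pool.Agent.H922R3.CL.B
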