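import Pool.Agent.H922R3.CL.Uc

set_option autoImplicit false

open Set Filter Topology Function

namespace Pool.Agent.H922R3.CL.B

theorem pert_cont {c : ℝ → ℝ} (hc : Continuous c) (w : ℝ) (n : ℕ) :
    Continuous fun β : ℝ => (fun x => c x + β)^[n] w := by
  induction n with
  | zero => exact continuous_const
  | succ n ih =>
    have e : (fun β : ℝ => (fun x => c x + β)^[n + 1] w) =
        fun β => c ((fun x => c x + β)^[n] w) + β := by
      funext β
      rw [Function.iterate_succ_apply']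
    rw [e]
    exact (hc.comp ih).add continuous_id

/-- closing from the left -/
theorem pert_up {c : ℝ → ℝ} (hc : Continuous c) (hm : StrictMono c) {w w' : ℝ} (h : w ≤ w') {n : ℕ}
    (hn : 1 ≤ n) : ∃ β : ℝ, 0 ≤ β ∧ β ≤ c w' - c w ∧ (fun x => c x + β)^[n] w = c^[n] w' ∧
      ∀ j ≤ n, c^[j] w ≤ (fun x => c x + β)^[j] w ∧ (fun x => c x + β)^[j] w ≤ c^[j] w' := by
  have hb : 0 ≤ c w' - c w := sub_nonneg.mpr (hm.monotone h)
  have hmi : ∀ j, c^[j] w ≤ c^[j] w' := fun j => (hm.monotone.iterate j) h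
  have h0 : (fun x => c x + 0)^[n] w ≤ c^[n] w' := by
    have : (fun x => c x + 0) = c := by funext x; simp
    rw [this]
    exact hmi n
  have h1 : c^[n] w' ≤ (fun x => c x + (c w' - c w))^[n] w := by
    have : ∀ j, c^[j + 1] w' ≤ (fun x => c x + (c w' - c w))^[j + 1] w := by
      intro j
      induction j with
      | zero =>
        show c w' ≤ c w + (c w' - c w)
        linarith
      | succ j ih =>
        rw [Function.iterate_succ_apply' c, Function.iterate_succ_apply' _ (j + 1)]
        have := hm.monotone ih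
        show c (c^[j + 1] w') ≤ c ((fun x => c x + (c w' - c w))^[j + 1] w) + (c w' - c w)
        linarith
    obtain ⟨j, rfl⟩ : ∃ j, n = j + 1 := ⟨n - 1, by omega⟩
    exact this j
  obtain ⟨β, hβ, he⟩ := intermediate_value_Icc hb (pert_cont hc w n).continuousOn ⟨h0, h1⟩
  simp only at he
  refine ⟨β, hβ.1, hβ.2, he, fun j hj => ⟨?_, ?_⟩⟩
  · clear hj
    induction j with
    | zero => exact le_rfl
    | succ j ih =>
      rw [Function.iterate_succ_apply', Function.iterate_succ_apply']
      have := hm.monotone ih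
      show c (c^[j] w) ≤ c ((fun x => c x + β)^[j] w) + β
      linarith [hβ.1]
  · by_contra hcon
    have hcon' : c^[j] w' < (fun x => c x + β)^[j] w := not_le.mp hcon
    have : ∀ i, c^[j + i] w' < (fun x => c x + β)^[j + i] w := by
      intro i
      induction i with
      | zero => exact hcon'
      | succ i ih =>
        rw [← add_assoc, Function.iterate_succ_apply' c, Function.iterate_succ_apply' _ (j + i)]
        have := hm ih
        show c (c^[j + i] w') < c ((fun x => c x + β)^[j + i] w) + β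
        linarith [hβ.1]
    have h2 := this (n - j)
    have e : j + (n - j) = n := by omega
    rw [e, he] at h2
    exact lt_irrefl _ h2

theorem neg_iter (c : ℝ → ℝ) (β : ℝ) (j : ℕ) (x : ℝ) :
    (fun x => -c (-x) + β)^[j] x = -(fun x => c x + -β)^[j] (-x) := by
  induction j with
  | zero => simp
  | succ j ih =>
    rw [Function.iterate_succ_apply', Function.iterate_succ_apply', ih]
    show -c (- -_) + β = -(c _ + -β)
    rw [neg_neg]
    ring

theorem neg_iter' (c : ℝ → ℝ) (j : ℕ) (x : ℝ) :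
    (fun x => -c (-x))^[j] x = -c^[j] (-x) := by
  induction j with
  | zero => simp
  | succ j ih =>
    rw [Function.iterate_succ_apply', Function.iterate_succ_apply', ih]
    show -c (- -_) = -c _
    rw [neg_neg]

/-- closing from the right -/
theorem pert_down {c : ℝ → ℝ} (hc : Continuous c) (hm : StrictMono c) {w w' : ℝ} (h : w' ≤ w)
    {n : ℕ} (hn : 1 ≤ n) : ∃ β : ℝ, β ≤ 0 ∧ c w' - c w ≤ β ∧
      (fun x => c x + β)^[n] w = c^[n] w' ∧
      ∀ j ≤ n, (fun x => c x + β)^[j] w ≤ c^[j] w ∧ c^[j] w' ≤ (fun x => c x + β)^[j] w := by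
  obtain ⟨β, h1, h2, h3, h4⟩ := pert_up (c := fun x => -c (-x)) (w := -w) (w' := -w')
    ((hc.comp continuous_neg).neg) (fun x y hxy => neg_lt_neg (hm (neg_lt_neg hxy)))
    (neg_le_neg h) hn
  simp only [neg_neg] at h2
  have e1 : ∀ j, (fun x => -c (-x) + β)^[j] (-w) = -(fun x => c x + -β)^[j] w := fun j => by
    rw [neg_iter, neg_neg]
  have e2 : ∀ j v, (fun x => -c (-x))^[j] (-v) = -c^[j] v := fun j v => by
    rw [neg_iter', neg_neg]
  refine ⟨-β, by linarith, by linarith, ?_, fun j hj => ?_⟩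
  · rw [e1, e2] at h3
    exact neg_injective h3
  · have := h4 j hj
    rw [e1, e2, e2] at this
    constructor <;> linarith [this.1, this.2]

/-- The closing property of circle homeomorphisms conjugate to rotations. -/
theorem circ_clos {c : ℝ → ℝ} {Ψ : ℝ ≃ₜ ℝ} {ρ : ℝ} (hΨ : StrictMono Ψ)
    (hΨ1 : ∀ x, Ψ (x + 1) = Ψ x + 1) (hc : ∀ x, c (Ψ x) = Ψ (x + ρ)) :
    ∀ ε > 0, ∃ δ > 0, ∀ (n : ℕ) (w : ℝ) (k : ℤ), 1 ≤ n → |c^[n] w - (w + k)| < δ →
      ∃ β : ℝ, |β| < ε ∧ (fun x => c x + β)^[n] w = w + k ∧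
        ∀ j ≤ n, |(fun x => c x + β)^[j] w - c^[j] w| < ε := by
  have hce : c = fun x => Ψ (Ψ.symm x + ρ) := by
    funext x
    rw [← hc, Homeomorph.apply_symm_apply]
  have hcc : Continuous c := by
    rw [hce]
    exact Ψ.continuous.comp (Ψ.symm.continuous.add continuous_const)
  have hΨs : StrictMono Ψ.symm := by
    intro x y hxy
    by_contra h
    have := hΨ.monotone (not_lt.mp h)
    rw [Homeomorph.apply_symm_apply, Homeomorph.apply_symm_apply] at this
    linarith
  have hcm : StrictMono c := by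
    rw [hce]
    intro x y hxy
    exact hΨ (by linarith [hΨs hxy])
  have hit : ∀ (j : ℕ) x, c^[j] (Ψ x) = Ψ (x + j * ρ) := by
    intro j x
    induction j with
    | zero => simp
    | succ j ih =>
      rw [Function.iterate_succ_apply', ih, hc]
      congr 1
      push_cast
      ring
  have hΨk : ∀ (k : ℤ) x, Ψ (x + k) = Ψ x + k := by
    intro k x
    induction k using Int.induction_on generalizing x with
    | zero => simp
    | succ k ih =>
      have h1 := hΨ1 (x + k)
      have h2 := ih x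
      have e1 : x + ((k : ℤ) + 1 : ℤ) = x + (k : ℤ) + 1 := by push_cast; ring
      rw [e1]
      push_cast at h1 h2 ⊢
      rw [h1, h2]
      ring
    | pred k ih =>
      have h1 := hΨ1 (x + (-(k : ℤ) - 1 : ℤ))
      have h2 := ih x
      have e1 : x + (-(k : ℤ) - 1 : ℤ) + 1 = x + (-(k : ℤ) : ℤ) := by push_cast; ring
      rw [e1, h2] at h1
      push_cast at h1 ⊢
      linarith
  let Λ : AddSubgroup ℝ := (Int.castAddHom ℝ).range
  have hΛ : ∀ z : ℝ, ∃ u ∈ Λ, ‖z - u‖ ≤ 1 := by
    intro z
    refine ⟨⌊z⌋, ⟨⌊z⌋, rfl⟩, ?_⟩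
    rw [Real.norm_eq_abs, abs_le]
    constructor <;> linarith [Int.floor_le z, Int.lt_floor_add_one z]
  have u1 : UniformContinuous Ψ := by
    apply qp_unif Λ hΛ Ψ Ψ.continuous
    rintro u ⟨k, rfl⟩
    exact ⟨k, fun z => hΨk k z⟩
  have u2 : UniformContinuous Ψ.symm := by
    apply qp_unif Λ hΛ Ψ.symm Ψ.symm.continuous
    rintro u ⟨k, rfl⟩
    refine ⟨k, fun z => ?_⟩
    rw [Homeomorph.symm_apply_eq, hΨk, Homeomorph.apply_symm_apply]
    rfl
  rw [Metric.uniformContinuous_iff] at u1 u2
  intro ε hε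
  obtain ⟨δ', hδ', h1⟩ := u1 ε hε
  obtain ⟨δ, hδ, h2⟩ := u2 δ' hδ'
  refine ⟨δ, hδ, fun n w k hn hw => ?_⟩
  set s := Ψ.symm w with hs
  have hws : Ψ s = w := by rw [hs, Homeomorph.apply_symm_apply]
  have e1 : c^[n] w = Ψ (s + n * ρ) := by rw [← hws, hit]
  have e2 : w + k = Ψ (s + k) := by rw [hΨk, hws]
  have h3 : |s + n * ρ - (s + k)| < δ' := by
    have := h2 (a := c^[n] w) (b := w + k) (by rw [Real.dist_eq]; exact hw)
    rw [e1, e2, Homeomorph.symm_apply_apply, Homeomorph.symm_apply_apply, Real.dist_eq] at this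
    exact this
  set τ := (k : ℝ) - n * ρ with hτ
  have hτδ : |τ| < δ' := by
    have : τ = -(s + n * ρ - (s + k)) := by rw [hτ]; ring
    rw [this, abs_neg]
    exact h3
  set w' := Ψ (s + τ) with hw'
  have e3 : c^[n] w' = w + k := by
    rw [hw', hit, e2]
    congr 1
    rw [hτ]
    ring
  have hclose : ∀ j : ℕ, |c^[j] w' - c^[j] w| < ε := by
    intro j
    rw [hw', ← hws, hit, hit, ← Real.dist_eq]
    apply h1
    rw [Real.dist_eq]
    have : s + τ + j * ρ - (s + j * ρ) = τ := by ring
    rw [this]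
    exact hτδ
  have hc1 := hclose 1
  simp only [Function.iterate_one] at hc1
  rcases le_total 0 τ with h0 | h0
  · have hle : w ≤ w' := by
      rw [hw', ← hws]
      exact hΨ.monotone (by linarith)
    obtain ⟨β, b1, b2, b3, b4⟩ := pert_up hcc hcm hle hn
    refine ⟨β, ?_, by rw [b3, e3], fun j hj => ?_⟩
    · rw [abs_of_nonneg b1]
      exact b2.trans_lt ((le_abs_self _).trans_lt hc1)
    · have h5 := b4 j hj
      have h6 := (le_abs_self _).trans_lt (hclose j)
      rw [abs_of_nonneg (by linarith [h5.1])]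
      linarith [h5.2]
  · have hle : w' ≤ w := by
      rw [hw', ← hws]
      exact hΨ.monotone (by linarith)
    obtain ⟨β, b1, b2, b3, b4⟩ := pert_down hcc hcm hle hn
    refine ⟨β, ?_, by rw [b3, e3], fun j hj => ?_⟩
    · rw [abs_of_nonpos b1]
      have := (neg_le_abs (c w' - c w)).trans_lt hc1
      linarith
    · have h5 := b4 j hj
      have h6 := (neg_le_abs _).trans_lt (hclose j)
      rw [abs_of_nonpos (by linarith [h5.1])]
      linarith [h5.2]

end Pool.Agent.H922R3.CL.B
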