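import Pool.Agent.H922R3.CL.Defs

/-!
# Towers over mixed bases: definitions
-/

set_option autoImplicit false

open Set Filter Topology Function

namespace Pool.Agent.H922R3.CL

/-- `B × ℝ^e × ℝ^m`. -/
abbrev VB (B : Type*) (e m : ℕ) : Type _ := B × (Fin e → ℝ) × (Fin m → ℝ)

/-- The lattice `Λ × ℤ^e × ℤ^m` of `B × ℝ^e × ℝ^m`. -/
def ZB {B : Type*} [NormedAddCommGroup B] (Λ : AddSubgroup B) (e m : ℕ) : AddSubgroup (VB B e m) :=
  Λ.prod ((Zn e).prod (Zn m))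

/-- The point of `W / Λ` represented by `z` is nonwandering for the map with lift `F`. -/
def IsNonwand {W : Type*} [NormedAddCommGroup W] (Λ : AddSubgroup W) (F : W → W) (z : W) : Prop :=
  ∀ δ : ℝ, 0 < δ → ∃ (n : ℕ) (w u : W), 1 ≤ n ∧ u ∈ Λ ∧ dist w z < δ ∧ dist (F^[n] w) (z + u) < δ

/-- The diffeomorphism with lift `F` is a tower over the map `H` of `B / Λ`:
`F (b, x, y) = (H b, (g_i (b, x_i))_{i < e}, (y_i + φ_i (b, x, y_0, …, y_{i-1}))_{i < m})`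
where the circle diffeomorphisms `g_i (b, ·)` preserve the orientation. -/
structure IsTowerB {B : Type*} [NormedAddCommGroup B] [NormedSpace ℝ B] (Λ : AddSubgroup B)
    {e m : ℕ} (r : ℕ∞) (H : B → B) (F : VB B e m ≃ VB B e m) : Prop where
  diffeo : IsDiffeoLift (ZB Λ e m) r F
  tower : ∃ (g : Fin e → B → ℝ → ℝ) (φ : Fin m → VB B e m → ℝ),
    (∀ b x y, F (b, x, y) = (H b, fun i => g i b (x i), fun i => y i + φ i (b, x, y))) ∧
    (∀ i b, StrictMono (g i b)) ∧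
    ∀ i b x y y', (∀ j < i, y j = y' j) → φ i (b, x, y) = φ i (b, x, y')

/-- `z` is made periodic by a perturbation of size `ε` by translations: there is `G = F (· - w) + u`,
again a tower, with `‖u‖, ‖w‖ < ε`, whose derivatives of order at most `k` are `ε`-close to those of
`F`, such that `z` is periodic for `G`. -/
def ClosableB {B : Type*} [NormedAddCommGroup B] [NormedSpace ℝ B] (Λ : AddSubgroup B)
    {e m : ℕ} (r : ℕ∞) (H : B → B) (F : VB B e m ≃ VB B e m) (z : VB B e m) (k : ℕ) (ε : ℝ) : Prop :=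
  ∃ (u w : VB B e m) (G : VB B e m ≃ VB B e m), ‖u‖ < ε ∧ ‖w‖ < ε ∧
    (∀ x, G x = F (x - w) + u) ∧ IsTowerB Λ r (fun b => H (b - w.1) + u.1) G ∧
    (∀ j ≤ k, ∀ x, ‖iteratedFDeriv ℝ j (fun x => G x - F x) x‖ < ε) ∧
    IsPer (ZB Λ e m) G z

/-- The map of `W / Λ` with lift `h` is conjugate to a hyperbolic automorphism by a locally Hölder
conjugacy with the lift `Φ`. -/
def HolderHyp {W : Type*} [NormedAddCommGroup W] [NormedSpace ℝ W] (Λ : AddSubgroup W)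
    (h : W → W) : Prop :=
  ∃ (L : W ≃L[ℝ] W) (Φ : W ≃ₜ W) (A : Λ ≃+ Λ) (C α : ℝ), IsHypLin L ∧ (∀ u, u ∈ Λ ↔ L u ∈ Λ) ∧
    (∀ (z : W) (u : Λ), Φ (z + u) = Φ z + A u) ∧ (∀ z, h (Φ z) = Φ (L z)) ∧
    0 < C ∧ 0 < α ∧ ∀ z w, dist z w ≤ 1 → dist (Φ z) (Φ w) ≤ C * dist z w ^ α

/-- `ω` is a Lipschitz map. -/
def IsLip {W W' : Type*} [NormedAddCommGroup W] [NormedAddCommGroup W'] (ω : W → W') : Prop :=
  ∃ K : ℝ, ∀ z w, dist (ω z) (ω w) ≤ K * dist z w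

/-- `c` is a lift of a circle homeomorphism conjugate to a rotation by an orientation preserving
homeomorphism. -/
def RotConj (c : ℝ → ℝ) : Prop :=
  ∃ (Ψ : ℝ ≃ₜ ℝ) (ρ : ℝ), StrictMono Ψ ∧ (∀ x, Ψ (x + 1) = Ψ x + 1) ∧ ∀ x, c (Ψ x) = Ψ (x + ρ)

/-- `H` is a mixed base map of `𝕋^d × 𝕋^l × 𝕋^s`: `H (b, θ, x) = (h b, θ + ω b, (c_i x_i)_i)` where
* `h` is conjugate to a hyperbolic automorphism of `𝕋^d`, by a locally Hölder conjugacy,
* `ω` is Lipschitz,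
* each `c_i` is a circle homeomorphism conjugate to a rotation. -/
def IsMixedBase {d l s : ℕ} (H : V d l s → V d l s) : Prop :=
  ∃ (h : (Fin d → ℝ) → (Fin d → ℝ)) (ω : (Fin d → ℝ) → (Fin l → ℝ)) (c : Fin s → ℝ → ℝ),
    (∀ b θ x, H (b, θ, x) = (h b, θ + ω b, fun i => c i (x i))) ∧ HolderHyp (Zn d) h ∧
    IsLip ω ∧ ∀ i, RotConj (c i)

/-- `ℝ^d × ℝ^l × ℝ^s × ℝ^e × ℝ^m`, the universal covering of the torus. -/
abbrev VM (d l s e m : ℕ) : Type := VB (V d l s) e m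

/-- The lattice of integer vectors of `ℝ^d × ℝ^l × ℝ^s × ℝ^e × ℝ^m`. -/
def ZM (d l s e m : ℕ) : AddSubgroup (VM d l s e m) := ZB (ZV d l s) e m

/-- `IsTowerB` for the torus `𝕋^d × 𝕋^l × 𝕋^s × 𝕋^e × 𝕋^m`. -/
def MixTower {d l s e m : ℕ} (r : ℕ∞) (H : V d l s → V d l s)
    (F : VM d l s e m ≃ VM d l s e m) : Prop := IsTowerB (ZV d l s) r H F

/-- `IsNonwand` for the torus `𝕋^d × 𝕋^l × 𝕋^s × 𝕋^e × 𝕋^m`. -/
def MixNonwand {d l s e m : ℕ} (F : VM d l s e m ≃ VM d l s e m) (z : VM d l s e m) : Prop :=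
  IsNonwand (ZM d l s e m) F z

/-- `ClosableB` for the torus `𝕋^d × 𝕋^l × 𝕋^s × 𝕋^e × 𝕋^m`. -/
def MixClosable {d l s e m : ℕ} (r : ℕ∞) (H : V d l s → V d l s)
    (F : VM d l s e m ≃ VM d l s e m) (z : VM d l s e m) (k : ℕ) (ε : ℝ) : Prop :=
  ClosableB (ZV d l s) r H F z k ε

end Pool.Agent.H922R3.CL
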