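import Pool.Agent.H922R3.CL.Defs

/-!
# Generic towers: definitions
-/

set_option autoImplicit false

open Set Filter Topology Function

namespace Pool.Agent.H922R3.CL

/-- The map of the torus `W / Λ` with lift `H` is topologically conjugate to the hyperbolic
automorphism `L`, by a conjugacy homotopic to the identity, with the lift `Φ`. -/
def ConjHypId {W : Type*} [NormedAddCommGroup W] [NormedSpace ℝ W] (Λ : AddSubgroup W)
    (H : W → W) : Prop :=
  ∃ (L : W ≃L[ℝ] W) (Φ : W ≃ₜ W), IsHypLin L ∧ (∀ u, u ∈ Λ ↔ L u ∈ Λ) ∧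
    (∀ (z : W) (u : Λ), Φ (z + u) = Φ z + u) ∧ ∀ z, H (Φ z) = Φ (L z)

variable {d e : ℕ}

/-- `F` is a lift of a `C^r` diffeomorphism of `𝕋^d × 𝕋^e` consisting of `e` families of circle
diffeomorphisms driven by a map conjugate to a hyperbolic automorphism of `𝕋^d`. -/
def HypTower (r : ℕ∞) (F : V d e 0 ≃ V d e 0) : Prop :=
  ∃ H : (Fin d → ℝ) → (Fin d → ℝ), IsTower r H F ∧ ConjHypId (Zn d) H

/-- `F` and `G` are `ε`-close together with their derivatives of order at most `k`. -/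
def CkNear (k : ℕ) (ε : ℝ) (F G : V d e 0 ≃ V d e 0) : Prop :=
  ∀ j ≤ k, ∀ x, ‖iteratedFDeriv ℝ j (fun x => G x - F x) x‖ < ε

/-- `F` and `G` are uniformly `ε`-close. -/
def C0Near (ε : ℝ) (F G : V d e 0 ≃ V d e 0) : Prop := ∀ x, dist (F x) (G x) < ε

end Pool.Agent.H922R3.CL
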