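import Pool.Agent.H922R3.CL.Uc

set_option autoImplicit false
set_option linter.unusedSectionVars false

open Set Filter Topology Function

namespace Pool.Agent.H922R3.CL

variable {W : Type*} [NormedAddCommGroup W] [NormedSpace ℝ W] [CompleteSpace W]

theorem iter_clm (L : W ≃L[ℝ] W) (n : ℕ) (v : W) : L^[n] v = ((L : W →L[ℝ] W) ^ n) v := by
  induction n with
  | zero => rfl
  | succ n ih =>
    rw [Function.iterate_succ_apply', ih, pow_succ']
    rfl

/-- The linear periodic equation `u (j+1) = L u j - e j` has a small solution. -/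
theorem solve_per {L : W ≃L[ℝ] W} (hL : IsHypLin L) : ∃ K > 0, ∀ (n : ℕ) [NeZero n]
    (e : ZMod n → W) (δ : ℝ), (∀ j, ‖e j‖ ≤ δ) →
    ∃ u : ZMod n → W, (∀ j, u (j + 1) = L (u j) - e j) ∧ ∀ j, ‖u j‖ ≤ K * δ := by
  obtain ⟨P, C, μ, hC, hμ, hμ1, hPP, hLP, hb⟩ := hL
  have hgeo : Summable fun n : ℕ => C * μ ^ n := (summable_geometric_of_lt_one hμ.le hμ1).mul_left C
  have hsum : ∑' n : ℕ, C * μ ^ n = C / (1 - μ) := by
    rw [tsum_mul_left, tsum_geometric_of_lt_one hμ.le hμ1]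
    rfl
  have h1μ : 0 < 1 - μ := by linarith
  refine ⟨2 * (C / (1 - μ)) , by positivity, fun n _ e δ hδ => ?_⟩
  have hδ0 : 0 ≤ δ := (norm_nonneg _).trans (hδ 0)
  have b1 : ∀ (j : ZMod n) (i : ℕ), ‖L^[i] (P (e (j - 1 - i)))‖ ≤ C * μ ^ i * δ := fun j i =>
    ((hb i _).1).trans (mul_le_mul_of_nonneg_left (hδ _) (by positivity))
  have b2 : ∀ (j : ZMod n) (i : ℕ), ‖L.symm^[i] (e (j + i) - P (e (j + i)))‖ ≤ C * μ ^ i * δ :=
    fun j i => ((hb i _).2).trans (mul_le_mul_of_nonneg_left (hδ _) (by positivity))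
  have b3 : ∀ (j : ZMod n) (i : ℕ),
      ‖L.symm^[i + 1] (e (j + i) - P (e (j + i)))‖ ≤ C * μ ^ i * δ := fun j i => by
    refine ((hb (i + 1) _).2).trans ?_
    refine mul_le_mul ?_ (hδ _) (norm_nonneg _) (by positivity)
    apply mul_le_mul_of_nonneg_left _ hC.le
    exact pow_le_pow_of_le_one hμ.le hμ1.le (Nat.le_succ i)
  have hgeoδ : Summable fun n : ℕ => C * μ ^ n * δ := hgeo.mul_right δ
  have s1 : ∀ j : ZMod n, Summable fun i : ℕ => L^[i] (P (e (j - 1 - i))) := fun j =>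
    Summable.of_norm_bounded hgeoδ (b1 j)
  have s2 : ∀ j : ZMod n, Summable fun i : ℕ => L.symm^[i] (e (j + i) - P (e (j + i))) := fun j =>
    Summable.of_norm_bounded hgeoδ (b2 j)
  have s3 : ∀ j : ZMod n, Summable fun i : ℕ => L.symm^[i + 1] (e (j + i) - P (e (j + i))) :=
    fun j => Summable.of_norm_bounded hgeoδ (b3 j)
  have hs : ∑' n : ℕ, C * μ ^ n * δ = C / (1 - μ) * δ := by rw [tsum_mul_right, hsum]
  let S : ZMod n → W := fun j => ∑' i : ℕ, L^[i] (P (e (j - 1 - i)))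
  let T : ZMod n → W := fun j => ∑' i : ℕ, L.symm^[i + 1] (e (j + i) - P (e (j + i)))
  have hS : ∀ j, S (j + 1) = P (e j) + L (S j) := by
    intro j
    show ∑' i : ℕ, L^[i] (P (e (j + 1 - 1 - i))) = _
    rw [(s1 (j + 1)).tsum_eq_zero_add]
    congr 1
    · simp
    · show _ = L (∑' i : ℕ, L^[i] (P (e (j - 1 - i))))
      rw [L.map_tsum]
      congr 1
      funext i
      have e1 : (j + 1 - 1 - ((i + 1 : ℕ) : ZMod n)) = j - 1 - i := by push_cast; ring
      rw [e1, Function.iterate_succ_apply']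
  have hT : ∀ j, L (T j) = (e j - P (e j)) + T (j + 1) := by
    intro j
    show L (∑' i : ℕ, L.symm^[i + 1] (e (j + i) - P (e (j + i)))) = _
    rw [L.map_tsum]
    have h2 : (fun i : ℕ => L (L.symm^[i + 1] (e (j + i) - P (e (j + i))))) =
        fun i : ℕ => L.symm^[i] (e (j + i) - P (e (j + i))) := by
      funext i
      rw [Function.iterate_succ_apply', L.apply_symm_apply]
    rw [h2, (s2 j).tsum_eq_zero_add]
    congr 1
    · simp
    · show _ = ∑' i : ℕ, L.symm^[i + 1] (e (j + 1 + i) - P (e (j + 1 + i)))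
      congr 1
      funext i
      have : (j + ((i + 1 : ℕ) : ZMod n)) = j + 1 + i := by push_cast; ring
      rw [this]
  refine ⟨fun j => T j - S j, fun j => ?_, fun j => ?_⟩
  · show T (j + 1) - S (j + 1) = L (T j - S j) - e j
    rw [map_sub, hT, hS]
    abel
  · have c1 : ‖S j‖ ≤ C / (1 - μ) * δ := by
      rw [← hs]
      exact tsum_of_norm_bounded hgeoδ.hasSum (b1 j)
    have c2 : ‖T j‖ ≤ C / (1 - μ) * δ := by
      rw [← hs]
      exact tsum_of_norm_bounded hgeoδ.hasSum (b3 j)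
    refine (norm_sub_le _ _).trans ?_
    linarith

/-- Periodic shadowing for hyperbolic linear maps. -/
theorem shadow_lin {L : W ≃L[ℝ] W} (hL : IsHypLin L) : ∃ K > 0, ∀ (δ : ℝ) (n : ℕ) (a : ℕ → W),
    1 ≤ n → (∀ j < n, ‖L (a j) - a (j + 1)‖ ≤ δ) →
    ∃ p, L^[n] p = p + (a n - a 0) ∧ ∀ j ≤ n, ‖L^[j] p - a j‖ ≤ K * δ := by
  obtain ⟨K, hK, h⟩ := solve_per hL
  refine ⟨K, hK, fun δ n a hn ha => ?_⟩
  have : NeZero n := ⟨by omega⟩
  obtain ⟨u, hu, hub⟩ := h n (fun j => a (j.val + 1) - L (a j.val)) δ (fun j => by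
    rw [norm_sub_rev]
    exact ha _ (ZMod.val_lt j))
  have hx : ∀ j < n, a (j + 1) + u ((j + 1 : ℕ) : ZMod n) = L (a j + u (j : ZMod n)) := by
    intro j hj
    have h1 := hu (j : ZMod n)
    rw [ZMod.val_natCast_of_lt hj] at h1
    push_cast
    rw [h1, map_add]
    abel
  have hit : ∀ j ≤ n, L^[j] (a 0 + u ((0 : ℕ) : ZMod n)) = a j + u (j : ZMod n) := by
    intro j
    induction j with
    | zero => intro _; rfl
    | succ j ih =>
      intro hj
      rw [Function.iterate_succ_apply', ih (by omega), hx j (by omega)]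
  refine ⟨a 0 + u ((0 : ℕ) : ZMod n), ?_, fun j hj => ?_⟩
  · rw [hit n le_rfl, ZMod.natCast_self, Nat.cast_zero]
    abel
  · rw [hit j hj, add_sub_cancel_left]
    exact hub _

/-- Maps conjugate to hyperbolic automorphisms have periodic shadowing. -/
theorem perShadow_of_conj [ProperSpace W] {Λ : AddSubgroup W}
    (hΛ : ∀ z : W, ∃ u ∈ Λ, ‖z - u‖ ≤ 1) {H : W → W} (hH : ConjHyp Λ H) : PerShadow Λ H := by
  obtain ⟨L, Φ, B, hL, -, hΦ, hHΦ⟩ := hH
  have u1 : UniformContinuous Φ := by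
    apply qp_unif Λ hΛ Φ Φ.continuous
    exact fun u hu => ⟨_, fun z => hΦ z ⟨u, hu⟩⟩
  have hΦs : ∀ (z : W) (u : Λ), Φ.symm (z + B u) = Φ.symm z + u := by
    intro z u
    rw [Homeomorph.symm_apply_eq, hΦ, Homeomorph.apply_symm_apply]
  have u2 : UniformContinuous Φ.symm := by
    apply qp_unif Λ hΛ Φ.symm Φ.symm.continuous
    intro u hu
    obtain ⟨u', hu'⟩ := B.surjective ⟨u, hu⟩
    refine ⟨u', fun z => ?_⟩
    rw [← hΦs, hu']
  obtain ⟨K, hK, hsh⟩ := shadow_lin hL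
  intro ε hε
  rw [Metric.uniformContinuous_iff] at u1 u2
  obtain ⟨ε', hε', h1⟩ := u1 ε hε
  obtain ⟨δ, hδ, h2⟩ := u2 (ε' / (2 * K)) (by positivity)
  refine ⟨δ, hδ, fun n c hn hcn hc => ?_⟩
  have hit : ∀ (j : ℕ) (z : W), H^[j] (Φ z) = Φ (L^[j] z) := by
    intro j z
    induction j with
    | zero => rfl
    | succ j ih => rw [Function.iterate_succ_apply', ih, hHΦ, Function.iterate_succ_apply']
  obtain ⟨p, hp1, hp2⟩ := hsh (ε' / (2 * K)) n (fun j => Φ.symm (c j)) hn (fun j hj => by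
    have e1 : L (Φ.symm (c j)) = Φ.symm (H (c j)) := by
      rw [Homeomorph.eq_symm_apply, ← hHΦ, Homeomorph.apply_symm_apply]
    rw [e1, ← dist_eq_norm]
    exact (h2 (hc j hj)).le)
  have hK2 : K * (ε' / (2 * K)) = ε' / 2 := by field_simp
  rw [hK2] at hp2
  obtain ⟨l, hl⟩ := B.surjective ⟨c n - c 0, hcn⟩
  have hl' : (B l : W) = c n - c 0 := congrArg Subtype.val hl
  have e1 : Φ.symm (c n) - Φ.symm (c 0) = l := by
    have := hΦs (c 0) l
    rw [hl'] at this
    have e2 : c 0 + (c n - c 0) = c n := by abel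
    rw [e2] at this
    rw [this]
    abel
  refine ⟨Φ p, ?_, fun j hj => ?_⟩
  · rw [hit, hp1, e1, hΦ, hl']
  · rw [hit]
    have := h1 (a := L^[j] p) (b := Φ.symm (c j)) (by
      rw [dist_eq_norm]
      exact (hp2 j hj).trans_lt (by linarith))
    rwa [Homeomorph.apply_symm_apply] at this

end Pool.Agent.H922R3.CL
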