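import Pool.Agent.H922R3.CL.DefsG
import Pool.Agent.H922R3.CL.Hyp
import Pool.Agent.H922R3.CL.Circ

set_option autoImplicit false
set_option linter.unusedSectionVars false

open Set Filter Topology Function

namespace Pool.Agent.H922R3.CL.G

section
variable {W : Type*} [NormedAddCommGroup W] [NormedSpace ℝ W] [CompleteSpace W]

/-- A hyperbolic map has no periodic vectors. -/
theorem hyp_fix {L : W ≃L[ℝ] W} (hL : IsHypLin L) {n : ℕ} (hn : 1 ≤ n) {x : W}
    (hx : L^[n] x = x) : x = 0 := by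
  obtain ⟨P, C, μ, hC, hμ, hμ1, hPP, hLP, hb⟩ := hL
  have hLPi : ∀ (m : ℕ) v, L^[m] (P v) = P (L^[m] v) := by
    intro m v
    induction m with
    | zero => rfl
    | succ m ih => rw [Function.iterate_succ_apply', ih, hLP, Function.iterate_succ_apply']
  have h1 : ∀ q : ℕ, L^[n * q] x = x := by
    intro q
    induction q with
    | zero => rfl
    | succ q ih => rw [Nat.mul_succ, Function.iterate_add_apply, hx, ih]
  have h2 : ∀ q : ℕ, L.symm^[n * q] x = x := by
    intro q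
    conv_lhs => rw [← h1 q]
    have : ∀ m : ℕ, L.symm^[m] (L^[m] x) = x := by
      intro m
      exact (Function.LeftInverse.iterate (f := L) (g := L.symm) L.symm_apply_apply m) x
    exact this _
  have hlim : Tendsto (fun q : ℕ => C * μ ^ (n * q) * ‖x‖) atTop (𝓝 0) := by
    have h3 : Tendsto (fun q : ℕ => μ ^ (n * q)) atTop (𝓝 0) :=
      (tendsto_pow_atTop_nhds_zero_of_lt_one hμ.le hμ1).comp
        (tendsto_id.const_mul_atTop' hn)
    have := (h3.const_mul C).mul_const ‖x‖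
    simpa using this
  have h4 : P x = 0 := by
    rw [← norm_le_zero_iff]
    refine ge_of_tendsto' hlim fun q => ?_
    have := (hb (n * q) x).1
    rwa [hLPi, h1] at this
  have h5 : x - P x = 0 := by
    rw [← norm_le_zero_iff]
    refine ge_of_tendsto' hlim fun q => ?_
    have := (hb (n * q) x).2
    rw [h4, sub_zero, h2] at this
    rw [h4, sub_zero]
    exact this
  rw [h4, sub_zero] at h5
  exact h5

end

theorem Zn_small {d : ℕ} {u : Fin d → ℝ} (hu : u ∈ Zn d) (h : ‖u‖ < 1) : u = 0 := by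
  funext i
  obtain ⟨k, hk⟩ := hu i
  have h1 : |u i| < 1 := lt_of_le_of_lt (norm_le_pi_norm u i) h
  rw [hk] at h1 ⊢
  have h2 : |k| < 1 := by exact_mod_cast h1
  have : k = 0 := Int.abs_lt_one_iff.mp h2
  rw [this]
  simp

/-- Persistence of periodic points. -/
theorem persist {d : ℕ} {H : (Fin d → ℝ) → (Fin d → ℝ)} (hH : ConjHypId (Zn d) H)
    {n : ℕ} (hn : 1 ≤ n) {p k : Fin d → ℝ} (hk : k ∈ Zn d) (hp : H^[n] p = p + k) {η : ℝ}
    (hη : 0 < η) : ∃ ε > 0, ∀ H' : (Fin d → ℝ) → (Fin d → ℝ), ConjHypId (Zn d) H' →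
      (∀ x, dist (H x) (H' x) < ε) → ∃ p', dist p' p < η ∧ H'^[n] p' = p' + k := by
  obtain ⟨L, Φ, hL, hLΛ, hΦ, hHΦ⟩ := hH
  obtain ⟨K, hK, hsh⟩ := shadow_lin hL
  have u1 : UniformContinuous Φ := by
    apply qp_unif (Zn d) (Zn_near d) Φ Φ.continuous
    exact fun u hu => ⟨u, fun z => hΦ z ⟨u, hu⟩⟩
  have hΦs : ∀ (z : Fin d → ℝ) (u : Zn d), Φ.symm (z + u) = Φ.symm z + u := by
    intro z u
    rw [Homeomorph.symm_apply_eq, hΦ, Homeomorph.apply_symm_apply]
  have u2 : UniformContinuous Φ.symm := by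
    apply qp_unif (Zn d) (Zn_near d) Φ.symm Φ.symm.continuous
    exact fun u hu => ⟨u, fun z => hΦs z ⟨u, hu⟩⟩
  rw [Metric.uniformContinuous_iff] at u1 u2
  obtain ⟨η', hη', h1⟩ := u1 η hη
  obtain ⟨ε, hε, h2⟩ := u2 (η' / (2 * K)) (by positivity)
  refine ⟨min ε (1 / 4), lt_min hε (by norm_num), fun H' hH' hclose => ?_⟩
  obtain ⟨L', Φ', hL', hLΛ', hΦ', hHΦ'⟩ := hH'
  have hHx : ∀ z, H z = Φ (L (Φ.symm z)) := fun z => by
    rw [← hHΦ, Homeomorph.apply_symm_apply]
  have hHx' : ∀ z, H' z = Φ' (L' (Φ'.symm z)) := fun z => by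
    rw [← hHΦ', Homeomorph.apply_symm_apply]
  have hΦs' : ∀ (z : Fin d → ℝ) (u : Zn d), Φ'.symm (z + u) = Φ'.symm z + u := by
    intro z u
    rw [Homeomorph.symm_apply_eq, hΦ', Homeomorph.apply_symm_apply]
  have hHu : ∀ z (u : Zn d), H (z + u) = H z + L u := fun z u => by
    rw [hHx, hHx, hΦs, map_add, ← hΦ (L (Φ.symm z)) ⟨L u, (hLΛ u).mp u.2⟩]
  have hHu' : ∀ z (u : Zn d), H' (z + u) = H' z + L' u := fun z u => by
    rw [hHx', hHx', hΦs', map_add, ← hΦ' (L' (Φ'.symm z)) ⟨L' u, (hLΛ' u).mp u.2⟩]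
  -- `L = L'`
  have hLL : ∀ u ∈ Zn d, L u = L' u := by
    intro u hu
    have e1 : L u - L' u = (H (0 + u) - H' (0 + u)) - (H 0 - H' 0) := by
      have a1 := hHu 0 ⟨u, hu⟩
      have a2 := hHu' 0 ⟨u, hu⟩
      simp only at a1 a2
      rw [a1, a2]
      abel
    have h3 : L u - L' u ∈ Zn d := (Zn d).sub_mem ((hLΛ u).mp hu) ((hLΛ' u).mp hu)
    have h4 : ‖L u - L' u‖ < 1 := by
      rw [e1]
      refine (norm_sub_le _ _).trans_lt ?_
      have b1 := hclose (0 + u)
      have b2 := hclose 0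
      rw [dist_eq_norm] at b1 b2
      have := min_le_right ε (1 / 4 : ℝ)
      linarith
    exact sub_eq_zero.mp (Zn_small h3 h4)
  have hLL' : ∀ x, L x = L' x := by
    intro x
    have e1 : x = ∑ i, x i • (Pi.single i (1 : ℝ) : Fin d → ℝ) := by
      funext j
      simp [Finset.sum_apply, Pi.single_apply]
    have e2 : ∀ i, (Pi.single i (1 : ℝ) : Fin d → ℝ) ∈ Zn d := fun i j => by
      by_cases h : j = i
      · subst h
        exact ⟨1, by simp⟩
      · exact ⟨0, by simp [h]⟩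
    rw [e1, map_sum, map_sum]
    refine Finset.sum_congr rfl fun i _ => ?_
    rw [map_smul, map_smul, hLL _ (e2 i)]
  have hit : ∀ (j : ℕ) z, H^[j] (Φ z) = Φ (L^[j] z) := by
    intro j z
    induction j with
    | zero => rfl
    | succ j ih => rw [Function.iterate_succ_apply', ih, hHΦ, Function.iterate_succ_apply']
  have hit' : ∀ (j : ℕ) z, H'^[j] (Φ' z) = Φ' (L^[j] z) := by
    intro j z
    induction j with
    | zero => rfl
    | succ j ih =>
      rw [Function.iterate_succ_apply', ih, hHΦ', Function.iterate_succ_apply', hLL']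
  set q := Φ.symm p with hq
  have hΦq : Φ q = p := by rw [hq, Homeomorph.apply_symm_apply]
  have hqn : L^[n] q = q + k := by
    have : Φ (L^[n] q) = Φ (q + k) := by
      rw [← hit, hΦq, hp, hΦ q ⟨k, hk⟩, hΦq]
    exact Φ.injective this
  have hper : H'^[n] (Φ' q) = Φ' q + k := by
    rw [hit', hqn, hΦ' q ⟨k, hk⟩]
  refine ⟨Φ' q, ?_, hper⟩
  obtain ⟨x, hx1, hx2⟩ := hsh (η' / (2 * K)) n (fun j => Φ.symm (H'^[j] (Φ' q))) hn
    (fun j hj => by
      have e1 : L (Φ.symm (H'^[j] (Φ' q))) = Φ.symm (H (H'^[j] (Φ' q))) := by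
        rw [Homeomorph.eq_symm_apply, ← hHΦ, Homeomorph.apply_symm_apply]
      rw [e1, ← dist_eq_norm, Function.iterate_succ_apply']
      exact (h2 ((hclose _).trans_le (min_le_left _ _))).le)
  have e2 : Φ.symm (H'^[n] (Φ' q)) - Φ.symm (H'^[0] (Φ' q)) = k := by
    rw [hper, hΦs _ ⟨k, hk⟩]
    show Φ.symm (Φ' q) + k - Φ.symm (Φ' q) = k
    abel
  rw [e2] at hx1
  have hxq : x = q := by
    have h3 : L^[n] (x - q) = x - q := by
      have : L^[n] (x - q) = L^[n] x - L^[n] q := by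
        rw [iter_clm, iter_clm, iter_clm, map_sub]
      rw [this, hx1, hqn]
      abel
    exact sub_eq_zero.mp (hyp_fix hL hn h3)
  have h4 := hx2 0 (Nat.zero_le _)
  rw [hxq] at h4
  have hK2 : K * (η' / (2 * K)) = η' / 2 := by field_simp
  rw [hK2] at h4
  have h5 := h1 (a := Φ.symm (Φ' q)) (b := q) (by
    rw [dist_comm, dist_eq_norm]
    exact h4.trans_lt (by linarith))
  rwa [Homeomorph.apply_symm_apply, hΦq] at h5

end Pool.Agent.H922R3.CL.G
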