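import Pool.Agent.H922R3.CL.G1

set_option autoImplicit false
set_option linter.unusedSectionVars false

open Set Filter Topology Function

namespace Pool.Agent.H922R3.CL.G

variable {d e : ℕ}

/-- Iterates depend continuously on the map and on the point. -/
theorem iter_close {r : ℕ∞} {F : V d e 0 ≃ V d e 0} (hF : IsDiffeoLift (ZV d e 0) r F) (n : ℕ) :
    ∀ η > 0, ∃ ε > 0, ∀ G : V d e 0 ≃ V d e 0, C0Near ε F G → ∀ z z' : V d e 0, dist z z' < ε →
      dist (F^[n] z) (G^[n] z') < η := by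
  induction n with
  | zero => exact fun η hη => ⟨η, hη, fun G _ z z' h => h⟩
  | succ n ih =>
    intro η hη
    have hu := hF.unif (ZV_near d e 0)
    rw [Metric.uniformContinuous_iff] at hu
    obtain ⟨δ, hδ, h1⟩ := hu (η / 2) (half_pos hη)
    obtain ⟨ε, hε, h2⟩ := ih δ hδ
    refine ⟨min ε (η / 2), lt_min hε (half_pos hη), fun G hG z z' hz => ?_⟩
    rw [Function.iterate_succ_apply', Function.iterate_succ_apply']
    have h3 := h2 G (fun x => (hG x).trans_le (min_le_left _ _)) z z'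
      (hz.trans_le (min_le_left _ _))
    have h4 := h1 h3
    have h5 := (hG (G^[n] z')).trans_le (min_le_right _ _)
    have h6 := dist_triangle (F (F^[n] z)) (F (G^[n] z')) (G (G^[n] z'))
    linarith

/-- Robust crossing near `z`. -/
def Crossing (F : V d e 0 → V d e 0) (ρ : ℝ) (z : V d e 0) : Prop :=
  ∃ (n : ℕ) (b : Fin d → ℝ) (l : V d e 0) (x y : Fin e → ℝ), 1 ≤ n ∧ l ∈ ZV d e 0 ∧
    dist b z.1 < ρ ∧ (∀ t : Fin e → ℝ, (F^[n] (b, t, 0)).1 = b + l.1) ∧
    ∀ i, dist (x i) (z.2.1 i) < ρ ∧ dist (y i) (z.2.1 i) < ρ ∧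
      (F^[n] (b, x, 0)).2.1 i < x i + l.2.1 i ∧ y i + l.2.1 i < (F^[n] (b, y, 0)).2.1 i

/-- Iterates of towers: the base component and the dependence of the circle components. -/
theorem tower_iter {H : (Fin d → ℝ) → (Fin d → ℝ)} {F : V d e 0 → V d e 0}
    {g : Fin e → (Fin d → ℝ) → ℝ → ℝ} {φ : Fin 0 → V d e 0 → ℝ}
    (h : ∀ b x y, F (b, x, y) = (H b, fun i => g i b (x i), fun i => y i + φ i (b, x, y)))
    (b : Fin d → ℝ) (x : Fin e → ℝ) (y : Fin 0 → ℝ) (n : ℕ) :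
    (F^[n] (b, x, y)).1 = H^[n] b ∧
      ∀ i, (F^[n] (b, x, y)).2.1 i = XO (fun j => g i (H^[j] b)) (x i) 0 n := by
  induction n with
  | zero => exact ⟨rfl, fun i => rfl⟩
  | succ n ih =>
    have h1 : ∀ z : V d e 0, (F z).1 = H z.1 := fun z => congrArg Prod.fst (h z.1 z.2.1 z.2.2)
    have h2 : ∀ (z : V d e 0) i, (F z).2.1 i = g i z.1 (z.2.1 i) := fun z i =>
      congrFun (congrArg (fun z => z.2.1) (h z.1 z.2.1 z.2.2)) i
    rw [Function.iterate_succ_apply', Function.iterate_succ_apply']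
    refine ⟨by rw [h1, ih.1], fun i => ?_⟩
    rw [h2, ih.1, ih.2 i]
    show _ = g i (H^[n] b) _ + 0
    rw [add_zero]

/-- A crossing produces periodic points for all nearby maps. -/
theorem crossing_robust {r : ℕ∞} {F : V d e 0 ≃ V d e 0} (hF : HypTower r F) {ρ : ℝ}
    {z : V d e 0} (hc : Crossing F ρ z) : ∃ ε > 0, ∀ G : V d e 0 ≃ V d e 0, HypTower r G →
      C0Near ε F G → ∃ y, IsPer (ZV d e 0) G y ∧ dist y z < ρ := by
  obtain ⟨H, hFt, hH⟩ := hF
  obtain ⟨n, b, l, x, y, hn, hl, hb, hbn, hi⟩ := hc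
  obtain ⟨g, φ, h1, h2, h3⟩ := hFt.tower
  have hbH : H^[n] b = b + l.1 := by
    rw [← (tower_iter h1 b x 0 n).1]
    exact hbn x
  -- room
  obtain ⟨η, hη, hη1, hη2⟩ : ∃ η > 0, dist b z.1 + η ≤ ρ ∧ ∀ i,
      (F^[n] (b, x, 0)).2.1 i + η ≤ x i + l.2.1 i ∧ y i + l.2.1 i + η ≤ (F^[n] (b, y, 0)).2.1 i := by
    have e1 : ∀ᶠ η : ℝ in 𝓝[>] 0, dist b z.1 + η ≤ ρ := by
      have : Iic (ρ - dist b z.1) ∈ 𝓝 (0 : ℝ) := Iic_mem_nhds (by linarith)
      filter_upwards [mem_nhdsWithin_of_mem_nhds this] with η hη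
      have : η ≤ ρ - dist b z.1 := hη
      linarith
    have e2 : ∀ᶠ η : ℝ in 𝓝[>] 0, ∀ i, (F^[n] (b, x, 0)).2.1 i + η ≤ x i + l.2.1 i ∧
        y i + l.2.1 i + η ≤ (F^[n] (b, y, 0)).2.1 i := by
      rw [eventually_all]
      intro i
      have i1 : Iic (x i + l.2.1 i - (F^[n] (b, x, 0)).2.1 i) ∈ 𝓝 (0 : ℝ) :=
        Iic_mem_nhds (by linarith [(hi i).2.2.1])
      have i2 : Iic ((F^[n] (b, y, 0)).2.1 i - (y i + l.2.1 i)) ∈ 𝓝 (0 : ℝ) :=
        Iic_mem_nhds (by linarith [(hi i).2.2.2])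
      filter_upwards [mem_nhdsWithin_of_mem_nhds i1, mem_nhdsWithin_of_mem_nhds i2] with η a1 a2
      have a1' : η ≤ x i + l.2.1 i - (F^[n] (b, x, 0)).2.1 i := a1
      have a2' : η ≤ (F^[n] (b, y, 0)).2.1 i - (y i + l.2.1 i) := a2
      constructor <;> linarith
    obtain ⟨η, ⟨a1, a2⟩, a3⟩ := ((e1.and e2).and self_mem_nhdsWithin).exists
    exact ⟨η, a3, a1, a2⟩
  obtain ⟨ε₁, hε₁, k1⟩ := iter_close hFt.diffeo n η hη
  obtain ⟨ε₂, hε₂, k2⟩ := persist hH hn hl.1 hbH (lt_min hη hε₁)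
  refine ⟨min ε₁ ε₂, lt_min hε₁ hε₂, fun G hG hGF => ?_⟩
  obtain ⟨H', hGt, hH'⟩ := hG
  obtain ⟨g', φ', m1, m2, m3⟩ := hGt.tower
  obtain ⟨p, hp1, hp2⟩ := k2 H' hH' (fun x => by
    have a1 := hGF (x, 0, 0)
    have a2 : dist (F (x, 0, 0)).1 (G (x, 0, 0)).1 ≤ dist (F (x, 0, 0)) (G (x, 0, 0)) :=
      le_max_left _ _
    rw [h1, m1] at a2
    have a3 : dist (H x) (H' x) ≤ dist (F (x, 0, 0)) (G (x, 0, 0)) := by
      rw [h1, m1]; exact le_max_left _ _
    exact a3.trans_lt (a1.trans_le (min_le_right _ _)))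
  have hclose : ∀ (t : Fin e → ℝ) i,
      |(F^[n] (b, t, 0)).2.1 i - (G^[n] (p, t, 0)).2.1 i| < η := by
    intro t i
    have a1 := k1 G (fun x => (hGF x).trans_le (min_le_left _ _)) (b, t, 0) (p, t, 0) (by
      have : dist ((b, t, 0) : V d e 0) (p, t, 0) =
        max (dist b p) (max (dist t t) (dist (0 : Fin 0 → ℝ) 0)) := rfl
      rw [this, dist_self, dist_self, max_self, max_eq_left dist_nonneg, dist_comm]
      exact hp1.trans_le (min_le_right _ _))
    have a2 : dist ((F^[n] (b, t, 0)).2.1 i) ((G^[n] (p, t, 0)).2.1 i) ≤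
        dist (F^[n] (b, t, 0)) (G^[n] (p, t, 0)) :=
      (dist_le_pi_dist _ _ i).trans ((le_max_left _ _).trans (le_max_right _ _))
    rw [Real.dist_eq] at a2
    exact a2.trans_lt a1
  -- the circle components
  have hgc : ∀ i b, Continuous (g' i b) := by
    intro i b
    have hFc : Continuous G := hGt.diffeo.smooth.continuous
    have e1 : g' i b = fun t => (G (b, (fun _ => t), 0)).2.1 i := by
      funext t
      rw [m1]
    rw [e1]
    have e2 : Continuous fun t : ℝ => G (b, (fun _ => t), 0) := hFc.comp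
      (continuous_const.prodMk ((continuous_pi fun _ => continuous_id).prodMk continuous_const))
    exact (continuous_apply i).comp (continuous_fst.comp (continuous_snd.comp e2))
  have hXc : ∀ i, Continuous fun t => XO (fun j => g' i (H'^[j] p)) t 0 n := by
    intro i
    have : ∀ m : ℕ, Continuous fun t => XO (fun j => g' i (H'^[j] p)) t 0 m := by
      intro m
      induction m with
      | zero => exact continuous_id
      | succ m ih => exact ((hgc i _).comp ih).add continuous_const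
    exact this n
  have hfix : ∀ i, ∃ t : ℝ, dist t (z.2.1 i) < ρ ∧
      XO (fun j => g' i (H'^[j] p)) t 0 n = t + l.2.1 i := by
    intro i
    obtain ⟨i1, i2, i3, i4⟩ := hi i
    have f1 := hη2 i
    have f2 := abs_lt.mp (hclose x i)
    have f3 := abs_lt.mp (hclose y i)
    rw [(tower_iter m1 p x 0 n).2 i] at f2
    rw [(tower_iter m1 p y 0 n).2 i] at f3
    have hcont : Continuous fun t => XO (fun j => g' i (H'^[j] p)) t 0 n - t :=
      (hXc i).sub continuous_id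
    have hmem : l.2.1 i ∈ (fun t => XO (fun j => g' i (H'^[j] p)) t 0 n - t) '' uIcc (x i) (y i) := by
      apply intermediate_value_uIcc hcont.continuousOn
      apply Icc_subset_uIcc
      constructor
      · show XO (fun j => g' i (H'^[j] p)) (x i) 0 n - x i ≤ l.2.1 i
        linarith [f1.1, f2.1]
      · show l.2.1 i ≤ XO (fun j => g' i (H'^[j] p)) (y i) 0 n - y i
        linarith [f1.2, f3.2]
    obtain ⟨t, ht, ht'⟩ := hmem
    simp only at ht'
    refine ⟨t, ?_, by linarith⟩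
    rw [Real.dist_eq] at i1 i2 ⊢
    rw [abs_lt] at i1 i2 ⊢
    rw [mem_uIcc] at ht
    rcases ht with ht | ht
    · constructor <;> linarith [ht.1, ht.2, i1.1, i1.2, i2.1, i2.2]
    · constructor <;> linarith [ht.1, ht.2, i1.1, i1.2, i2.1, i2.2]
  choose t ht1 ht2 using hfix
  have hρ : 0 < ρ := dist_nonneg.trans_lt hb
  refine ⟨(p, t, 0), ⟨n, hn, ?_, ?_, ?_⟩, ?_⟩
  · show (G^[n] (p, t, 0)).1 - p ∈ Zn d
    rw [(tower_iter m1 p t 0 n).1, hp2, add_sub_cancel_left]
    exact hl.1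
  · show (G^[n] (p, t, 0)).2.1 - t ∈ Zn e
    have : (G^[n] (p, t, 0)).2.1 - t = l.2.1 := by
      funext i
      rw [Pi.sub_apply, (tower_iter m1 p t 0 n).2 i, ht2]
      ring
    rw [this]
    exact hl.2.1
  · exact fun i => i.elim0
  · have e0 : dist ((p, t, 0) : V d e 0) z = max (dist p z.1) (max (dist t z.2.1)
      (dist (0 : Fin 0 → ℝ) z.2.2)) := rfl
    rw [e0]
    refine max_lt ?_ (max_lt ?_ ?_)
    · have a1 := dist_triangle p b z.1
      have a2 := hp1.trans_le (min_le_left _ _)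
      linarith
    · rw [dist_pi_lt_iff hρ]
      exact ht1
    · have : (0 : Fin 0 → ℝ) = z.2.2 := funext fun i => i.elim0
      rw [this, dist_self]
      exact hρ

end Pool.Agent.H922R3.CL.G
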