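import Pool.Agent.H922R3.CL.Uc

set_option autoImplicit false
set_option linter.unusedSectionVars false

open Set Filter Topology Function

namespace Pool.Agent.H922R3.CL.G

variable {W : Type*} [NormedAddCommGroup W] [NormedSpace ℝ W]

/-- Periodic continuous functions are bounded. -/
theorem per_bdd [ProperSpace W] {W' : Type*} [SeminormedAddCommGroup W'] {Λ : AddSubgroup W}
    (hΛ : ∀ z : W, ∃ u ∈ Λ, ‖z - u‖ ≤ 1) {Φ : W → W'} (hΦ : Continuous Φ)
    (hq : ∀ u ∈ Λ, ∀ z, Φ (z + u) = Φ z) : ∃ C : ℝ, 0 ≤ C ∧ ∀ z, ‖Φ z‖ ≤ C := by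
  have hK : IsCompact (Metric.closedBall (0 : W) 1) := isCompact_closedBall 0 1
  obtain ⟨C, hC⟩ := hK.exists_bound_of_continuousOn hΦ.continuousOn
  refine ⟨|C|, abs_nonneg C, fun z => ?_⟩
  obtain ⟨u, hu, hzu⟩ := hΛ z
  have h1 : Φ z = Φ (z - u) := by
    rw [← hq u hu (z - u), sub_add_cancel]
  rw [h1]
  exact (hC _ (by rw [mem_closedBall_zero_iff]; exact hzu)).trans (le_abs_self C)

theorem fderiv_per {W' : Type*} [NormedAddCommGroup W'] [NormedSpace ℝ W'] {χ : W → W'} {u : W}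
    (h : ∀ z, χ (z + u) = χ z) (z : W) : fderiv ℝ χ (z + u) = fderiv ℝ χ z := by
  have h1 : (fun z => χ (z + u)) = χ := funext h
  rw [← fderiv_comp_add_right, h1]

/-- Small smooth periodic perturbations of a diffeomorphism are diffeomorphisms. -/
theorem pert_equiv [ProperSpace W] [CompleteSpace W] {Λ : AddSubgroup W}
    (hΛ : ∀ z : W, ∃ u ∈ Λ, ‖z - u‖ ≤ 1) {r : ℕ∞} (hr : 1 ≤ r) {F : W ≃ W}
    (hF : IsDiffeoLift Λ r F) {ψ : W → W} (hψ : ContDiff ℝ r ψ)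
    (hper : ∀ u ∈ Λ, ∀ z, ψ (z + u) = ψ z) :
    ∃ s₀ > 0, ∀ s : ℝ, |s| ≤ s₀ → ∃ G : W ≃ W, (∀ z, G z = F z + s • ψ z) ∧
      IsDiffeoLift Λ r G ∧ ∀ z z', ‖s • ψ z - s • ψ z'‖ ≤ 1 / 2 * ‖F z - F z'‖ := by
  obtain ⟨A, hA⟩ := hF.equiv
  have hr1 : (1 : WithTop ℕ∞) ≤ (r : WithTop ℕ∞) := by exact_mod_cast hr
  have hr0 : (r : WithTop ℕ∞) ≠ 0 := fun h => by
    rw [h] at hr1
    exact absurd hr1 (by norm_num)
  let χ : W → W := ψ ∘ F.symm
  have hχ : ContDiff ℝ r χ := hψ.comp hF.smooth_symm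
  have hAs : ∀ (z : W) (u : Λ), F.symm (z + u) = F.symm z + A.symm u := by
    intro z u
    rw [Equiv.symm_apply_eq, hA, Equiv.apply_symm_apply, AddEquiv.apply_symm_apply]
  have hχper : ∀ u ∈ Λ, ∀ z, χ (z + u) = χ z := by
    intro u hu z
    show ψ (F.symm (z + u)) = ψ (F.symm z)
    rw [hAs z ⟨u, hu⟩]
    exact hper _ (A.symm ⟨u, hu⟩).2 _
  have hd : Differentiable ℝ χ := hχ.differentiable hr0
  obtain ⟨C, hC0, hC⟩ := per_bdd hΛ (hχ.continuous_fderiv hr0)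
    (fun u hu z => fderiv_per (hχper u hu) z)
  have hlip : ∀ x y, ‖χ x - χ y‖ ≤ C * ‖x - y‖ := fun x y => by
    have := Convex.norm_image_sub_le_of_norm_fderiv_le (f := χ) (s := univ) (x := y) (y := x)
      (C := C) (fun x _ => hd x) (fun x _ => hC x) convex_univ (mem_univ _) (mem_univ _)
    exact this
  refine ⟨1 / (2 * (C + 1)), by positivity, fun s hs => ?_⟩
  have hsC : |s| * C ≤ 1 / 2 := by
    have h1 : |s| * (2 * (C + 1)) ≤ 1 := by
      rwa [le_div_iff₀ (by positivity)] at hs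
    nlinarith [abs_nonneg s]
  let θ : W → W := fun x => x + s • χ x
  have hsl : ∀ x y, ‖s • χ x - s • χ y‖ ≤ 1 / 2 * ‖x - y‖ := by
    intro x y
    rw [← smul_sub, norm_smul, Real.norm_eq_abs]
    calc |s| * ‖χ x - χ y‖ ≤ |s| * (C * ‖x - y‖) :=
          mul_le_mul_of_nonneg_left (hlip x y) (abs_nonneg s)
      _ = (|s| * C) * ‖x - y‖ := by ring
      _ ≤ 1 / 2 * ‖x - y‖ := mul_le_mul_of_nonneg_right hsC (norm_nonneg _)
  have happ : ApproximatesLinearOn θ ((ContinuousLinearEquiv.refl ℝ W : W ≃L[ℝ] W) : W →L[ℝ] W)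
      univ (1 / 2 : NNReal) := by
    intro x _ y _
    have e1 : θ x - θ y - ((ContinuousLinearEquiv.refl ℝ W : W ≃L[ℝ] W) : W →L[ℝ] W) (x - y) =
        s • χ x - s • χ y := by
      show (x + s • χ x) - (y + s • χ y) - (x - y) = _
      abel
    rw [e1]
    have e2 : ((1 / 2 : NNReal) : ℝ) = 1 / 2 := by norm_num
    rw [e2]
    exact hsl x y
  have hcc : Subsingleton W ∨ (1 / 2 : NNReal) <
      ‖((ContinuousLinearEquiv.refl ℝ W : W ≃L[ℝ] W).symm : W →L[ℝ] W)‖₊⁻¹ := by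
    rcases subsingleton_or_nontrivial W with h | h
    · exact Or.inl h
    · right
      have e1 : ‖((ContinuousLinearEquiv.refl ℝ W : W ≃L[ℝ] W).symm : W →L[ℝ] W)‖₊ = 1 := by
        have : ((ContinuousLinearEquiv.refl ℝ W : W ≃L[ℝ] W).symm : W →L[ℝ] W) =
          ContinuousLinearMap.id ℝ W := rfl
        rw [this]
        exact NNReal.eq (ContinuousLinearMap.norm_id)
      rw [e1, inv_one]
      rw [div_lt_one (by norm_num)]
      norm_num
  let Θ : W ≃ₜ W := happ.toHomeomorph θ hcc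
  have hΘ : ∀ x, Θ x = x + s • χ x := fun x => rfl
  have hθs : ContDiff ℝ r Θ := by
    have : (Θ : W → W) = fun x => x + s • χ x := funext hΘ
    rw [this]
    exact contDiff_id.add (hχ.const_smul s)
  have hder : ∀ a, ∃ f' : W ≃L[ℝ] W, HasFDerivAt Θ (f' : W →L[ℝ] W) a := by
    intro a
    have h1 : ‖-(s • fderiv ℝ χ a)‖ < 1 := by
      rw [norm_neg, norm_smul, Real.norm_eq_abs]
      calc |s| * ‖fderiv ℝ χ a‖ ≤ |s| * C := mul_le_mul_of_nonneg_left (hC a) (abs_nonneg s)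
        _ ≤ 1 / 2 := hsC
        _ < 1 := by norm_num
    refine ⟨ContinuousLinearEquiv.unitsEquiv ℝ W (Units.oneSub _ h1), ?_⟩
    have e1 : ((ContinuousLinearEquiv.unitsEquiv ℝ W (Units.oneSub _ h1) : W ≃L[ℝ] W) :
        W →L[ℝ] W) = ContinuousLinearMap.id ℝ W + s • fderiv ℝ χ a := by
      ext x
      show ((1 : W →L[ℝ] W) - -(s • fderiv ℝ χ a)) x = _
      rw [sub_neg_eq_add]
      rfl
    rw [e1]
    have : (Θ : W → W) = fun x => x + s • χ x := funext hΘ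
    rw [this]
    exact (hasFDerivAt_id a).add ((hd a).hasFDerivAt.const_smul s)
  choose f' hf' using hder
  have hΘs : ContDiff ℝ r Θ.symm := Θ.contDiff_symm hf' hθs
  refine ⟨F.trans Θ.toEquiv, fun z => ?_, ⟨?_, ?_, A, fun z u => ?_⟩, fun z z' => ?_⟩
  · show F z + s • ψ (F.symm (F z)) = _
    rw [F.symm_apply_apply]
  · exact hθs.comp hF.smooth
  · exact hF.smooth_symm.comp hΘs
  · show F (z + u) + s • χ (F (z + u)) = F z + s • χ (F z) + A u
    rw [hA, hχper _ (A u).2]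
    abel
  · have := hsl (F z) (F z')
    have e1 : χ (F z) = ψ z := by
      show ψ (F.symm (F z)) = _
      rw [F.symm_apply_apply]
    have e2 : χ (F z') = ψ z' := by
      show ψ (F.symm (F z')) = _
      rw [F.symm_apply_apply]
    rwa [e1, e2] at this

end Pool.Agent.H922R3.CL.G
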