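import Pool.Agent.H922R3.CL.G2
import Pool.Agent.H922R3.CL.G3

set_option autoImplicit false
set_option linter.unusedSectionVars false

open Set Filter Topology Function

namespace Pool.Agent.H922R3.CL.G

/-- the `1`-periodic function `sin² (π t)` -/
noncomputable def q (t : ℝ) : ℝ := Real.sin (Real.pi * t) ^ 2

theorem q_smooth : ContDiff ℝ (⊤ : ℕ∞) q :=
  (Real.contDiff_sin.comp (contDiff_const.mul contDiff_id)).pow 2

theorem q_nonneg (t : ℝ) : 0 ≤ q t := sq_nonneg _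

theorem q_int (k : ℤ) : q k = 0 := by
  unfold q
  rw [mul_comm, Real.sin_int_mul_pi]
  norm_num

theorem q_add_int (t : ℝ) (k : ℤ) : q (t + k) = q t := by
  unfold q
  rw [mul_add, mul_comm Real.pi (k : ℝ), Real.sin_add_int_mul_pi, mul_pow]
  have : ((-1 : ℝ) ^ k) ^ 2 = 1 := by
    rw [← zpow_natCast, ← zpow_mul, mul_comm, zpow_mul]
    norm_num
  rw [this, one_mul]

theorem q_pos {t : ℝ} (h : ¬ ∃ k : ℤ, t = k) : 0 < q t := by
  unfold q
  have : Real.sin (Real.pi * t) ≠ 0 := by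
    intro h0
    rw [Real.sin_eq_zero_iff] at h0
    obtain ⟨n, hn⟩ := h0
    apply h
    refine ⟨n, ?_⟩
    have hpi := Real.pi_ne_zero
    have : Real.pi * t = Real.pi * n := by rw [← hn]; ring
    exact mul_left_cancel₀ hpi this
  positivity

theorem q_deriv_int (k : ℤ) : HasDerivAt q 0 k := by
  have h1 : HasDerivAt (fun t : ℝ => Real.sin (Real.pi * t)) (Real.cos (Real.pi * k) * Real.pi)
      (k : ℝ) := by
    have h := ((hasDerivAt_id' (k : ℝ)).const_mul Real.pi).sin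
    rw [mul_one] at h
    exact h
  have h2 := h1.pow 2
  have e : Real.sin (Real.pi * (k : ℝ)) = 0 := by
    rw [mul_comm, Real.sin_int_mul_pi]
  have h3 : (2 : ℕ) * Real.sin (Real.pi * (k : ℝ)) ^ (2 - 1) * (Real.cos (Real.pi * k) * Real.pi)
      = 0 := by
    rw [e]; simp
  rw [h3] at h2
  exact h2

/-- base cut-off vanishing at the points `c j` modulo `ℤ^d` -/
noncomputable def τf {d : ℕ} (J : Finset ℕ) (c : ℕ → Fin d → ℝ) (b : Fin d → ℝ) : ℝ :=
  ∏ j ∈ J, ∑ l, q (b l - c j l)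

theorem τf_smooth {d : ℕ} (J : Finset ℕ) (c : ℕ → Fin d → ℝ) : ContDiff ℝ (⊤ : ℕ∞) (τf J c) := by
  unfold τf
  apply contDiff_prod
  intro j _
  apply ContDiff.sum
  intro l _
  exact q_smooth.comp ((contDiff_apply ℝ ℝ l).sub contDiff_const)

theorem τf_per {d : ℕ} (J : Finset ℕ) (c : ℕ → Fin d → ℝ) {u : Fin d → ℝ} (hu : u ∈ Zn d)
    (b : Fin d → ℝ) : τf J c (b + u) = τf J c b := by
  unfold τf
  refine Finset.prod_congr rfl fun j _ => Finset.sum_congr rfl fun l _ => ?_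
  obtain ⟨k, hk⟩ := hu l
  rw [Pi.add_apply, hk, add_sub_right_comm, q_add_int]

theorem τf_nonneg {d : ℕ} (J : Finset ℕ) (c : ℕ → Fin d → ℝ) (b : Fin d → ℝ) : 0 ≤ τf J c b :=
  Finset.prod_nonneg fun _ _ => Finset.sum_nonneg fun _ _ => q_nonneg _

theorem τf_zero {d : ℕ} {J : Finset ℕ} {c : ℕ → Fin d → ℝ} {j : ℕ} (hj : j ∈ J) :
    τf J c (c j) = 0 := by
  unfold τf
  apply Finset.prod_eq_zero hj
  apply Finset.sum_eq_zero
  intro l _
  rw [sub_self]
  exact_mod_cast q_int 0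

theorem τf_pos {d : ℕ} {J : Finset ℕ} {c : ℕ → Fin d → ℝ} {b : Fin d → ℝ}
    (h : ∀ j ∈ J, c j - b ∉ Zn d) : 0 < τf J c b := by
  unfold τf
  apply Finset.prod_pos
  intro j hj
  have h1 := h j hj
  obtain ⟨l, hl⟩ : ∃ l, ¬ ∃ k : ℤ, (c j - b) l = k := by
    by_contra hcon
    push Not at hcon
    exact h1 fun l => by
      obtain ⟨k, hk⟩ := hcon l
      exact ⟨k, hk⟩
  apply Finset.sum_pos'
  · exact fun _ _ => q_nonneg _
  · refine ⟨l, Finset.mem_univ _, q_pos ?_⟩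
    rintro ⟨k, hk⟩
    apply hl
    refine ⟨-k, ?_⟩
    rw [Pi.sub_apply]
    push_cast
    linarith

/-- the push in the circle direction -/
noncomputable def κf (J : Finset ℕ) (c : ℕ → ℝ) (x₀ t : ℝ) : ℝ :=
  Real.sin (2 * Real.pi * (t - x₀)) * ∏ j ∈ J, q (t - c j)

theorem κf_smooth (J : Finset ℕ) (c : ℕ → ℝ) (x₀ : ℝ) : ContDiff ℝ (⊤ : ℕ∞) (κf J c x₀) := by
  unfold κf
  apply ContDiff.mul
  · exact Real.contDiff_sin.comp (contDiff_const.mul (contDiff_id.sub contDiff_const))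
  · apply contDiff_prod
    intro j _
    exact q_smooth.comp (contDiff_id.sub contDiff_const)

theorem κf_per (J : Finset ℕ) (c : ℕ → ℝ) (x₀ t : ℝ) (k : ℤ) :
    κf J c x₀ (t + k) = κf J c x₀ t := by
  unfold κf
  congr 1
  · have : 2 * Real.pi * (t + k - x₀) = 2 * Real.pi * (t - x₀) + k * (2 * Real.pi) := by ring
    rw [this, Real.sin_add_int_mul_two_pi]
  · refine Finset.prod_congr rfl fun j _ => ?_
    rw [add_sub_right_comm, q_add_int]

theorem κf_zero_of_mem {J : Finset ℕ} {c : ℕ → ℝ} {x₀ : ℝ} {j : ℕ} (hj : j ∈ J) :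
    κf J c x₀ (c j) = 0 ∧ HasDerivAt (κf J c x₀) 0 (c j) := by
  classical
  have e1 : κf J c x₀ = fun t => q (t - c j) *
      (Real.sin (2 * Real.pi * (t - x₀)) * ∏ i ∈ J.erase j, q (t - c i)) := by
    funext t
    unfold κf
    rw [← Finset.mul_prod_erase J _ hj]
    ring
  have h0 : q (c j - c j) = 0 := by rw [sub_self]; exact_mod_cast q_int 0
  have hd : Differentiable ℝ fun t : ℝ =>
      Real.sin (2 * Real.pi * (t - x₀)) * ∏ i ∈ J.erase j, q (t - c i) :=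
    (κf_smooth (J.erase j) c x₀).differentiable (by norm_num)
  refine ⟨by rw [e1]; simp only; rw [h0, zero_mul], ?_⟩
  rw [e1]
  have h1 : HasDerivAt (fun t => q (t - c j)) 0 (c j) := by
    have h2 : HasDerivAt q 0 (c j - c j) := by
      rw [sub_self]
      exact_mod_cast q_deriv_int 0
    exact h2.comp_sub_const (c j) (c j)
  have h3 := h1.mul (hd (c j)).hasDerivAt
  rw [h0, zero_mul, zero_mul, add_zero] at h3
  exact h3

theorem κf_zero_of_int {J : Finset ℕ} {c : ℕ → ℝ} {x₀ t : ℝ} {k : ℤ} (ht : t = x₀ + k) :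
    κf J c x₀ t = 0 ∧ HasDerivAt (κf J c x₀) (2 * Real.pi * ∏ j ∈ J, q (x₀ - c j)) t := by
  subst ht
  have e0 : 2 * Real.pi * (x₀ + k - x₀) = k * (2 * Real.pi) := by ring
  have es : Real.sin (2 * Real.pi * (x₀ + k - x₀)) = 0 := by
    rw [e0]
    have := Real.sin_add_int_mul_two_pi 0 k
    simpa using this
  have ec : Real.cos (2 * Real.pi * (x₀ + k - x₀)) = 1 := by
    rw [e0]
    have := Real.cos_add_int_mul_two_pi 0 k
    rw [zero_add, Real.cos_zero] at this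
    exact this
  have hprod : ∏ j ∈ J, q (x₀ + k - c j) = ∏ j ∈ J, q (x₀ - c j) := by
    refine Finset.prod_congr rfl fun j _ => ?_
    rw [add_sub_right_comm, q_add_int]
  refine ⟨by unfold κf; rw [es, zero_mul], ?_⟩
  have h1 : HasDerivAt (fun t : ℝ => Real.sin (2 * Real.pi * (t - x₀))) (2 * Real.pi)
      (x₀ + k) := by
    have h2 := (((hasDerivAt_id' (x₀ + k : ℝ)).sub_const x₀).const_mul (2 * Real.pi)).sin
    rw [ec, one_mul, mul_one] at h2
    exact h2
  have hd : Differentiable ℝ fun t : ℝ => ∏ j ∈ J, q (t - c j) := by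
    have : ContDiff ℝ (⊤ : ℕ∞) fun t : ℝ => ∏ j ∈ J, q (t - c j) := by
      apply contDiff_prod
      intro j _
      exact q_smooth.comp (contDiff_id.sub contDiff_const)
    exact this.differentiable (by norm_num)
  have h3 := h1.mul (hd (x₀ + k)).hasDerivAt
  rw [es, zero_mul, add_zero, hprod] at h3
  exact h3

/-- derivative of the composition along an orbit -/
theorem XO_deriv {γ : ℕ → ℝ → ℝ} {m : ℕ → ℝ} {x : ℝ} (n : ℕ)
    (h : ∀ j < n, HasDerivAt (γ j) (m j) (XO γ x 0 j)) :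
    HasDerivAt (fun t => XO γ t 0 n) (∏ j ∈ Finset.range n, m j) x := by
  induction n with
  | zero =>
    show HasDerivAt (fun t => t) _ x
    simpa using hasDerivAt_id' x
  | succ n ih =>
    have h1 := ih fun j hj => h j (by omega)
    have h2 := (h n (by omega)).comp x h1
    rw [Finset.prod_range_succ, mul_comm]
    exact h2.add_const 0

/-- A function with nonzero derivative at a zero changes sign. -/
theorem sign_change {f : ℝ → ℝ} {m x₀ : ℝ} (hf : HasDerivAt f m x₀) (h0 : f x₀ = 0) (hm : m ≠ 0)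
    {ρ : ℝ} (hρ : 0 < ρ) : ∃ t t', dist t x₀ < ρ ∧ dist t' x₀ < ρ ∧ f t < 0 ∧ 0 < f t' := by
  have key : ∀ {f : ℝ → ℝ} {m : ℝ}, HasDerivAt f m x₀ → f x₀ = 0 → 0 < m →
      ∃ t t', dist t x₀ < ρ ∧ dist t' x₀ < ρ ∧ f t < 0 ∧ 0 < f t' := by
    intro f m hf h0 hm
    have h1 := hasDerivAt_iff_tendsto_slope.mp hf
    have h2 := (tendsto_order.mp h1).1 0 hm
    have h3 : ∀ᶠ t in 𝓝[>] x₀, 0 < slope f x₀ t :=
      h2.filter_mono (nhdsWithin_mono _ fun t ht => ne_of_gt ht)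
    have h4 : ∀ᶠ t in 𝓝[<] x₀, 0 < slope f x₀ t :=
      h2.filter_mono (nhdsWithin_mono _ fun t ht => ne_of_lt ht)
    have h5 : ∀ᶠ t in 𝓝[>] x₀, dist t x₀ < ρ :=
      mem_nhdsWithin_of_mem_nhds (Metric.ball_mem_nhds x₀ hρ)
    have h6 : ∀ᶠ t in 𝓝[<] x₀, dist t x₀ < ρ :=
      mem_nhdsWithin_of_mem_nhds (Metric.ball_mem_nhds x₀ hρ)
    obtain ⟨t', ⟨a1, a2⟩, a3⟩ := ((h3.and h5).and self_mem_nhdsWithin).exists
    obtain ⟨t, ⟨b1, b2⟩, b3⟩ := ((h4.and h6).and self_mem_nhdsWithin).exists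
    have a3' : x₀ < t' := a3
    have b3' : t < x₀ := b3
    rw [slope_def_field, h0, sub_zero] at a1 b1
    refine ⟨t, t', b2, a2, ?_, ?_⟩
    · by_contra hcon
      have := div_nonpos_of_nonneg_of_nonpos (not_lt.mp hcon) (by linarith : t - x₀ ≤ 0)
      linarith
    · by_contra hcon
      have := div_nonpos_of_nonpos_of_nonneg (not_lt.mp hcon) (by linarith : 0 ≤ t' - x₀)
      linarith
  rcases lt_or_gt_of_ne hm with h | h
  · obtain ⟨t, t', h1, h2, h3, h4⟩ := key hf.neg (by simp [h0]) (neg_pos.mpr h)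
    simp only [Pi.neg_apply] at h3 h4
    exact ⟨t', t, h2, h1, by linarith, by linarith⟩
  · exact key hf h0 h

end Pool.Agent.H922R3.CL.G
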