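import Pool.Agent.H922R3.CL.G4

set_option autoImplicit false
set_option linter.unusedSectionVars false

open Set Filter Topology Function

namespace Pool.Agent.H922R3.CL.G

variable {d e : ℕ}

/-- At most one parameter makes the product equal to one. -/
theorem bad_subsingleton {n : ℕ} (hn : 1 ≤ n) {a c : ℕ → ℝ} (ha : ∀ j, 0 ≤ a j)
    (hc : ∀ j, 0 ≤ c j) (hc0 : 0 < c 0) :
    ({s : ℝ | 0 < s ∧ ∏ j ∈ Finset.range n, (a j + s * c j) = 1}).Subsingleton := by
  have key : ∀ s s' : ℝ, 0 < s → s < s' → ∏ j ∈ Finset.range n, (a j + s * c j) = 1 →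
      ∏ j ∈ Finset.range n, (a j + s' * c j) ≠ 1 := by
    intro s s' hs hss h1
    apply ne_of_gt
    rw [← h1]
    apply Finset.prod_lt_prod
    · intro j hj
      have h2 : 0 ≤ a j + s * c j := add_nonneg (ha j) (mul_nonneg hs.le (hc j))
      rcases h2.lt_or_eq with h3 | h3
      · exact h3
      · exfalso
        rw [Finset.prod_eq_zero hj h3.symm] at h1
        exact zero_ne_one h1
    · intro j _
      have := mul_le_mul_of_nonneg_right hss.le (hc j)
      linarith
    · refine ⟨0, Finset.mem_range.mpr hn, ?_⟩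
      have := mul_lt_mul_of_pos_right hss hc0
      linarith
  intro s hs s' hs'
  rcases lt_trichotomy s s' with h | h | h
  · exact absurd hs'.2 (key s s' hs.1 h hs.2)
  · exact h
  · exact absurd hs.2 (key s' s hs'.1 h hs'.2)

/-- Periodic points become robust after a small perturbation. -/
theorem make_crossing {r : ℕ∞} (hr : 1 ≤ r) {F : V d e 0 ≃ V d e 0} (hF : HypTower r F)
    {z : V d e 0} (hz : IsPer (ZV d e 0) F z) {ρ : ℝ} (hρ : 0 < ρ) {k : ℕ} (hk : (k : ℕ∞) ≤ r)
    {ε : ℝ} (hε : 0 < ε) : ∃ G : V d e 0 ≃ V d e 0, HypTower r G ∧ CkNear k ε F G ∧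
      Crossing G ρ z := by
  classical
  obtain ⟨H, hFt, hH⟩ := hF
  obtain ⟨g, φ, h1, h2, h3⟩ := hFt.tower
  obtain ⟨n, hn, hzn⟩ := hz
  have hF1 : ∀ z : V d e 0, (F z).1 = H z.1 := fun z => congrArg Prod.fst (h1 z.1 z.2.1 z.2.2)
  have hF2 : ∀ (z : V d e 0) i, (F z).2.1 i = g i z.1 (z.2.1 i) := fun z i =>
    congrFun (congrArg (fun z => z.2.1) (h1 z.1 z.2.1 z.2.2)) i
  set bo : ℕ → Fin d → ℝ := fun j => (F^[j] z).1 with hbo
  set xo : ℕ → Fin e → ℝ := fun j => (F^[j] z).2.1 with hxo
  -- the index sets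
  set J : Finset ℕ := (Finset.range n).filter fun j => bo j - z.1 ∉ Zn d with hJ
  set I : Fin e → Finset ℕ := fun i => (Finset.range n).filter fun j =>
    ¬ ∃ m : ℤ, xo j i - z.2.1 i = m with hI
  set τ : (Fin d → ℝ) → ℝ := τf J bo with hτ
  set κ : Fin e → ℝ → ℝ := fun i => κf (I i) (fun j => xo j i) (z.2.1 i) with hκ
  let ψ : V d e 0 → V d e 0 := fun w => (0, fun i => τ w.1 * κ i (w.2.1 i), 0)
  have hψs : ContDiff ℝ (⊤ : ℕ∞) ψ := by
    apply ContDiff.prodMk contDiff_const
    apply ContDiff.prodMk _ contDiff_const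
    rw [contDiff_pi]
    intro i
    apply ContDiff.mul
    · exact (τf_smooth J bo).comp contDiff_fst
    · exact (κf_smooth _ _ _).comp ((contDiff_apply ℝ ℝ i).comp (contDiff_fst.comp contDiff_snd))
  have hψper : ∀ u ∈ ZV d e 0, ∀ w, ψ (w + u) = ψ w := by
    intro u hu w
    refine Prod.ext rfl (Prod.ext ?_ rfl)
    funext i
    show τ (w.1 + u.1) * κ i (w.2.1 i + u.2.1 i) = τ w.1 * κ i (w.2.1 i)
    obtain ⟨m, hm⟩ := hu.2.1 i
    rw [hm, hτ, τf_per J bo hu.1, hκ]
    simp only
    rw [κf_per]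
  have hψr : ContDiff ℝ r ψ := hψs.of_le (by exact_mod_cast le_top)
  obtain ⟨s₀, hs₀, hpert⟩ := pert_equiv (ZV_near d e 0) hr hFt.diffeo hψr hψper
  -- values along the orbit
  have hκ0 : ∀ j < n, ∀ i, κ i (xo j i) = 0 ∧ HasDerivAt (κ i)
      (if ∃ m : ℤ, xo j i - z.2.1 i = m then
        2 * Real.pi * ∏ l ∈ I i, q (z.2.1 i - xo l i) else 0) (xo j i) := by
    intro j hj i
    split_ifs with h
    · obtain ⟨m, hm⟩ := h
      exact κf_zero_of_int (k := m) (by linarith)
    · have hmem : j ∈ I i := Finset.mem_filter.mpr ⟨Finset.mem_range.mpr hj, h⟩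
      exact κf_zero_of_mem hmem
  have hψ0 : ∀ j < n, ψ (F^[j] z) = 0 := by
    intro j hj
    refine Prod.ext rfl (Prod.ext ?_ rfl)
    funext i
    show τ (bo j) * κ i (xo j i) = 0
    rw [(hκ0 j hj i).1, mul_zero]
  -- derivatives of the fibre maps
  have hg : ∀ i b, Differentiable ℝ (g i b) := by
    intro i b
    have hr0 : ((r : ℕ∞) : WithTop ℕ∞) ≠ 0 := fun h => by
      have hr1 : (1 : WithTop ℕ∞) ≤ (r : WithTop ℕ∞) := by exact_mod_cast hr
      rw [h] at hr1
      exact absurd hr1 (by norm_num)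
    have hFd : Differentiable ℝ F := hFt.diffeo.smooth.differentiable hr0
    have e1 : g i b = fun t => (F (b, (fun _ => t), 0)).2.1 i := by
      funext t
      rw [h1]
    rw [e1]
    have e2 : Differentiable ℝ fun t : ℝ => F (b, (fun _ => t), 0) := by
      apply hFd.comp
      apply Differentiable.prodMk (differentiable_const _)
      apply Differentiable.prodMk _ (differentiable_const _)
      exact differentiable_pi.mpr fun _ => differentiable_id
    exact (differentiable_pi.mp (e2.snd.fst)) i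
  set a : Fin e → ℕ → ℝ := fun i j => deriv (g i (bo j)) (xo j i) with ha
  have ha0 : ∀ i j, 0 ≤ a i j := fun i j => (h2 i (bo j)).monotone.deriv_nonneg
  set c : Fin e → ℕ → ℝ := fun i j => τ (bo j) * (if ∃ m : ℤ, xo j i - z.2.1 i = m then
        2 * Real.pi * ∏ l ∈ I i, q (z.2.1 i - xo l i) else 0) with hc
  have hqprod : ∀ i, 0 < ∏ l ∈ I i, q (z.2.1 i - xo l i) := by
    intro i
    apply Finset.prod_pos
    intro l hl
    apply q_pos
    rintro ⟨m, hm⟩
    exact (Finset.mem_filter.mp hl).2 ⟨-m, by push_cast; linarith⟩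
  have hc0 : ∀ i j, 0 ≤ c i j := by
    intro i j
    apply mul_nonneg (τf_nonneg _ _ _)
    split_ifs
    · have := hqprod i
      positivity
    · exact le_rfl
  have hc00 : ∀ i, 0 < c i 0 := by
    intro i
    apply mul_pos
    · apply τf_pos
      intro j hj
      exact (Finset.mem_filter.mp hj).2
    · rw [if_pos ⟨0, by simp [hxo]⟩]
      have := hqprod i
      positivity
  -- the size of the perturbation
  have hbound : ∀ j : ℕ, ∃ C : ℝ, 0 ≤ C ∧ ∀ x, ‖iteratedFDeriv ℝ j ψ x‖ ≤ C := by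
    intro j
    apply per_bdd (ZV_near d e 0) (hψs.continuous_iteratedFDeriv (by exact_mod_cast le_top))
    intro u hu w
    have e1 : (fun w => ψ (w + u)) = ψ := funext (hψper u hu)
    rw [← iteratedFDeriv_comp_add_right, e1]
  choose C hC0 hC using hbound
  obtain ⟨s, hs0, hs1, hs2, hs3⟩ : ∃ s : ℝ, 0 < s ∧ s ≤ s₀ ∧ (∀ j ≤ k, s * C j < ε) ∧
      ∀ i, ∏ j ∈ Finset.range n, (a i j + s * c i j) ≠ 1 := by
    have e1 : ∀ᶠ s : ℝ in 𝓝[>] 0, s ≤ s₀ := by
      have : Iic s₀ ∈ 𝓝 (0 : ℝ) := Iic_mem_nhds hs₀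
      exact mem_nhdsWithin_of_mem_nhds this
    have e2 : ∀ᶠ s : ℝ in 𝓝[>] 0, ∀ j ∈ Finset.range (k + 1), s * C j < ε := by
      rw [Filter.eventually_all_finset]
      intro j _
      have h5 : Tendsto (fun s : ℝ => s * C j) (𝓝 0) (𝓝 0) := by
        have := (tendsto_id (x := 𝓝 (0 : ℝ))).mul_const (C j)
        simpa using this
      exact ((tendsto_order.mp h5).2 ε hε).filter_mono nhdsWithin_le_nhds
    have hfin : (⋃ i, {s : ℝ | 0 < s ∧ ∏ j ∈ Finset.range n, (a i j + s * c i j) = 1}).Finite :=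
      Set.finite_iUnion fun i => (bad_subsingleton hn (ha0 i) (hc0 i) (hc00 i)).finite
    have e3 : ∀ᶠ s : ℝ in 𝓝[>] 0,
        s ∉ (⋃ i, {s : ℝ | 0 < s ∧ ∏ j ∈ Finset.range n, (a i j + s * c i j) = 1}) := by
      have h6 : (⋃ i, {s : ℝ | 0 < s ∧ ∏ j ∈ Finset.range n, (a i j + s * c i j) = 1})ᶜ ∈
          𝓝 (0 : ℝ) := by
        apply hfin.isClosed.isOpen_compl.mem_nhds
        intro h0
        rw [Set.mem_iUnion] at h0
        obtain ⟨i, hi⟩ := h0
        exact lt_irrefl _ hi.1
      exact mem_nhdsWithin_of_mem_nhds h6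
    obtain ⟨s, ⟨⟨a1, a2⟩, a3⟩, a4⟩ := (((e1.and e2).and e3).and self_mem_nhdsWithin).exists
    have a4' : 0 < s := a4
    refine ⟨s, a4', a1, fun j hj => a2 j (Finset.mem_range.mpr (by omega)), fun i hi => ?_⟩
    exact a3 (Set.mem_iUnion.mpr ⟨i, a4', hi⟩)
  obtain ⟨G, hG, hGd, hGl⟩ := hpert s (by rw [abs_of_pos hs0]; exact hs1)
  set g' : Fin e → (Fin d → ℝ) → ℝ → ℝ := fun i b t => g i b t + s * (τ b * κ i t) with hg'
  have hGt : IsTower r H G := by
    refine ⟨hGd, g', φ, ?_, ?_, h3⟩
    · intro b x y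
      rw [hG, h1]
      refine Prod.ext ?_ (Prod.ext ?_ ?_)
      · show H b + s • (0 : Fin d → ℝ) = H b
        rw [smul_zero, add_zero]
      · funext i
        show g i b (x i) + s • (τ b * κ i (x i)) = g i b (x i) + s * (τ b * κ i (x i))
        rw [smul_eq_mul]
      · funext i
        exact i.elim0
    · intro i b t t' htt
      let w : V d e 0 := (b, fun _ => t, 0)
      let w' : V d e 0 := (b, Function.update (fun _ => t) i t', 0)
      have a1 := hGl w' w
      have a2 : ‖F w' - F w‖ ≤ g i b t' - g i b t := by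
        have hpos : 0 ≤ g i b t' - g i b t := sub_nonneg.mpr (h2 i b htt).le
        rw [h1, h1]
        rw [Prod.norm_def, Prod.norm_def]
        refine max_le ?_ (max_le ?_ ?_)
        · show ‖H b - H b‖ ≤ _
          rw [sub_self, norm_zero]; exact hpos
        · rw [pi_norm_le_iff_of_nonneg hpos]
          intro l
          show ‖g l b (Function.update (fun _ => t) i t' l) - g l b t‖ ≤ _
          by_cases hl : l = i
          · subst hl
            rw [Function.update_self, Real.norm_eq_abs, abs_of_nonneg hpos]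
          · rw [Function.update_of_ne hl, sub_self, norm_zero]; exact hpos
        · rw [pi_norm_le_iff_of_nonneg hpos]
          intro l
          exact l.elim0
      have a3 : |s * (τ b * κ i t') - s * (τ b * κ i t)| ≤ ‖s • ψ w' - s • ψ w‖ := by
        have b1 : ‖(s • ψ w' - s • ψ w).2.1 i‖ ≤ ‖s • ψ w' - s • ψ w‖ :=
          (norm_le_pi_norm _ i).trans ((norm_fst_le _).trans (norm_snd_le _))
        have b2 : (s • ψ w' - s • ψ w).2.1 i = s * (τ b * κ i t') - s * (τ b * κ i t) := by
          show s • (τ b * κ i (Function.update (fun _ => t) i t' i)) - s • (τ b * κ i t) = _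
          rw [Function.update_self, smul_eq_mul, smul_eq_mul]
        rw [b2] at b1
        exact b1
      have a4 := (abs_le.mp (a3.trans a1)).1
      have a5 : g i b t < g i b t' := h2 i b htt
      show g i b t + s * (τ b * κ i t) < g i b t' + s * (τ b * κ i t')
      linarith
  refine ⟨G, ⟨H, hGt, hH⟩, fun j hj x => ?_, ?_⟩
  · have e1 : (fun x => G x - F x) = s • ψ := by
      funext x
      rw [hG, add_sub_cancel_left]
      rfl
    rw [e1, iteratedFDeriv_const_smul_apply (hψs.contDiffAt.of_le (by exact_mod_cast le_top)),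
      norm_smul, Real.norm_eq_abs, abs_of_pos hs0]
    exact (mul_le_mul_of_nonneg_left (hC j x) hs0.le).trans_lt (hs2 j hj)
  · -- the orbit
    have horb : ∀ j ≤ n, G^[j] z = F^[j] z := by
      intro j
      induction j with
      | zero => intro _; rfl
      | succ j ih =>
        intro hj
        rw [Function.iterate_succ_apply', Function.iterate_succ_apply', ih (by omega), hG,
          hψ0 j (by omega), smul_zero, add_zero]
    obtain ⟨m1, m2, m3⟩ : (∀ b x y, G (b, x, y) = (H b, fun i => g' i b (x i),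
        fun i => y i + φ i (b, x, y))) ∧ True ∧ True := by
      refine ⟨?_, trivial, trivial⟩
      intro b x y
      rw [hG, h1]
      refine Prod.ext ?_ (Prod.ext ?_ ?_)
      · show H b + s • (0 : Fin d → ℝ) = H b
        rw [smul_zero, add_zero]
      · funext i
        show g i b (x i) + s • (τ b * κ i (x i)) = g i b (x i) + s * (τ b * κ i (x i))
        rw [smul_eq_mul]
      · funext i
        exact i.elim0
    have hz0 : z = (z.1, z.2.1, 0) := by
      refine Prod.ext rfl (Prod.ext rfl ?_)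
      funext i
      exact i.elim0
    have hHit : ∀ j, H^[j] z.1 = bo j := by
      intro j
      have := (tower_iter h1 z.1 z.2.1 0 j).1
      rw [← hz0] at this
      exact this.symm
    have hXO : ∀ j ≤ n, ∀ i, XO (fun j => g' i (H^[j] z.1)) (z.2.1 i) 0 j = xo j i := by
      intro j hj i
      have := (tower_iter m1 z.1 z.2.1 0 j).2 i
      rw [← hz0, horb j hj] at this
      exact this.symm
    have hder : ∀ i, HasDerivAt (fun t => XO (fun j => g' i (H^[j] z.1)) t 0 n)
        (∏ j ∈ Finset.range n, (a i j + s * c i j)) (z.2.1 i) := by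
      intro i
      apply XO_deriv
      intro j hj
      rw [hXO j hj.le i]
      show HasDerivAt (fun t => g i (H^[j] z.1) t + s * (τ (H^[j] z.1) * κ i t)) _ _
      rw [hHit]
      exact ((hg i (bo j)) (xo j i)).hasDerivAt.add
        (((hκ0 j hj i).2.const_mul (τ (bo j))).const_mul s)
    set l := F^[n] z - z with hl
    have hXn : ∀ i, XO (fun j => g' i (H^[j] z.1)) (z.2.1 i) 0 n = z.2.1 i + l.2.1 i := by
      intro i
      rw [hXO n le_rfl i, hl]
      show xo n i = z.2.1 i + (xo n i - z.2.1 i)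
      ring
    have hsc : ∀ i, ∃ t t', dist t (z.2.1 i) < ρ ∧ dist t' (z.2.1 i) < ρ ∧
        XO (fun j => g' i (H^[j] z.1)) t 0 n < t + l.2.1 i ∧
        t' + l.2.1 i < XO (fun j => g' i (H^[j] z.1)) t' 0 n := by
      intro i
      obtain ⟨t, t', b1, b2, b3, b4⟩ := sign_change
        (f := fun t => XO (fun j => g' i (H^[j] z.1)) t 0 n - t - l.2.1 i)
        (((hder i).sub (hasDerivAt_id' (z.2.1 i))).sub_const _) (by
          rw [hXn i]
          ring) (sub_ne_zero.mpr (hs3 i)) hρ
      exact ⟨t, t', b1, b2, by linarith, by linarith⟩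
    choose x y hx hy hx' hy' using hsc
    refine ⟨n, z.1, l, x, y, hn, hzn, by rw [dist_self]; exact hρ, fun t => ?_, fun i =>
      ⟨hx i, hy i, ?_, ?_⟩⟩
    · rw [(tower_iter m1 z.1 t 0 n).1, hHit, hl]
      show bo n = z.1 + (bo n - z.1)
      abel
    · rw [(tower_iter m1 z.1 x 0 n).2 i]
      exact hx' i
    · rw [(tower_iter m1 z.1 y 0 n).2 i]
      exact hy' i

end Pool.Agent.H922R3.CL.G
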