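import Pool.Agent.H922R3.CL.G5

set_option autoImplicit false
set_option linter.unusedSectionVars false

open Set Filter Topology Function

namespace Pool.Agent.H922R3.CL.G

variable {d e m : ℕ}

/-- **Closing**, with the same base translation. -/
theorem closing' {r : ℕ∞} {H : (Fin d → ℝ) → (Fin d → ℝ)} {F : V d e m ≃ V d e m}
    (hH : PerShadow (Zn d) H) (hF : IsTower r H F) (z : V d e m)
    (hz : IsChainRec (ZV d e m) F z) {ρ : ℝ} (hρ : 0 < ρ) :
    ∃ u w : V d e m, ‖u‖ < ρ ∧ ‖w‖ < ρ ∧ u.1 = w.1 ∧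
      IsPer (ZV d e m) (((Equiv.subRight w).trans F).trans (Equiv.addRight u)) z := by
  obtain ⟨g, φ, h1, h2, h3⟩ := hF.tower
  have hu := hF.diffeo.unif (ZV_near d e m)
  rw [Metric.uniformContinuous_iff] at hu
  obtain ⟨δ₂, hδ₂, hu2⟩ := hu (ρ / 4) (by linarith)
  obtain ⟨δ₃, hδ₃, hsh⟩ := hH (min δ₂ ρ) (lt_min hδ₂ hρ)
  obtain ⟨n, c, hn, hc0, hcn, hc⟩ := hz (min δ₃ (ρ / 4)) (lt_min hδ₃ (by linarith))
  -- the base
  obtain ⟨p, hp1, hp2⟩ := hsh n (fun j => (c j).1) hn (by
    show (c n).1 - (c 0).1 ∈ Zn d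
    rw [hc0]; exact hcn.1) (fun j hj => by
    have e1 : (F (c j)).1 = H (c j).1 := by
      have := h1 (c j).1 (c j).2.1 (c j).2.2
      exact congrArg Prod.fst this
    rw [← e1]
    exact (le_max_left _ _).trans_lt ((hc j hj).trans_le (min_le_left _ _)))
  simp only [hc0] at hp1
  set v : Fin d → ℝ := z.1 - p with hv
  have hvρ : ‖v‖ < ρ := by
    have := hp2 0 (Nat.zero_le _)
    simp only [Function.iterate_zero, id, hc0] at this
    rw [hv, ← dist_eq_norm, dist_comm]
    exact this.trans_le (min_le_right _ _)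
  -- the circles
  have hgc : ∀ i b, Continuous (g i b) := by
    intro i b
    have hFc : Continuous F := hF.diffeo.smooth.continuous
    have e1 : g i b = fun t => (F (b, (fun _ => t), 0)).2.1 i := by
      funext t
      rw [h1]
    rw [e1]
    have e2 : Continuous fun t : ℝ => F (b, (fun _ => t), 0) := hFc.comp
      (continuous_const.prodMk ((continuous_pi fun _ => continuous_id).prodMk continuous_const))
    exact (continuous_apply i).comp (continuous_fst.comp (continuous_snd.comp e2))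
  have hcirc : ∀ i : Fin e, ∃ a : ℝ, |a| ≤ ρ / 2 ∧
      XO (fun j => g i (H^[j] p)) (z.2.1 i) a n = (c n).2.1 i := by
    intro i
    have := XO_close (γ := fun j => g i (H^[j] p)) (fun j => hgc i _)
      (fun j => (h2 i _).monotone) (by linarith : 0 ≤ ρ / 2) n (fun j => (c j).2.1 i) (by
        intro j hj
        have a1 : dist (F (H^[j] p, (c j).2.1, (c j).2.2)) (F (c j)) < ρ / 4 := by
          apply hu2
          have a2 : dist ((H^[j] p, (c j).2.1, (c j).2.2) : V d e m) (c j) =
              max (dist (H^[j] p) (c j).1) (dist (c j).2 (c j).2) := rfl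
          rw [a2, dist_self, max_eq_left dist_nonneg]
          exact (hp2 j hj.le).trans_le (min_le_left _ _)
        have a3 : dist (F (c j)) (c (j + 1)) < ρ / 4 := (hc j hj).trans_le (min_le_right _ _)
        have a4 : dist (F (H^[j] p, (c j).2.1, (c j).2.2)) (c (j + 1)) < ρ / 2 := by
          have := dist_triangle (F (H^[j] p, (c j).2.1, (c j).2.2)) (F (c j)) (c (j + 1))
          linarith
        have a5 : dist ((F (H^[j] p, (c j).2.1, (c j).2.2)).2.1 i) ((c (j + 1)).2.1 i) ≤
            dist (F (H^[j] p, (c j).2.1, (c j).2.2)) (c (j + 1)) :=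
          (dist_le_pi_dist _ _ i).trans ((le_max_left _ _).trans (le_max_right _ _))
        rw [h1] at a5
        rw [h1] at a4
        rw [Real.dist_eq] at a5
        exact a5.trans a4.le)
    rwa [hc0] at this
  choose a ha1 ha2 using hcirc
  -- the map with closed circle levels
  let w : V d e m := (v, 0, 0)
  let u : V d e m := (v, a, 0)
  let G := ((Equiv.subRight w).trans F).trans (Equiv.addRight u)
  have hG : IsTower r (fun b => H (b - w.1) + u.1) G := hF.transl u w
  have hG1 : ∀ x, (G x).1 = H (x.1 - v) + v := by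
    intro x
    show (F (x - w)).1 + v = _
    have e1 : (x - w : V d e m) = (x.1 - v, x.2.1 - 0, x.2.2 - 0) := rfl
    rw [e1, h1]
  have hG2 : ∀ x i, (G x).2.1 i = g i (x.1 - v) (x.2.1 i) + a i := by
    intro x i
    show (F (x - w)).2.1 i + a i = _
    have e1 : (x - w : V d e m) = (x.1 - v, x.2.1 - 0, x.2.2 - 0) := rfl
    rw [e1, h1, sub_zero]
  have hit : ∀ j, (G^[j] z).1 = H^[j] p + v ∧
      ∀ i, (G^[j] z).2.1 i = XO (fun j => g i (H^[j] p)) (z.2.1 i) (a i) j := by
    intro j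
    induction j with
    | zero => exact ⟨by simp [hv], fun i => rfl⟩
    | succ j ih =>
      rw [Function.iterate_succ_apply', Function.iterate_succ_apply']
      refine ⟨?_, fun i => ?_⟩
      · rw [hG1, ih.1, add_sub_cancel_right]
      · rw [hG2, ih.1, ih.2 i, add_sub_cancel_right]
        rfl
  have hb1 : (G^[n] z).1 - z.1 ∈ Zn d := by
    rw [(hit n).1, hp1]
    have e1 : p + ((c n).1 - z.1) + v - z.1 = (c n).1 - z.1 := by rw [hv]; abel
    rw [e1]
    exact hcn.1
  have hb2 : (G^[n] z).2.1 - z.2.1 ∈ Zn e := by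
    have e1 : (G^[n] z).2.1 = (c n).2.1 := by
      funext i
      rw [(hit n).2 i, ha2 i]
    rw [e1]
    exact hcn.2.1
  obtain ⟨g', φ', k1, k2, k3⟩ := hG.tower
  obtain ⟨c', hc', N, hN, hper⟩ := levels hG.diffeo.latt k1 k3 z hn hb1 hb2 hρ
  refine ⟨(v, a, c'), w, ?_, ?_, rfl, N, hN, ?_⟩
  · rw [Prod.norm_def, Prod.norm_def]
    refine max_lt hvρ (max_lt ?_ ?_)
    · rw [pi_norm_lt_iff hρ]
      intro i
      exact (ha1 i).trans_lt (by linarith)
    · rw [pi_norm_lt_iff hρ]
      exact hc'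
  · rw [Prod.norm_def, Prod.norm_def]
    refine max_lt hvρ (max_lt ?_ ?_)
    · show ‖(0 : Fin e → ℝ)‖ < ρ
      rw [norm_zero]; exact hρ
    · show ‖(0 : Fin m → ℝ)‖ < ρ
      rw [norm_zero]; exact hρ
  · have e1 : ⇑(((Equiv.subRight w).trans F).trans (Equiv.addRight ((v, a, c') : V d e m))) =
        Fc G c' := by
      funext x
      show F (x - w) + (v, a, c') = (F (x - w) + (v, a, 0)) + (0, 0, c')
      rw [add_assoc]
      congr 1
      refine Prod.ext ?_ (Prod.ext ?_ ?_)
      · show v = v + 0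
        rw [add_zero]
      · show a = a + 0
        rw [add_zero]
      · show c' = 0 + c'
        rw [zero_add]
    rw [e1]
    exact hper


/-- Chain recurrent points become robustly periodic after a small perturbation. -/
theorem chain_crossing {d e : ℕ} {r : ℕ∞} (hr : 1 ≤ r) {F : V d e 0 ≃ V d e 0} (hF : HypTower r F)
    {z : V d e 0} (hz : IsChainRec (ZV d e 0) F z) {ρ : ℝ} (hρ : 0 < ρ) {k : ℕ}
    (hk : (k : ℕ∞) ≤ r) {ε : ℝ} (hε : 0 < ε) :
    ∃ G : V d e 0 ≃ V d e 0, HypTower r G ∧ CkNear k ε F G ∧ Crossing G ρ z := by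
  obtain ⟨H, hFt, hH⟩ := hF
  have hPS : PerShadow (Zn d) H := by
    apply perShadow_of_conj (Zn_near d)
    obtain ⟨L, Φ, a1, a2, a3, a4⟩ := hH
    exact ⟨L, Φ, AddEquiv.refl _, a1, a2, a3, a4⟩
  obtain ⟨ρ', hρ', h1⟩ := hFt.diffeo.close (ZV_near d e 0) hk (half_pos hε)
  obtain ⟨u, w, hu, hw, huw, hper⟩ := closing' hPS hFt z hz hρ'
  have hG1 := hFt.transl u w
  have hcG : HypTower r (((Equiv.subRight w).trans F).trans (Equiv.addRight u)) := by
    refine ⟨_, hG1, ?_⟩
    obtain ⟨L, Φ, a1, a2, a3, a4⟩ := hH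
    refine ⟨L, Φ.trans (Homeomorph.addRight u.1), a1, a2, fun x v => ?_, fun x => ?_⟩
    · show Φ (x + v) + u.1 = Φ x + u.1 + v
      rw [a3]
      abel
    · show H (Φ x + u.1 - w.1) + u.1 = Φ (L x) + u.1
      rw [huw, add_sub_cancel_right, a4]
  obtain ⟨G, hG, hGk, hGc⟩ := make_crossing hr hcG hper hρ hk (half_pos hε)
  refine ⟨G, hG, fun j hj x => ?_, hGc⟩
  obtain ⟨H', hGt, -⟩ := hG
  have hjr : (j : ℕ∞) ≤ r := le_trans (by exact_mod_cast hj) hk
  have s1 : ContDiff ℝ j F := hFt.diffeo.smooth.of_le (by exact_mod_cast hjr)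
  have s2 : ContDiff ℝ j G := hGt.diffeo.smooth.of_le (by exact_mod_cast hjr)
  have s3 : ContDiff ℝ j (((Equiv.subRight w).trans F).trans (Equiv.addRight u)) :=
    hG1.diffeo.smooth.of_le (by exact_mod_cast hjr)
  have e1 : (fun x => G x - F x) =
      (fun x => G x - (((Equiv.subRight w).trans F).trans (Equiv.addRight u)) x) +
        fun x => (F (x - w) + u) - F x := by
    funext x
    show G x - F x = (G x - (F (x - w) + u)) + ((F (x - w) + u) - F x)
    abel
  have s4 : ContDiff ℝ j (fun x => (F (x - w) + u) - F x) := s3.sub s1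
  rw [e1, iteratedFDeriv_add_apply (s2.sub s3).contDiffAt s4.contDiffAt]
  refine (norm_add_le _ _).trans_lt ?_
  have b1 := hGk j hj x
  have b2 := h1 u w hu hw j hj x
  linarith

end Pool.Agent.H922R3.CL.G
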