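import Pool.Agent.H922R3.CL.G6

set_option autoImplicit false
set_option linter.unusedSectionVars false

open Set Filter Topology Function

namespace Pool.Agent.H922R3.CL.G

variable {d e : ℕ}

/-- Points which are not chain recurrent: robustness. -/
theorem cr_local {r : ℕ∞} {F : V d e 0 ≃ V d e 0} (hF : IsDiffeoLift (ZV d e 0) r F)
    {z : V d e 0} (hz : ¬ IsChainRec (ZV d e 0) F z) : ∃ ρ > 0, ∀ G : V d e 0 ≃ V d e 0,
      C0Near ρ F G → ∀ z', dist z' z < ρ → ¬ IsChainRec (ZV d e 0) G z' := by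
  unfold IsChainRec at hz
  push Not at hz
  obtain ⟨δ, hδ, h1⟩ := hz
  have hu := hF.unif (ZV_near d e 0)
  rw [Metric.uniformContinuous_iff] at hu
  obtain ⟨η, hη, h2⟩ := hu (δ / 4) (by linarith)
  refine ⟨min η (δ / 4), lt_min hη (by linarith), fun G hG z' hz' hcr => ?_⟩
  obtain ⟨n, c, hn, hc0, hcn, hc⟩ := hcr (δ / 4) (by linarith)
  let c' : ℕ → V d e 0 := fun j => if j = 0 then z else if j = n then z + (c n - z') else c j
  have e0 : c' 0 = z := rfl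
  have en : c' n = z + (c n - z') := by
    show (if n = 0 then _ else if n = n then _ else _) = _
    rw [if_neg (by omega), if_pos rfl]
  have hclose : ∀ j ≤ n, dist (c' j) (c j) < min η (δ / 4) := by
    intro j hj
    show dist (if j = 0 then _ else if j = n then _ else _) _ < _
    split_ifs with a1 a2
    · rw [a1, hc0, dist_comm]; exact hz'
    · rw [a2]
      have : dist (z + (c n - z')) (c n) = dist z z' := by
        rw [dist_eq_norm, dist_eq_norm]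
        congr 1
        abel
      rw [this, dist_comm]
      exact hz'
    · rw [dist_self]
      exact lt_min hη (by linarith)
  obtain ⟨j, hj, hjd⟩ := h1 n c' hn e0 (by rw [en, add_sub_cancel_left]; exact hcn)
  have a1 := h2 ((hclose j hj.le).trans_le (min_le_left _ _))
  have a2 := (hG (c j)).trans_le (min_le_right _ _)
  have a3 := hc j hj
  have a4 := (hclose (j + 1) hj).trans_le (min_le_right _ _)
  rw [dist_comm] at a4
  have b1 := dist_triangle4 (F (c' j)) (F (c j)) (G (c j)) (c (j + 1))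
  have b2 := dist_triangle (F (c' j)) (c (j + 1)) (c' (j + 1))
  linarith

/-- Upper semicontinuity of the chain recurrent set. -/
theorem cr_usc {r : ℕ∞} {F : V d e 0 ≃ V d e 0} (hF : IsDiffeoLift (ZV d e 0) r F)
    {K : Set (V d e 0)} (hK : IsCompact K) (h : ∀ z ∈ K, ¬ IsChainRec (ZV d e 0) F z) :
    ∃ ε > 0, ∀ G : V d e 0 ≃ V d e 0, C0Near ε F G → ∀ z ∈ K, ¬ IsChainRec (ZV d e 0) G z := by
  choose! ρ hρ h1 using fun z (hz : z ∈ K) => cr_local hF (h z hz)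
  obtain ⟨t, ht, htK⟩ := hK.elim_nhds_subcover (fun z => Metric.ball z (ρ z))
    (fun z hz => Metric.ball_mem_nhds z (hρ z hz))
  obtain ⟨ε, hε, hε1⟩ : ∃ ε > 0, ∀ z ∈ t, ε ≤ ρ z := by
    have : ∀ᶠ ε : ℝ in 𝓝[>] 0, ∀ z ∈ t, ε ≤ ρ z := by
      rw [Filter.eventually_all_finset]
      intro z hz
      have : Iic (ρ z) ∈ 𝓝 (0 : ℝ) := Iic_mem_nhds (hρ z (ht z hz))
      exact mem_nhdsWithin_of_mem_nhds this
    obtain ⟨ε, h2, h3⟩ := (this.and self_mem_nhdsWithin).exists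
    exact ⟨ε, h3, h2⟩
  refine ⟨ε, hε, fun G hG z hz => ?_⟩
  obtain ⟨w, hw, hzw⟩ := Set.mem_iUnion₂.mp (htK hz)
  exact h1 w (ht w hw) G (fun x => (hG x).trans_le (hε1 w hw)) z hzw

theorem iter_latt {F : V d e 0 ≃ V d e 0} {A : ZV d e 0 ≃+ ZV d e 0}
    (hA : ∀ (z : V d e 0) (u : ZV d e 0), F (z + u) = F z + A u) (n : ℕ) (z : V d e 0)
    (u : ZV d e 0) : F^[n] (z + u) = F^[n] z + (A^[n] u : ZV d e 0) := by
  induction n with
  | zero => rfl
  | succ n ih => rw [Function.iterate_succ_apply', Function.iterate_succ_apply', ih, hA,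
      Function.iterate_succ_apply']

theorem cr_latt {r : ℕ∞} {F : V d e 0 ≃ V d e 0} (hF : IsDiffeoLift (ZV d e 0) r F)
    {z u : V d e 0} (hu : u ∈ ZV d e 0) (hz : IsChainRec (ZV d e 0) F z) :
    IsChainRec (ZV d e 0) F (z + u) := by
  obtain ⟨A, hA⟩ := hF.equiv
  intro δ hδ
  obtain ⟨n, c, hn, hc0, hcn, hc⟩ := hz δ hδ
  refine ⟨n, fun j => c j + (A^[j] ⟨u, hu⟩ : ZV d e 0), hn, ?_, ?_, fun j hj => ?_⟩
  · show c 0 + u = z + u
    rw [hc0]
  · have e1 : c n + ((A^[n] ⟨u, hu⟩ : ZV d e 0) : V d e 0) - (z + u) =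
        (c n - z) + (((A^[n] ⟨u, hu⟩ : ZV d e 0) : V d e 0) - u) := by abel
    simp only
    rw [e1]
    exact (ZV d e 0).add_mem hcn ((ZV d e 0).sub_mem (Subtype.mem _) hu)
  · show dist (F (c j + (A^[j] ⟨u, hu⟩ : ZV d e 0))) (c (j + 1) + (A^[j + 1] ⟨u, hu⟩ : ZV d e 0)) < δ
    rw [hA, Function.iterate_succ_apply', dist_add_right]
    exact hc j hj

theorem per_latt {r : ℕ∞} {F : V d e 0 ≃ V d e 0} (hF : IsDiffeoLift (ZV d e 0) r F)
    {z u : V d e 0} (hu : u ∈ ZV d e 0) (hz : IsPer (ZV d e 0) F z) :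
    IsPer (ZV d e 0) F (z + u) := by
  obtain ⟨A, hA⟩ := hF.equiv
  obtain ⟨n, hn, h⟩ := hz
  refine ⟨n, hn, ?_⟩
  have e0 := iter_latt hA n z ⟨u, hu⟩
  simp only at e0
  rw [e0]
  have e1 : F^[n] z + ((A^[n] ⟨u, hu⟩ : ZV d e 0) : V d e 0) - (z + u) =
        (F^[n] z - z) + (((A^[n] ⟨u, hu⟩ : ZV d e 0) : V d e 0) - u) := by abel
  rw [e1]
  exact (ZV d e 0).add_mem h ((ZV d e 0).sub_mem (Subtype.mem _) hu)

/-- The robust local alternative at `q`. -/
def Alt (r : ℕ∞) (η : ℝ) (q : V d e 0) (F : V d e 0 ≃ V d e 0) : Prop :=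
  ∃ ε > 0, ∀ G : V d e 0 ≃ V d e 0, HypTower r G → C0Near ε F G →
    (∀ z ∈ Metric.closedBall q (η / 4), ¬ IsChainRec (ZV d e 0) G z) ∨
      ∃ y, IsPer (ZV d e 0) G y ∧ dist y q < η / 2

/-- The good sets. -/
def Good (r : ℕ∞) (η : ℝ) : Set (V d e 0 ≃ V d e 0) :=
  {F | ∃ ε > 0, ∀ G : V d e 0 ≃ V d e 0, HypTower r G → C0Near ε F G →
    ∀ z, IsChainRec (ZV d e 0) G z → ∃ y, IsPer (ZV d e 0) G y ∧ dist y z < η}

theorem C0Near.refl {ε : ℝ} (hε : 0 < ε) (F : V d e 0 ≃ V d e 0) : C0Near ε F F := fun x => by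
  rw [dist_self]; exact hε

theorem CkNear.c0 {k : ℕ} {ε : ℝ} {F G : V d e 0 ≃ V d e 0} (h : CkNear k ε F G) :
    C0Near ε F G := fun x => by
  have := h 0 (Nat.zero_le _) x
  rw [norm_iteratedFDeriv_zero] at this
  rw [dist_comm, dist_eq_norm]
  exact this

theorem CkNear.refl' (k : ℕ) {ε : ℝ} (hε : 0 < ε) (F : V d e 0 ≃ V d e 0) : CkNear k ε F F := by
  intro j _ x
  have e1 : (fun x => F x - F x) = fun _ => (0 : V d e 0) := by
    funext x
    rw [sub_self]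
  rw [e1]
  exact (norm_iter_const (k := j) (0 : V d e 0) x).trans_lt (by rw [norm_zero]; exact hε)

theorem CkNear.trans' {r : ℕ∞} {k : ℕ} (hk : (k : ℕ∞) ≤ r) {ε ε' : ℝ} {F G G' : V d e 0 ≃ V d e 0}
    (hF : HypTower r F) (hG : HypTower r G) (hG' : HypTower r G')
    (h : CkNear k ε F G) (h' : CkNear k ε' G G') : CkNear k (ε + ε') F G' := by
  intro j hj x
  obtain ⟨_, hF, -⟩ := hF
  obtain ⟨_, hG, -⟩ := hG
  obtain ⟨_, hG', -⟩ := hG'
  have hjr : (j : ℕ∞) ≤ r := le_trans (by exact_mod_cast hj) hk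
  have s1 : ContDiff ℝ j F := hF.diffeo.smooth.of_le (by exact_mod_cast hjr)
  have s2 : ContDiff ℝ j G := hG.diffeo.smooth.of_le (by exact_mod_cast hjr)
  have s3 : ContDiff ℝ j G' := hG'.diffeo.smooth.of_le (by exact_mod_cast hjr)
  have e1 : (fun x => G' x - F x) = (fun x => G x - F x) + fun x => G' x - G x := by
    funext x
    show G' x - F x = (G x - F x) + (G' x - G x)
    abel
  have s4 : ContDiff ℝ j (fun x => G x - F x) := s2.sub s1
  have s5 : ContDiff ℝ j (fun x => G' x - G x) := s3.sub s2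
  rw [e1, iteratedFDeriv_add_apply s4.contDiffAt s5.contDiffAt]
  exact (norm_add_le _ _).trans_lt (add_lt_add (h j hj x) (h' j hj x))

/-- One step. -/
theorem alt_dense {r : ℕ∞} (hr : 1 ≤ r) {F : V d e 0 ≃ V d e 0} (hF : HypTower r F) {η : ℝ}
    (hη : 0 < η) (q : V d e 0) {k : ℕ} (hk : (k : ℕ∞) ≤ r) {ε : ℝ} (hε : 0 < ε) :
    ∃ G : V d e 0 ≃ V d e 0, HypTower r G ∧ CkNear k ε F G ∧ Alt r η q G := by
  by_cases h : ∀ z ∈ Metric.closedBall q (η / 4), ¬ IsChainRec (ZV d e 0) F z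
  · refine ⟨F, hF, CkNear.refl' k hε F, ?_⟩
    obtain ⟨H, hFt, -⟩ := hF
    obtain ⟨ε', hε', h1⟩ := cr_usc hFt.diffeo (isCompact_closedBall q (η / 4)) h
    exact ⟨ε', hε', fun G _ hG => Or.inl (h1 G hG)⟩
  · push Not at h
    obtain ⟨z, hzq, hz⟩ := h
    obtain ⟨G, hG, hGk, hGc⟩ := chain_crossing hr hF hz (by linarith : 0 < η / 4) hk hε
    obtain ⟨ε', hε', h1⟩ := crossing_robust hG hGc
    refine ⟨G, hG, hGk, ε', hε', fun G' hG' hGG' => Or.inr ?_⟩
    obtain ⟨y, hy, hyz⟩ := h1 G' hG' hGG'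
    refine ⟨y, hy, ?_⟩
    have := dist_triangle y z q
    rw [Metric.mem_closedBall] at hzq
    linarith

/-- Finitely many steps. -/
theorem alts_dense {r : ℕ∞} (hr : 1 ≤ r) {η : ℝ} (hη : 0 < η) {k : ℕ} (hk : (k : ℕ∞) ≤ r)
    (t : Finset (V d e 0)) : ∀ {F : V d e 0 ≃ V d e 0}, HypTower r F → ∀ {ε : ℝ}, 0 < ε →
      ∃ G : V d e 0 ≃ V d e 0, HypTower r G ∧ CkNear k ε F G ∧ ∀ q ∈ t, Alt r η q G := by
  classical
  induction t using Finset.induction_on with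
  | empty => exact fun {F} hF {ε} hε => ⟨F, hF, CkNear.refl' k hε F, fun q hq => by simp at hq⟩
  | insert q t _ ih =>
    intro F hF ε hε
    obtain ⟨G, hG, hGk, hGt⟩ := ih hF (half_pos hε)
    choose! δ hδ h1 using hGt
    obtain ⟨ε₁, hε₁, hε₂⟩ : ∃ ε₁ > 0, ∀ q ∈ t, ε₁ ≤ δ q := by
      have : ∀ᶠ ε : ℝ in 𝓝[>] 0, ∀ q ∈ t, ε ≤ δ q := by
        rw [Filter.eventually_all_finset]
        intro z hz
        have : Iic (δ z) ∈ 𝓝 (0 : ℝ) := Iic_mem_nhds (hδ z hz)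
        exact mem_nhdsWithin_of_mem_nhds this
      obtain ⟨ε, h2, h3⟩ := (this.and self_mem_nhdsWithin).exists
      exact ⟨ε, h3, h2⟩
    obtain ⟨G', hG', hGG', halt⟩ := alt_dense hr hG hη q hk
      (lt_min (half_pos hε) (half_pos hε₁))
    refine ⟨G', hG', ?_, fun p hp => ?_⟩
    · have h3 : CkNear k (ε / 2) G G' := fun j hj x => (hGG' j hj x).trans_le (min_le_left _ _)
      have h4 := CkNear.trans' hk hF hG hG' hGk h3
      rwa [add_halves] at h4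
    · rcases Finset.mem_insert.mp hp with hp | hp
      · rw [hp]; exact halt
      · refine ⟨ε₁ / 2, half_pos hε₁, fun G'' hG'' hn => h1 p hp G'' hG'' fun x => ?_⟩
        have a1 := CkNear.c0 hGG' x
        have a2 := hn x
        have a3 := dist_triangle (G x) (G' x) (G'' x)
        have a4 := hε₂ p hp
        have a5 := min_le_right (ε / 2) (ε₁ / 2)
        linarith

theorem good_dense {r : ℕ∞} (hr : 1 ≤ r) {η : ℝ} (hη : 0 < η) {F : V d e 0 ≃ V d e 0}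
    (hF : HypTower r F) {k : ℕ} (hk : (k : ℕ∞) ≤ r) {ε : ℝ} (hε : 0 < ε) :
    ∃ G ∈ Good (d := d) (e := e) r η, HypTower r G ∧ CkNear k ε F G := by
  have hK : IsCompact (Metric.closedBall (0 : V d e 0) 1) := isCompact_closedBall 0 1
  obtain ⟨t, -, ht⟩ := hK.elim_nhds_subcover (fun z => Metric.ball z (η / 4))
    (fun z _ => Metric.ball_mem_nhds z (by linarith))
  obtain ⟨G, hG, hGk, hGt⟩ := alts_dense hr hη hk t hF hε
  refine ⟨G, ?_, hG, hGk⟩
  choose! δ hδ h1 using hGt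
  obtain ⟨ε₁, hε₁, hε₂⟩ : ∃ ε₁ > 0, ∀ q ∈ t, ε₁ ≤ δ q := by
    have : ∀ᶠ ε : ℝ in 𝓝[>] 0, ∀ q ∈ t, ε ≤ δ q := by
      rw [Filter.eventually_all_finset]
      intro z hz
      have : Iic (δ z) ∈ 𝓝 (0 : ℝ) := Iic_mem_nhds (hδ z hz)
      exact mem_nhdsWithin_of_mem_nhds this
    obtain ⟨ε, h2, h3⟩ := (this.and self_mem_nhdsWithin).exists
    exact ⟨ε, h3, h2⟩
  refine ⟨ε₁, hε₁, fun G' hG' hn z hz => ?_⟩
  obtain ⟨u, hu, hzu⟩ := ZV_near d e 0 z
  have hGd : IsDiffeoLift (ZV d e 0) r G' := by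
    obtain ⟨_, h, -⟩ := hG'
    exact h.diffeo
  have hz' : IsChainRec (ZV d e 0) G' (z - u) := by
    have := cr_latt hGd ((ZV d e 0).neg_mem hu) hz
    rwa [← sub_eq_add_neg] at this
  obtain ⟨q, hq, hzq⟩ := Set.mem_iUnion₂.mp (ht (show z - u ∈ Metric.closedBall (0 : V d e 0) 1 by
    rw [mem_closedBall_zero_iff]; exact hzu))
  rcases h1 q hq G' hG' (fun x => (hn x).trans_le (hε₂ q hq)) with h2 | ⟨y, hy, hyq⟩
  · exact absurd hz' (h2 _ (Metric.ball_subset_closedBall hzq))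
  · refine ⟨y + u, per_latt hGd hu hy, ?_⟩
    have a1 : dist (y + u) z = dist y (z - u) := by
      rw [dist_eq_norm, dist_eq_norm]
      congr 1
      abel
    rw [a1]
    have a2 := dist_triangle y q (z - u)
    rw [Metric.mem_ball, dist_comm] at hzq
    linarith

theorem good_open {r : ℕ∞} {η : ℝ} {F : V d e 0 ≃ V d e 0} (hF : F ∈ Good (d := d) (e := e) r η) :
    ∃ ε > 0, ∀ G : V d e 0 ≃ V d e 0, HypTower r G → C0Near ε F G →
      G ∈ Good (d := d) (e := e) r η := by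
  obtain ⟨ε, hε, h⟩ := hF
  refine ⟨ε / 2, half_pos hε, fun G _ hFG => ⟨ε / 2, half_pos hε, fun G' hG' hGG' => ?_⟩⟩
  apply h G' hG'
  intro x
  have a1 := hFG x
  have a2 := hGG' x
  have a3 := dist_triangle (F x) (G x) (G' x)
  linarith

end Pool.Agent.H922R3.CL.G
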