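import Pool.Agent.H922R3.CL.Hyp

set_option autoImplicit false
set_option linter.unusedSectionVars false

open Set Filter Topology Function

namespace Pool.Agent.H922R3.CL.B

variable {W : Type*} [NormedAddCommGroup W] [NormedSpace ℝ W] [CompleteSpace W]

/-- Exponential closing for hyperbolic linear maps. -/
theorem shadow_exp {L : W ≃L[ℝ] W} (hL : IsHypLin L) : ∃ K μ : ℝ, 0 < K ∧ 0 < μ ∧ μ < 1 ∧
    ∀ (n : ℕ) (a e : W), 1 ≤ n → ∃ u : W, L^[n] u = u - e ∧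
      ∀ j ≤ n, ‖L^[j] u‖ ≤ K * (μ ^ j + μ ^ (n - j)) * ‖e‖ := by
  obtain ⟨P, C, μ, hC, hμ, hμ1, hPP, hLP, hb⟩ := hL
  have h1μ : 0 < 1 - μ := by linarith
  refine ⟨C / (1 - μ), μ, by positivity, hμ, hμ1, fun n _ e hn => ?_⟩
  have hgeo : Summable fun q : ℕ => C * μ ^ q := (summable_geometric_of_lt_one hμ.le hμ1).mul_left C
  have hsum : ∑' q : ℕ, C * μ ^ q = C / (1 - μ) := by
    rw [tsum_mul_left, tsum_geometric_of_lt_one hμ.le hμ1]
    rfl
  have hgj : ∀ j : ℕ, Summable fun q : ℕ => C * μ ^ q * (μ ^ j * ‖e‖) := fun j => hgeo.mul_right _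
  have hsj : ∀ j : ℕ, ∑' q : ℕ, C * μ ^ q * (μ ^ j * ‖e‖) = C / (1 - μ) * (μ ^ j * ‖e‖) :=
    fun j => by rw [tsum_mul_right, hsum]
  have hpow : ∀ j q : ℕ, C * μ ^ (j + n * q) * ‖e‖ ≤ C * μ ^ q * (μ ^ j * ‖e‖) := by
    intro j q
    have h1 : μ ^ (j + n * q) ≤ μ ^ (j + q) := by
      apply pow_le_pow_of_le_one hμ.le hμ1.le
      have : 1 * q ≤ n * q := Nat.mul_le_mul_right q hn
      omega
    have h2 : C * μ ^ (j + n * q) * ‖e‖ ≤ C * μ ^ (j + q) * ‖e‖ := by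
      apply mul_le_mul_of_nonneg_right _ (norm_nonneg _)
      exact mul_le_mul_of_nonneg_left h1 hC.le
    refine h2.trans (le_of_eq ?_)
    rw [pow_add]
    ring
  have b1 : ∀ j q : ℕ, ‖L^[j + n * q] (P e)‖ ≤ C * μ ^ q * (μ ^ j * ‖e‖) := fun j q =>
    ((hb _ _).1).trans (hpow j q)
  have b2 : ∀ j q : ℕ, ‖L.symm^[j + n * q] (e - P e)‖ ≤ C * μ ^ q * (μ ^ j * ‖e‖) := fun j q =>
    ((hb _ _).2).trans (hpow j q)
  have s1 : ∀ j : ℕ, Summable fun q : ℕ => L^[j + n * q] (P e) := fun j =>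
    Summable.of_norm_bounded (hgj j) (b1 j)
  have s2 : ∀ j : ℕ, Summable fun q : ℕ => L.symm^[j + n * q] (e - P e) := fun j =>
    Summable.of_norm_bounded (hgj j) (b2 j)
  let U : ℕ → W := fun j => ∑' q : ℕ, L^[j + n * q] (P e)
  let Y : ℕ → W := fun j => ∑' q : ℕ, L.symm^[j + n * q] (e - P e)
  have hU : ∀ j, L (U j) = U (j + 1) := by
    intro j
    show L (∑' q : ℕ, L^[j + n * q] (P e)) = ∑' q : ℕ, L^[j + 1 + n * q] (P e)
    rw [L.map_tsum]
    congr 1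
    funext q
    have : j + 1 + n * q = (j + n * q) + 1 := by omega
    rw [this, Function.iterate_succ_apply']
  have hU0 : U 0 = P e + U n := by
    show ∑' q : ℕ, L^[0 + n * q] (P e) = P e + ∑' q : ℕ, L^[n + n * q] (P e)
    rw [(s1 0).tsum_eq_zero_add]
    congr 1
    congr 1
    funext q
    have : 0 + n * (q + 1) = n + n * q := by ring
    rw [this]
  have hY : ∀ j, L (Y (j + 1)) = Y j := by
    intro j
    show L (∑' q : ℕ, L.symm^[j + 1 + n * q] (e - P e)) = ∑' q : ℕ, L.symm^[j + n * q] (e - P e)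
    rw [L.map_tsum]
    congr 1
    funext q
    have : j + 1 + n * q = (j + n * q) + 1 := by omega
    rw [this, Function.iterate_succ_apply', L.apply_symm_apply]
  have hY0 : Y 0 = (e - P e) + Y n := by
    show ∑' q : ℕ, L.symm^[0 + n * q] (e - P e) =
      (e - P e) + ∑' q : ℕ, L.symm^[n + n * q] (e - P e)
    rw [(s2 0).tsum_eq_zero_add]
    congr 1
    congr 1
    funext q
    have : 0 + n * (q + 1) = n + n * q := by ring
    rw [this]
  have hit : ∀ j ≤ n, L^[j] (U 0 - Y n) = U j - Y (n - j) := by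
    intro j
    induction j with
    | zero => intro _; rfl
    | succ j ih =>
      intro hj
      rw [Function.iterate_succ_apply', ih (by omega), map_sub, hU]
      congr 1
      have : n - j = (n - (j + 1)) + 1 := by omega
      rw [this, hY]
  refine ⟨U 0 - Y n, ?_, fun j hj => ?_⟩
  · rw [hit n le_rfl, Nat.sub_self, hY0]
    have : U n = U 0 - P e := by rw [hU0]; abel
    rw [this]
    abel
  · rw [hit j hj]
    have c1 : ‖U j‖ ≤ C / (1 - μ) * (μ ^ j * ‖e‖) := by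
      rw [← hsj]
      exact tsum_of_norm_bounded (hgj j).hasSum (b1 j)
    have c2 : ‖Y (n - j)‖ ≤ C / (1 - μ) * (μ ^ (n - j) * ‖e‖) := by
      rw [← hsj]
      exact tsum_of_norm_bounded (hgj (n - j)).hasSum (b2 (n - j))
    refine (norm_sub_le _ _).trans ((add_le_add c1 c2).trans (le_of_eq ?_))
    ring

/-- Closing for isometric extensions of maps conjugate to hyperbolic ones. -/
theorem hyp_part [ProperSpace W] {Λ : AddSubgroup W} (hΛ : ∀ z : W, ∃ u ∈ Λ, ‖z - u‖ ≤ 1)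
    {W' : Type*} [NormedAddCommGroup W'] [NormedSpace ℝ W'] {h : W → W} {ω : W → W'}
    {L : W ≃L[ℝ] W} {Φ : W ≃ₜ W} {A : Λ ≃+ Λ} {C α K : ℝ} (hL : IsHypLin L)
    (hΦ : ∀ (z : W) (u : Λ), Φ (z + u) = Φ z + A u) (hhΦ : ∀ z, h (Φ z) = Φ (L z))
    (hC : 0 < C) (hα : 0 < α) (hH : ∀ z w, dist z w ≤ 1 → dist (Φ z) (Φ w) ≤ C * dist z w ^ α)
    (hω : ∀ z w, dist (ω z) (ω w) ≤ K * dist z w) :
    ∀ ε > 0, ∃ δ > 0, ∀ (n : ℕ) (w k : W) (t : W'), 1 ≤ n → k ∈ Λ →
      dist (h^[n] w) (w + k) < δ → ‖∑ i ∈ Finset.range n, ω (h^[i] w) - t‖ < δ →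
      ∃ (p : W) (β : W'), ‖β‖ < ε ∧ h^[n] p = p + k ∧
        ∑ i ∈ Finset.range n, ω (h^[i] p) + (n : ℝ) • β = t ∧
        (∀ j ≤ n, dist (h^[j] p) (h^[j] w) < ε) ∧
        ∀ j ≤ n, ‖(∑ i ∈ Finset.range j, ω (h^[i] p) + (j : ℝ) • β) -
          ∑ i ∈ Finset.range j, ω (h^[i] w)‖ < ε := by
  obtain ⟨K₁, μ, hK₁, hμ, hμ1, hsh⟩ := shadow_exp hL
  have hΦs : ∀ (z : W) (u : Λ), Φ.symm (z + A u) = Φ.symm z + u := by
    intro z u
    rw [Homeomorph.symm_apply_eq, hΦ, Homeomorph.apply_symm_apply]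
  have u2 : UniformContinuous Φ.symm := by
    apply qp_unif Λ hΛ Φ.symm Φ.symm.continuous
    intro u hu
    obtain ⟨u', hu'⟩ := A.surjective ⟨u, hu⟩
    refine ⟨u', fun z => ?_⟩
    rw [← hΦs, hu']
  rw [Metric.uniformContinuous_iff] at u2
  have hit : ∀ (j : ℕ) (z : W), h^[j] (Φ z) = Φ (L^[j] z) := by
    intro j z
    induction j with
    | zero => rfl
    | succ j ih => rw [Function.iterate_succ_apply', ih, hhΦ, Function.iterate_succ_apply']
  -- constants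
  set ν := μ ^ α with hν
  have hν0 : 0 < ν := Real.rpow_pos_of_pos hμ α
  have hν1 : ν < 1 := Real.rpow_lt_one hμ.le hμ1 hα
  have h1ν : 0 < 1 - ν := by linarith
  set M := C * (2 * K₁) ^ α with hM
  have hM0 : 0 < M := by positivity
  set K' := max K 0 with hK'
  have hK'0 : 0 ≤ K' := le_max_right _ _
  intro ε hε
  -- choice of the size of the jump
  have htend : Tendsto (fun s : ℝ => M * s ^ α * 2 + K' * (M * s ^ α * (2 / (1 - ν)))) (𝓝[>] 0)
      (𝓝 0) := by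
    have h1 : Tendsto (fun s : ℝ => s ^ α) (𝓝[>] 0) (𝓝 0) := by
      have := (Real.continuousAt_rpow_const 0 α (Or.inr hα.le)).tendsto
      rw [Real.zero_rpow hα.ne'] at this
      exact this.mono_left nhdsWithin_le_nhds
    have h2 := (((h1.const_mul M).mul_const 2).add
      (((h1.const_mul M).mul_const (2 / (1 - ν))).const_mul K'))
    simpa using h2
  obtain ⟨s₀, hs₀, hs1, hs2⟩ : ∃ s₀ > 0, 2 * K₁ * s₀ ≤ 1 ∧
      M * s₀ ^ α * 2 + K' * (M * s₀ ^ α * (2 / (1 - ν))) < ε / 4 := by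
    have h3 := (tendsto_order.mp htend).2 (ε / 4) (by linarith)
    have h4 : ∀ᶠ s : ℝ in 𝓝[>] 0, 2 * K₁ * s ≤ 1 := by
      have : Iio (1 / (2 * K₁)) ∈ 𝓝 (0 : ℝ) := Iio_mem_nhds (by positivity)
      filter_upwards [mem_nhdsWithin_of_mem_nhds this] with s hs
      have : s < 1 / (2 * K₁) := hs
      rw [lt_div_iff₀ (by positivity)] at this
      linarith
    obtain ⟨s, ⟨h5, h6⟩, h7⟩ := ((h3.and h4).and self_mem_nhdsWithin).exists
    exact ⟨s, h7, h6, h5⟩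
  obtain ⟨δ, hδ, h2⟩ := u2 s₀ hs₀
  refine ⟨min δ (ε / 4), lt_min hδ (by linarith), fun n w k t hn hk hw ht => ?_⟩
  have hw' := hw.trans_le (min_le_left _ _)
  have ht' := ht.trans_le (min_le_right _ _)
  have hn0 : (0 : ℝ) < n := by exact_mod_cast hn
  obtain ⟨l, hl⟩ := A.surjective ⟨k, hk⟩
  have hl' : (A l : W) = k := congrArg Subtype.val hl
  set a := Φ.symm w with ha
  have hΦa : Φ a = w := by rw [ha, Homeomorph.apply_symm_apply]
  have e1 : Φ.symm (w + k) = a + l := by rw [← hl', hΦs]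
  have e2 : Φ.symm (h^[n] w) = L^[n] a := by
    rw [Homeomorph.symm_apply_eq, ← hit, hΦa]
  have h3 : dist (L^[n] a) (a + l) < s₀ := by
    rw [← e1, ← e2]
    exact h2 hw'
  obtain ⟨u, hu1, hu2⟩ := hsh n a (L^[n] a - (a + l)) hn
  set e := L^[n] a - (a + l) with he
  have he0 : ‖e‖ < s₀ := by rw [he, ← dist_eq_norm]; exact h3
  have hLadd : ∀ (j : ℕ) (x y : W), L^[j] (x + y) = L^[j] x + L^[j] y := by
    intro j x y
    rw [iter_clm, iter_clm, iter_clm, map_add]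
  set p := Φ (a + u) with hp
  have hdist : ∀ j ≤ n, dist (h^[j] p) (h^[j] w) ≤ M * s₀ ^ α * (ν ^ j + ν ^ (n - j)) := by
    intro j hj
    rw [hp, ← hΦa, hit, hit, hLadd]
    have d1 : dist (L^[j] a + L^[j] u) (L^[j] a) = ‖L^[j] u‖ := by
      rw [dist_eq_norm, add_sub_cancel_left]
    have d2 := hu2 j hj
    have p1 : μ ^ j ≤ 1 := pow_le_one₀ hμ.le hμ1.le
    have p2 : μ ^ (n - j) ≤ 1 := pow_le_one₀ hμ.le hμ1.le
    have p3 : 0 < μ ^ j := pow_pos hμ _
    have p4 : 0 < μ ^ (n - j) := pow_pos hμ _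
    set q := max (μ ^ j) (μ ^ (n - j)) with hq
    have hq0 : 0 < q := lt_max_of_lt_left p3
    have d3 : ‖L^[j] u‖ ≤ 2 * K₁ * s₀ * q := by
      have : μ ^ j + μ ^ (n - j) ≤ 2 * q := by
        have := le_max_left (μ ^ j) (μ ^ (n - j))
        have := le_max_right (μ ^ j) (μ ^ (n - j))
        linarith
      calc ‖L^[j] u‖ ≤ K₁ * (μ ^ j + μ ^ (n - j)) * ‖e‖ := d2
        _ ≤ K₁ * (2 * q) * s₀ := by
          apply mul_le_mul (mul_le_mul_of_nonneg_left this hK₁.le) he0.le (norm_nonneg _)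
          positivity
        _ = 2 * K₁ * s₀ * q := by ring
    have d4 : ‖L^[j] u‖ ≤ 1 := by
      refine d3.trans ?_
      have : q ≤ 1 := max_le p1 p2
      calc 2 * K₁ * s₀ * q ≤ 2 * K₁ * s₀ * 1 := mul_le_mul_of_nonneg_left this (by positivity)
        _ ≤ 1 := by rw [mul_one]; exact hs1
    have d5 := hH (L^[j] a + L^[j] u) (L^[j] a) (by rw [d1]; exact d4)
    rw [d1] at d5
    refine d5.trans ?_
    have d6 : ‖L^[j] u‖ ^ α ≤ (2 * K₁ * s₀ * q) ^ α :=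
      Real.rpow_le_rpow (norm_nonneg _) d3 hα.le
    have d7 : (2 * K₁ * s₀ * q) ^ α = (2 * K₁) ^ α * s₀ ^ α * q ^ α := by
      rw [Real.mul_rpow (by positivity) hq0.le, Real.mul_rpow (by positivity) hs₀.le]
    have d8 : q ^ α ≤ ν ^ j + ν ^ (n - j) := by
      have n1 : ∀ i : ℕ, (μ ^ i) ^ α = ν ^ i := fun i => by
        rw [hν, ← Real.rpow_natCast, ← Real.rpow_natCast, ← Real.rpow_mul hμ.le,
          ← Real.rpow_mul hμ.le, mul_comm]
      have n2 : 0 < ν ^ j := pow_pos hν0 _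
      have n3 : 0 < ν ^ (n - j) := pow_pos hν0 _
      rcases max_cases (μ ^ j) (μ ^ (n - j)) with ⟨h8, _⟩ | ⟨h8, _⟩
      · rw [hq, h8, n1]; linarith
      · rw [hq, h8, n1]; linarith
    calc C * ‖L^[j] u‖ ^ α ≤ C * ((2 * K₁) ^ α * s₀ ^ α * q ^ α) := by
          rw [← d7]; exact mul_le_mul_of_nonneg_left d6 hC.le
      _ = M * s₀ ^ α * q ^ α := by rw [hM]; ring
      _ ≤ M * s₀ ^ α * (ν ^ j + ν ^ (n - j)) := mul_le_mul_of_nonneg_left d8 (by positivity)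
  have hgs : ∀ j : ℕ, ∑ i ∈ Finset.range j, ν ^ i ≤ 1 / (1 - ν) := by
    intro j
    rw [one_div, ← tsum_geometric_of_lt_one hν0.le hν1]
    exact (summable_geometric_of_lt_one hν0.le hν1).sum_le_tsum _ (fun i _ => (pow_pos hν0 i).le)
  have hgs' : ∀ j ≤ n, ∑ i ∈ Finset.range j, ν ^ (n - i) ≤ 1 / (1 - ν) := by
    intro j hj
    have h5 : ∑ i ∈ Finset.range j, ν ^ (n - i) ≤ ∑ i ∈ Finset.range j, ν ^ (j - 1 - i) := by
      apply Finset.sum_le_sum
      intro i hi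
      apply pow_le_pow_of_le_one hν0.le hν1.le
      have := Finset.mem_range.mp hi
      omega
    rw [Finset.sum_range_reflect (fun i => ν ^ i) j] at h5
    exact h5.trans (hgs j)
  -- the sums
  have hsumd : ∀ j ≤ n, ‖∑ i ∈ Finset.range j, ω (h^[i] p) - ∑ i ∈ Finset.range j, ω (h^[i] w)‖ ≤
      K' * (M * s₀ ^ α * (2 / (1 - ν))) := by
    intro j hj
    rw [← Finset.sum_sub_distrib]
    refine (norm_sum_le _ _).trans ?_
    have h5 : ∀ i ∈ Finset.range j, ‖ω (h^[i] p) - ω (h^[i] w)‖ ≤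
        K' * (M * s₀ ^ α * (ν ^ i + ν ^ (n - i))) := by
      intro i hi
      have hij := Finset.mem_range.mp hi
      rw [← dist_eq_norm]
      refine (hω _ _).trans ?_
      calc K * dist (h^[i] p) (h^[i] w) ≤ K' * dist (h^[i] p) (h^[i] w) :=
            mul_le_mul_of_nonneg_right (le_max_left _ _) dist_nonneg
        _ ≤ _ := mul_le_mul_of_nonneg_left (hdist i (by omega)) hK'0
    refine (Finset.sum_le_sum h5).trans ?_
    rw [← Finset.mul_sum, ← Finset.mul_sum]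
    apply mul_le_mul_of_nonneg_left _ hK'0
    apply mul_le_mul_of_nonneg_left _ (by positivity)
    rw [Finset.sum_add_distrib]
    have := hgs j
    have := hgs' j hj
    have e5 : 2 / (1 - ν) = 1 / (1 - ν) + 1 / (1 - ν) := by ring
    rw [e5]
    linarith
  set S := K' * (M * s₀ ^ α * (2 / (1 - ν))) with hS
  have hS0 : 0 ≤ S := by positivity
  have hMs : 0 < M * s₀ ^ α := by positivity
  have hSε : S < ε / 4 := by linarith
  set β : W' := (n : ℝ)⁻¹ • (t - ∑ i ∈ Finset.range n, ω (h^[i] p)) with hβ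
  have hnβ : (n : ℝ) • β = t - ∑ i ∈ Finset.range n, ω (h^[i] p) := by
    rw [hβ, smul_smul, mul_inv_cancel₀ hn0.ne', one_smul]
  have hnβε : ‖(n : ℝ) • β‖ < ε / 2 := by
    rw [hnβ]
    have e6 : t - ∑ i ∈ Finset.range n, ω (h^[i] p) =
        -((∑ i ∈ Finset.range n, ω (h^[i] p) - ∑ i ∈ Finset.range n, ω (h^[i] w)) +
          (∑ i ∈ Finset.range n, ω (h^[i] w) - t)) := by abel
    rw [e6, norm_neg]
    refine (norm_add_le _ _).trans_lt ?_
    have := hsumd n le_rfl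
    linarith
  have hjβ : ∀ j ≤ n, ‖(j : ℝ) • β‖ < ε / 2 := by
    intro j hj
    have e7 : ∀ i : ℕ, ‖(i : ℝ) • β‖ = (i : ℝ) * ‖β‖ := fun i => by
      rw [norm_smul, Real.norm_natCast]
    refine lt_of_le_of_lt ?_ hnβε
    rw [e7, e7]
    have h8 : (j : ℝ) ≤ n := by exact_mod_cast hj
    exact mul_le_mul_of_nonneg_right h8 (norm_nonneg β)
  refine ⟨p, β, ?_, ?_, ?_, fun j hj => ?_, fun j hj => ?_⟩
  · have h9 := hjβ 1 hn
    rw [Nat.cast_one, one_smul] at h9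
    linarith
  · have e8 : L^[n] (a + u) = a + u + l := by
      rw [hLadd, hu1, he]
      abel
    rw [hp, hit, e8, hΦ, hl']
  · rw [hnβ]; abel
  · refine (hdist j hj).trans_lt ?_
    have p1 : ν ^ j ≤ 1 := pow_le_one₀ hν0.le hν1.le
    have p2 : ν ^ (n - j) ≤ 1 := pow_le_one₀ hν0.le hν1.le
    have : M * s₀ ^ α * (ν ^ j + ν ^ (n - j)) ≤ M * s₀ ^ α * 2 :=
      mul_le_mul_of_nonneg_left (by linarith) hMs.le
    linarith
  · have e9 : (∑ i ∈ Finset.range j, ω (h^[i] p) + (j : ℝ) • β) -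
        ∑ i ∈ Finset.range j, ω (h^[i] w) =
        (∑ i ∈ Finset.range j, ω (h^[i] p) - ∑ i ∈ Finset.range j, ω (h^[i] w)) +
          (j : ℝ) • β := by abel
    rw [e9]
    refine (norm_add_le _ _).trans_lt ?_
    have := hsumd j hj
    have := hjβ j hj
    linarith

end Pool.Agent.H922R3.CL.B
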