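import Pool.Agent.H922R3.CL.HypBase
import Pool.Agent.H922R3.CL.CircleBase
import Pool.Agent.H922R3.CL.CircB

set_option autoImplicit false

open Set Filter Topology Function

namespace Pool.Agent.H922R3.CL.B

/-- Mixed base maps have the closing property. -/
theorem mixed_clos {d l s : ℕ} {H : V d l s → V d l s} (hH : IsMixedBase H) :
    UClos (ZV d l s) H := by
  obtain ⟨h, ω, c, hHe, ⟨L, Φ, A, C, α, hL, -, hΦ, hhΦ, hC, hα, hHol⟩, ⟨K, hω⟩, hcc⟩ := hH
  have hc : ∀ i : Fin s, ∀ ε > 0, ∃ δ > 0, ∀ (n : ℕ) (w : ℝ) (k : ℤ), 1 ≤ n →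
      |(c i)^[n] w - (w + k)| < δ → ∃ β : ℝ, |β| < ε ∧ (fun x => c i x + β)^[n] w = w + k ∧
        ∀ j ≤ n, |(fun x => c i x + β)^[j] w - (c i)^[j] w| < ε := by
    intro i
    obtain ⟨Ψ, ρ, h1, h2, h3⟩ := hcc i
    exact circ_clos h1 h2 h3
  intro ε hε
  obtain ⟨δ₁, hδ₁, A1⟩ := hyp_part (Zn_near d) hL hΦ hhΦ hC hα hHol hω ε hε
  choose δ₂ hδ₂ A2 using fun i => hc i ε hε
  have h4 : ∀ᶠ δ : ℝ in 𝓝[>] 0, ∀ i, δ ≤ δ₂ i := by
    rw [eventually_all]
    intro i
    have : Iic (δ₂ i) ∈ 𝓝 (0 : ℝ) := Iic_mem_nhds (hδ₂ i)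
    exact mem_nhdsWithin_of_mem_nhds this
  obtain ⟨δ₃, hδ₃, hδ₃0⟩ := (h4.and self_mem_nhdsWithin).exists
  have hδ₃0' : 0 < δ₃ := hδ₃0
  refine ⟨min δ₁ δ₃, lt_min hδ₁ hδ₃0', fun n w k hn hk hw => ?_⟩
  have hit : ∀ j, H^[j] w = (h^[j] w.1, w.2.1 + ∑ i ∈ Finset.range j, ω (h^[i] w.1),
      fun i => (c i)^[j] (w.2.2 i)) := by
    intro j
    induction j with
    | zero => simp
    | succ j ih =>
      rw [Function.iterate_succ_apply', ih, hHe]
      refine Prod.ext ?_ (Prod.ext ?_ ?_)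
      · show h (h^[j] w.1) = h^[j + 1] w.1
        rw [Function.iterate_succ_apply']
      · show w.2.1 + ∑ i ∈ Finset.range j, ω (h^[i] w.1) + ω (h^[j] w.1) = _
        rw [Finset.sum_range_succ, add_assoc]
      · funext i
        show c i ((c i)^[j] (w.2.2 i)) = (c i)^[j + 1] (w.2.2 i)
        rw [Function.iterate_succ_apply']
  rw [hit] at hw
  have w1 : dist (h^[n] w.1) (w.1 + k.1) < min δ₁ δ₃ := (le_max_left _ _).trans_lt hw
  have w2 : dist (w.2.1 + ∑ i ∈ Finset.range n, ω (h^[i] w.1)) (w.2.1 + k.2.1) < min δ₁ δ₃ :=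
    ((le_max_left _ _).trans (le_max_right _ _)).trans_lt hw
  have w3 : ∀ i, dist ((c i)^[n] (w.2.2 i)) (w.2.2 i + k.2.2 i) < min δ₁ δ₃ := fun i =>
    ((dist_le_pi_dist (fun i => (c i)^[n] (w.2.2 i)) (w + k).2.2 i).trans
      ((le_max_right _ _).trans (le_max_right _ _))).trans_lt hw
  rw [dist_add_left, dist_eq_norm] at w2
  obtain ⟨p, β, b1, b2, b3, b4, b5⟩ := A1 n w.1 k.1 k.2.1 hn hk.1
    (w1.trans_le (min_le_left _ _)) (w2.trans_le (min_le_left _ _))
  have hki := hk.2.2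
  choose m hm using hki
  have hx : ∀ i, ∃ β : ℝ, |β| < ε ∧ (fun x => c i x + β)^[n] (w.2.2 i) = w.2.2 i + m i ∧
        ∀ j ≤ n, |(fun x => c i x + β)^[j] (w.2.2 i) - (c i)^[j] (w.2.2 i)| < ε := by
    intro i
    apply A2 i n (w.2.2 i) (m i) hn
    have := w3 i
    rw [Real.dist_eq] at this
    have e1 : k.2.2 i = m i := hm i
    rw [e1] at this
    exact this.trans_le ((min_le_right _ _).trans (hδ₃ i))
  choose γ g1 g2 g3 using hx
  have hit2 : ∀ j, (fun x => H x + ((0, β, γ) : V d l s))^[j] (p, w.2.1, w.2.2) =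
      (h^[j] p, w.2.1 + (∑ i ∈ Finset.range j, ω (h^[i] p) + (j : ℝ) • β),
      fun i => (fun x => c i x + γ i)^[j] (w.2.2 i)) := by
    intro j
    induction j with
    | zero => simp
    | succ j ih =>
      rw [Function.iterate_succ_apply', ih]
      show H _ + ((0, β, γ) : V d l s) = _
      rw [hHe]
      refine Prod.ext ?_ (Prod.ext ?_ ?_)
      · show h (h^[j] p) + 0 = h^[j + 1] p
        rw [Function.iterate_succ_apply', add_zero]
      · show w.2.1 + (∑ i ∈ Finset.range j, ω (h^[i] p) + (j : ℝ) • β) + ω (h^[j] p) + β = _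
        rw [Finset.sum_range_succ]
        push_cast
        rw [add_smul, one_smul]
        abel
      · funext i
        show c i ((fun x => c i x + γ i)^[j] (w.2.2 i)) + γ i =
          (fun x => c i x + γ i)^[j + 1] (w.2.2 i)
        rw [Function.iterate_succ_apply']
  refine ⟨(0, β, γ), (p, w.2.1, w.2.2), ?_, ?_, fun j hj => ?_⟩
  · rw [Prod.norm_def, Prod.norm_def]
    refine max_lt ?_ (max_lt b1 ?_)
    · show ‖(0 : Fin d → ℝ)‖ < ε
      rw [norm_zero]; exact hε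
    · rw [pi_norm_lt_iff hε]
      exact g1
  · rw [hit2, b2, b3]
    refine Prod.ext rfl (Prod.ext rfl ?_)
    funext i
    show (fun x => c i x + γ i)^[n] (w.2.2 i) = w.2.2 i + k.2.2 i
    rw [g2]
    have e1 : k.2.2 i = m i := hm i
    rw [e1]
  · rw [hit2, hit]
    refine max_lt (b4 j hj) (max_lt ?_ ?_)
    · show dist (w.2.1 + (∑ i ∈ Finset.range j, ω (h^[i] p) + (j : ℝ) • β))
        (w.2.1 + ∑ i ∈ Finset.range j, ω (h^[i] w.1)) < ε
      rw [dist_add_left, dist_eq_norm]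
      exact b5 j hj
    · rw [dist_pi_lt_iff hε]
      intro i
      rw [Real.dist_eq]
      exact g3 i j hj

end Pool.Agent.H922R3.CL.B
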