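import Pool.Agent.H922R3.CL.Defs

set_option autoImplicit false
set_option linter.unusedSectionVars false

open Set Filter Topology Function

namespace Pool.Agent.H922R3.CL

section general

variable {W : Type*} [NormedAddCommGroup W] [NormedSpace ℝ W]

/-- Maps which are periodic up to constants are uniformly continuous. -/
theorem qp_unif [ProperSpace W] {W' : Type*} [SeminormedAddCommGroup W'] (Λ : AddSubgroup W)
    (hΛ : ∀ z : W, ∃ u ∈ Λ, ‖z - u‖ ≤ 1) (Φ : W → W') (hΦ : Continuous Φ)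
    (hq : ∀ u ∈ Λ, ∃ c : W', ∀ z, Φ (z + u) = Φ z + c) : UniformContinuous Φ := by
  have hK : IsCompact (Metric.closedBall (0 : W) 2) := isCompact_closedBall 0 2
  have hu := hK.uniformContinuousOn_of_continuous hΦ.continuousOn
  rw [Metric.uniformContinuousOn_iff] at hu
  rw [Metric.uniformContinuous_iff]
  intro ε hε
  obtain ⟨δ, hδ, h1⟩ := hu ε hε
  refine ⟨min δ 1, lt_min hδ one_pos, fun {x y} hxy => ?_⟩
  obtain ⟨u, hu, hxu⟩ := hΛ x
  obtain ⟨c, hc⟩ := hq u hu
  have hd : dist (x - u) (y - u) < min δ 1 := by rwa [dist_sub_right]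
  have hy : ‖y - u‖ ≤ 2 := by
    have h2 : dist (y - u) (x - u) ≤ 1 := by
      rw [dist_comm]; exact (hd.trans_le (min_le_right _ _)).le
    rw [dist_eq_norm] at h2
    have h3 := norm_add_le (y - u - (x - u)) (x - u)
    rw [sub_add_cancel] at h3
    linarith
  have h4 := h1 (x - u) (by rw [mem_closedBall_zero_iff]; linarith) (y - u)
    (by rw [mem_closedBall_zero_iff]; exact hy) (hd.trans_le (min_le_left _ _))
  have ex : Φ x = Φ (x - u) + c := by rw [← hc, sub_add_cancel]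
  have ey : Φ y = Φ (y - u) + c := by rw [← hc, sub_add_cancel]
  rw [ex, ey, dist_add_right]
  exact h4

theorem iter_add_const {k : ℕ} {r : ℕ∞} {F : W → W} (hF : ContDiff ℝ r F) (hk : (k : ℕ∞) ≤ r)
    (a : W) (z : W) :
    iteratedFDeriv ℝ k (fun z => F z + a) z = iteratedFDeriv ℝ k F z +
      iteratedFDeriv ℝ k (fun _ : W => a) 0 := by
  have h1 : iteratedFDeriv ℝ k (fun _ : W => a) z = iteratedFDeriv ℝ k (fun _ : W => a) 0 := by
    cases k with
    | zero => rfl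
    | succ k =>
      rw [iteratedFDeriv_succ_const]
      rfl
  rw [← h1]
  have h2 : ContDiff ℝ k F := hF.of_le (by exact_mod_cast hk)
  exact iteratedFDeriv_add_apply (h2.contDiffAt) contDiffAt_const

theorem norm_iter_const {k : ℕ} (a : W) (z : W) :
    ‖iteratedFDeriv ℝ k (fun _ : W => a) z‖ ≤ ‖a‖ := by
  cases k with
  | zero => simp
  | succ k =>
    rw [iteratedFDeriv_succ_const]
    simp

theorem IsDiffeoLift.unif_iter [ProperSpace W] {Λ : AddSubgroup W} {r : ℕ∞} {F : W ≃ W}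
    (hF : IsDiffeoLift Λ r F) (hΛ : ∀ z : W, ∃ u ∈ Λ, ‖z - u‖ ≤ 1) {k : ℕ} (hk : (k : ℕ∞) ≤ r) :
    UniformContinuous (iteratedFDeriv ℝ k F) := by
  obtain ⟨A, hA⟩ := hF.equiv
  apply qp_unif Λ hΛ
  · exact hF.smooth.continuous_iteratedFDeriv (by exact_mod_cast hk)
  · intro u hu
    refine ⟨iteratedFDeriv ℝ k (fun _ : W => (A ⟨u, hu⟩ : W)) 0, fun z => ?_⟩
    rw [← iter_add_const hF.smooth hk, ← iteratedFDeriv_comp_add_right]
    congr 1
    funext x
    exact hA x ⟨u, hu⟩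

theorem IsDiffeoLift.unif [ProperSpace W] {Λ : AddSubgroup W} {r : ℕ∞} {F : W ≃ W}
    (hF : IsDiffeoLift Λ r F) (hΛ : ∀ z : W, ∃ u ∈ Λ, ‖z - u‖ ≤ 1) :
    UniformContinuous F := by
  obtain ⟨A, hA⟩ := hF.equiv
  apply qp_unif Λ hΛ
  · exact hF.smooth.continuous
  · intro u hu
    exact ⟨_, fun z => hA z ⟨u, hu⟩⟩

/-- Composing with small translations changes the first `k` derivatives by little. -/
theorem IsDiffeoLift.close [ProperSpace W] {Λ : AddSubgroup W} {r : ℕ∞} {F : W ≃ W}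
    (hF : IsDiffeoLift Λ r F) (hΛ : ∀ z : W, ∃ u ∈ Λ, ‖z - u‖ ≤ 1) {k : ℕ} (hk : (k : ℕ∞) ≤ r)
    {ε : ℝ} (hε : 0 < ε) : ∃ ρ > 0, ∀ u w : W, ‖u‖ < ρ → ‖w‖ < ρ → ∀ j ≤ k, ∀ x,
      ‖iteratedFDeriv ℝ j (fun x => (F (x - w) + u) - F x) x‖ < ε := by
  have h1 : ∀ j ∈ Finset.range (k + 1), ∀ᶠ ρ in 𝓝[>] (0 : ℝ), ∀ u w : W, ‖u‖ < ρ → ‖w‖ < ρ →
      ∀ x, ‖iteratedFDeriv ℝ j (fun x => (F (x - w) + u) - F x) x‖ < ε := by
    intro j hj
    have hjk : (j : ℕ∞) ≤ r := le_trans (by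
      have := Finset.mem_range.mp hj
      exact_mod_cast (by omega : j ≤ k)) hk
    have hu := hF.unif_iter hΛ hjk
    rw [Metric.uniformContinuous_iff] at hu
    obtain ⟨δ, hδ, h2⟩ := hu (ε / 2) (half_pos hε)
    have h3 : Ioo (0 : ℝ) (min δ (ε / 2)) ∈ 𝓝[>] (0 : ℝ) :=
      Ioo_mem_nhdsGT (lt_min hδ (half_pos hε))
    filter_upwards [h3] with ρ hρ u w hu hw x
    have hs : ContDiff ℝ j F := hF.smooth.of_le (by exact_mod_cast hjk)
    have hsw : ContDiff ℝ j (fun x => F (x - w)) := hs.comp (contDiff_id.sub contDiff_const)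
    have e1 : iteratedFDeriv ℝ j (fun x => (F (x - w) + u) - F x) x =
        iteratedFDeriv ℝ j F (x - w) + iteratedFDeriv ℝ j (fun _ : W => u) x -
          iteratedFDeriv ℝ j F x := by
      have e2 : iteratedFDeriv ℝ j (fun x => (F (x - w) + u) - F x) x =
          iteratedFDeriv ℝ j (fun x => F (x - w) + u) x - iteratedFDeriv ℝ j F x :=
        iteratedFDeriv_sub_apply (hsw.add contDiff_const).contDiffAt hs.contDiffAt
      have e3 : iteratedFDeriv ℝ j (fun x => F (x - w) + u) x =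
          iteratedFDeriv ℝ j (fun x => F (x - w)) x + iteratedFDeriv ℝ j (fun _ : W => u) x :=
        iteratedFDeriv_add_apply hsw.contDiffAt contDiffAt_const
      rw [e2, e3, iteratedFDeriv_comp_sub]
    rw [e1]
    have h4 : dist (iteratedFDeriv ℝ j F (x - w)) (iteratedFDeriv ℝ j F x) < ε / 2 := by
      apply h2
      rw [dist_eq_norm]
      have : x - w - x = -w := by abel
      rw [this, norm_neg]
      exact hw.trans (hρ.2.trans_le (min_le_left _ _))
    have h5 := norm_iter_const (k := j) u x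
    have h6 : ‖u‖ < ε / 2 := hu.trans (hρ.2.trans_le (min_le_right _ _))
    rw [dist_eq_norm] at h4
    have e4 : iteratedFDeriv ℝ j F (x - w) + iteratedFDeriv ℝ j (fun _ : W => u) x -
          iteratedFDeriv ℝ j F x = (iteratedFDeriv ℝ j F (x - w) - iteratedFDeriv ℝ j F x) +
          iteratedFDeriv ℝ j (fun _ : W => u) x := by abel
    rw [e4]
    refine (norm_add_le _ _).trans_lt ?_
    linarith
  rw [← Filter.eventually_all_finset] at h1
  obtain ⟨ρ, h2, hρ⟩ := (h1.and self_mem_nhdsWithin).exists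
  exact ⟨ρ, hρ, fun u w hu hw j hj x => h2 j (Finset.mem_range.mpr (by omega)) u w hu hw x⟩

/-- Composing with translations. -/
theorem IsDiffeoLift.transl {Λ : AddSubgroup W} {r : ℕ∞} {F : W ≃ W}
    (hF : IsDiffeoLift Λ r F) (u w : W) :
    IsDiffeoLift Λ r (((Equiv.subRight w).trans F).trans (Equiv.addRight u)) := by
  obtain ⟨A, hA⟩ := hF.equiv
  refine ⟨?_, ?_, A, fun z l => ?_⟩
  · show ContDiff ℝ r (fun x => F (x - w) + u)
    exact (hF.smooth.comp (contDiff_id.sub contDiff_const)).add contDiff_const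
  · have e : ⇑(((Equiv.subRight w).trans F).trans (Equiv.addRight u)).symm =
        fun x => F.symm (x - u) + w := by
      funext x
      rw [Equiv.symm_apply_eq]
      show x = F (F.symm (x - u) + w - w) + u
      rw [add_sub_cancel_right, Equiv.apply_symm_apply, sub_add_cancel]
    rw [e]
    exact (hF.smooth_symm.comp (contDiff_id.sub contDiff_const)).add contDiff_const
  · show F (z + l - w) + u = F (z - w) + u + A l
    have : z + l - w = z - w + l := by abel
    rw [this, hA]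
    abel

end general

theorem Zn_near (n : ℕ) (z : Fin n → ℝ) : ∃ u ∈ Zn n, ‖z - u‖ ≤ 1 := by
  refine ⟨fun i => (⌊z i⌋ : ℝ), fun i => ⟨_, rfl⟩, ?_⟩
  rw [pi_norm_le_iff_of_nonneg zero_le_one]
  intro i
  show ‖z i - ⌊z i⌋‖ ≤ 1
  rw [Real.norm_eq_abs, abs_le]
  constructor <;> linarith [Int.floor_le (z i), Int.lt_floor_add_one (z i)]

theorem ZV_near (d e m : ℕ) (z : V d e m) : ∃ u ∈ ZV d e m, ‖z - u‖ ≤ 1 := by
  obtain ⟨u1, h1, h1'⟩ := Zn_near d z.1
  obtain ⟨u2, h2, h2'⟩ := Zn_near e z.2.1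
  obtain ⟨u3, h3, h3'⟩ := Zn_near m z.2.2
  refine ⟨(u1, u2, u3), ⟨h1, h2, h3⟩, ?_⟩
  rw [Prod.norm_def, Prod.norm_def]
  exact max_le h1' (max_le h2' h3')

end Pool.Agent.H922R3.CL
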